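import Mathlib

/-!
# Operators without invariant subspaces: basic facts

Transfer principle: if `A : Y → X` is injective and `B : X → Y` has dense range and `A B` has no
nontrivial closed invariant subspace, then neither has `B A`.
-/

set_option autoImplicit false

namespace Pool.Agent.H272.IS

open Filter Topology

section basic

variable {X : Type*} [NormedAddCommGroup X] [NormedSpace ℂ X]
variable {Y : Type*} [NormedAddCommGroup Y] [NormedSpace ℂ Y]

/-- `T` has no closed invariant subspace other than `0` and the whole space -/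
def NoInv (T : X →L[ℂ] X) : Prop :=
  ∀ V : Submodule ℂ X, IsClosed (V : Set X) → (∀ x ∈ V, T x ∈ V) → V = ⊥ ∨ V = ⊤

/-- transfer principle -/
theorem NoInv.swap {A : Y →L[ℂ] X} {B : X →L[ℂ] Y} (hA : Function.Injective A)
    (hB : DenseRange B) (h : NoInv (A ∘L B)) : NoInv (B ∘L A) := by
  intro V hV hinv
  have hmaps : Set.MapsTo (A ∘L B) (A '' (V : Set Y)) (A '' (V : Set Y)) := by
    rintro _ ⟨v, hv, rfl⟩
    exact ⟨B (A v), hinv v hv, rfl⟩
  have hcl := hmaps.closure (A ∘L B).continuous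
  have hU : ((V.map (A : Y →ₗ[ℂ] X)).topologicalClosure : Set X) = closure (A '' (V : Set Y)) := by
    rw [Submodule.topologicalClosure_coe]
    rfl
  have key := h (V.map (A : Y →ₗ[ℂ] X)).topologicalClosure
    (Submodule.isClosed_topologicalClosure _) (by
      intro x hx
      have hx' : x ∈ closure (A '' (V : Set Y)) := by rw [← hU]; exact hx
      have := hcl hx'
      change (A ∘L B) x ∈ ((V.map (A : Y →ₗ[ℂ] X)).topologicalClosure : Set X)
      rw [hU]; exact this)
  rcases key with key | key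
  · left
    rw [eq_bot_iff]
    intro v hv
    have h1 : A v ∈ (V.map (A : Y →ₗ[ℂ] X)).topologicalClosure := by
      change A v ∈ ((V.map (A : Y →ₗ[ℂ] X)).topologicalClosure : Set X)
      rw [hU]
      exact subset_closure ⟨v, hv, rfl⟩
    rw [key, Submodule.mem_bot] at h1
    have h2 : v = 0 := hA (by rw [h1, map_zero])
    rw [h2]; exact Submodule.zero_mem _
  · right
    rw [eq_top_iff]
    intro y _
    have hB1 : Set.MapsTo B (A '' (V : Set Y)) (V : Set Y) := by
      rintro _ ⟨v, hv, rfl⟩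
      exact hinv v hv
    have hB2 := hB1.closure B.continuous
    rw [hV.closure_eq] at hB2
    have hB3 : Set.range B ⊆ (V : Set Y) := by
      rintro _ ⟨x, rfl⟩
      apply hB2
      rw [← hU, key]
      trivial
    have := closure_mono hB3
    rw [hV.closure_eq, hB.closure_range] at this
    exact this (Set.mem_univ y)

theorem NoInv.sub_smul_one {T : X →L[ℂ] X} (h : NoInv T) (c : ℂ) :
    NoInv (T - c • (1 : X →L[ℂ] X)) := by
  intro V hV hinv
  refine h V hV (fun x hx => ?_)
  have h1 := hinv x hx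
  have h2 := V.add_mem h1 (V.smul_mem c hx)
  simpa using h2

theorem NoInv.add_smul_one {T : X →L[ℂ] X} (h : NoInv T) (c : ℂ) :
    NoInv (T + c • (1 : X →L[ℂ] X)) := by
  intro V hV hinv
  refine h V hV (fun x hx => ?_)
  have h1 := hinv x hx
  have h2 := V.sub_mem h1 (V.smul_mem c hx)
  simpa using h2

/-- an operator without invariant subspaces on an infinite-dimensional space is not a scalar -/
theorem NoInv.ne_smul_one {T : X →L[ℂ] X} (h : NoInv T) (hX : ¬ FiniteDimensional ℂ X) (c : ℂ) :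
    T ≠ c • (1 : X →L[ℂ] X) := by
  rintro rfl
  have hne : Nontrivial X := by
    by_contra hcon
    rw [not_nontrivial_iff_subsingleton] at hcon
    exact hX inferInstance
  obtain ⟨x, hx⟩ := exists_ne (0 : X)
  have hfd : FiniteDimensional ℂ (Submodule.span ℂ {x} : Submodule ℂ X) := inferInstance
  rcases h (Submodule.span ℂ {x}) (Submodule.closed_of_finiteDimensional _) (by
    intro y hy
    simpa using Submodule.smul_mem _ c hy) with h1 | h1
  · apply hx
    have : x ∈ (Submodule.span ℂ {x} : Submodule ℂ X) := Submodule.mem_span_singleton_self x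
    rwa [h1, Submodule.mem_bot] at this
  · apply hX
    rw [h1] at hfd
    exact (LinearEquiv.finiteDimensional (Submodule.topEquiv : (⊤ : Submodule ℂ X) ≃ₗ[ℂ] X))

theorem NoInv.injective {T : X →L[ℂ] X} (h : NoInv T) (hX : ¬ FiniteDimensional ℂ X) :
    Function.Injective T := by
  rcases h (LinearMap.ker (T : X →ₗ[ℂ] X)) T.isClosed_ker (by
    intro x hx
    have hx' : T x = 0 := hx
    rw [hx']
    exact Submodule.zero_mem _) with h1 | h1
  · exact LinearMap.ker_eq_bot.1 h1
  · exfalso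
    apply h.ne_smul_one hX 0
    ext x
    have : x ∈ LinearMap.ker (T : X →ₗ[ℂ] X) := by rw [h1]; trivial
    simpa using this

theorem NoInv.denseRange {T : X →L[ℂ] X} (h : NoInv T) (hX : ¬ FiniteDimensional ℂ X) :
    DenseRange T := by
  have hU : ((LinearMap.range (T : X →ₗ[ℂ] X)).topologicalClosure : Set X) =
      closure (Set.range T) := by
    rw [Submodule.topologicalClosure_coe]
    rfl
  rcases h (LinearMap.range (T : X →ₗ[ℂ] X)).topologicalClosure
    (Submodule.isClosed_topologicalClosure _) (by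
      intro x _
      exact Submodule.le_topologicalClosure _ ⟨x, rfl⟩) with h1 | h1
  · exfalso
    apply h.ne_smul_one hX 0
    ext x
    have : T x ∈ (LinearMap.range (T : X →ₗ[ℂ] X)).topologicalClosure :=
      Submodule.le_topologicalClosure _ ⟨x, rfl⟩
    rw [h1, Submodule.mem_bot] at this
    simpa using this
  · intro y
    rw [← hU, h1]
    trivial

end basic

section surj

variable {X : Type*} [NormedAddCommGroup X] [NormedSpace ℂ X] [CompleteSpace X]
variable {Y : Type*} [NormedAddCommGroup Y] [NormedSpace ℂ Y]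

/-- geometric series argument -/
theorem surjective_of_approx (T : X →L[ℂ] Y) (C : ℝ)
    (h : ∀ y : Y, ∃ x : X, ‖x‖ ≤ C * ‖y‖ ∧ ‖y - T x‖ ≤ 1 / 2 * ‖y‖) :
    Function.Surjective T := by
  choose f hf1 hf2 using h
  intro y
  let u : ℕ → Y := fun n => Nat.rec y (fun _ z => z - T (f z)) n
  have hu0 : u 0 = y := rfl
  have hus : ∀ n, u (n + 1) = u n - T (f (u n)) := fun n => rfl
  have hun : ∀ n, ‖u n‖ ≤ (1 / 2) ^ n * ‖y‖ := by
    intro n
    induction n with
    | zero => simp [hu0]
    | succ n ih =>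
      rw [hus, pow_succ]
      calc ‖u n - T (f (u n))‖ ≤ 1 / 2 * ‖u n‖ := hf2 _
        _ ≤ 1 / 2 * ((1 / 2) ^ n * ‖y‖) := by gcongr
        _ = (1 / 2) ^ n * (1 / 2) * ‖y‖ := by ring
  have hC : ∀ n, ‖f (u n)‖ ≤ |C| * ‖y‖ * (1 / 2) ^ n := by
    intro n
    calc ‖f (u n)‖ ≤ C * ‖u n‖ := hf1 _
      _ ≤ |C| * ‖u n‖ := by gcongr; exact le_abs_self C
      _ ≤ |C| * ((1 / 2) ^ n * ‖y‖) := by gcongr; exact hun n
      _ = |C| * ‖y‖ * (1 / 2) ^ n := by ring
  have hsum : Summable (fun n => f (u n)) := by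
    refine Summable.of_norm_bounded (g := fun n : ℕ => |C| * ‖y‖ * (1 / 2 : ℝ) ^ n) ?_ hC
    exact (summable_geometric_of_lt_one (by norm_num) (by norm_num)).mul_left _
  refine ⟨∑' n, f (u n), ?_⟩
  have h1 : HasSum (fun n => T (f (u n))) (T (∑' n, f (u n))) := hsum.hasSum.mapL T
  have h2 : ∀ n, ∑ i ∈ Finset.range n, T (f (u i)) = y - u n := by
    intro n
    induction n with
    | zero => simp [hu0]
    | succ n ih => rw [Finset.sum_range_succ, ih, hus]; abel
  have h3 : Tendsto (fun n => ∑ i ∈ Finset.range n, T (f (u i))) atTop (𝓝 y) := by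
    have h4 : Tendsto u atTop (𝓝 0) := by
      apply squeeze_zero_norm hun
      have := (tendsto_pow_atTop_nhds_zero_of_lt_one (r := (1 / 2 : ℝ)) (by norm_num)
        (by norm_num)).mul_const ‖y‖
      simpa using this
    have h5 : Tendsto (fun n => y - u n) atTop (𝓝 (y - 0)) := tendsto_const_nhds.sub h4
    rw [sub_zero] at h5
    simpa only [h2] using h5
  exact tendsto_nhds_unique h1.tendsto_sum_nat h3

/-- if the adjoint is bounded below then the operator is onto -/
theorem surjective_of_adjoint (T : X →L[ℂ] Y) (c : ℝ) (hc : 0 < c)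
    (h : ∀ f : Y →L[ℂ] ℂ, c * ‖f‖ ≤ ‖f.comp T‖) : Function.Surjective T := by
  -- the closure of the image of the unit ball contains the ball of radius `c`
  have key : ∀ y : Y, ‖y‖ < c → y ∈ closure (T '' Metric.closedBall 0 1) := by
    intro y hy
    by_contra hcon
    have hconv : Convex ℝ (closure (T '' Metric.closedBall (0 : X) 1)) := by
      have h1 : Convex ℝ (T '' Metric.closedBall (0 : X) 1) := by
        have := (convex_closedBall (0 : X) 1).is_linear_image
          (f := T) ⟨T.map_add, fun r x => by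
            have h5 : T ((r : ℂ) • x) = (r : ℂ) • T x := T.map_smul _ _
            simp⟩
        exact this
      exact h1.closure
    obtain ⟨f, u, hf1, hf2⟩ := RCLike.geometric_hahn_banach_closed_point (𝕜 := ℂ) hconv
      isClosed_closure hcon
    have hbound : ∀ x : X, ‖x‖ ≤ 1 → ‖f (T x)‖ ≤ u := by
      intro x hx
      -- rotate
      obtain ⟨θ, hθ1, hθ2⟩ : ∃ θ : ℂ, ‖θ‖ = 1 ∧ θ * f (T x) = ‖f (T x)‖ := by
        by_cases h0 : f (T x) = 0
        · exact ⟨1, by simp, by simp [h0]⟩
        · refine ⟨(starRingEnd ℂ) (f (T x)) / ‖f (T x)‖, ?_, ?_⟩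
          · rw [norm_div, Complex.norm_conj, Complex.norm_real, norm_norm]
            exact div_self (norm_ne_zero_iff.2 h0)
          · rw [div_mul_eq_mul_div, mul_comm, Complex.mul_conj, Complex.normSq_eq_norm_sq]
            have : (‖f (T x)‖ : ℂ) ≠ 0 := by
              exact_mod_cast norm_ne_zero_iff.2 h0
            field_simp
            push_cast
            ring
      have h2 := hf1 (T (θ • x)) (subset_closure ⟨θ • x, by
        simp [norm_smul, hθ1, hx], rfl⟩)
      rw [map_smul, map_smul, smul_eq_mul, hθ2] at h2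
      simpa using h2.le
    have hu : 0 ≤ u := le_trans (norm_nonneg _) (hbound 0 (by simp))
    have h3 : ‖f.comp T‖ ≤ u := by
      refine ContinuousLinearMap.opNorm_le_of_unit_norm hu ?_
      intro x hx
      exact hbound x hx.le
    have h4 : u < ‖f‖ * ‖y‖ := by
      calc u < RCLike.re (f y) := hf2
        _ ≤ ‖f y‖ := RCLike.re_le_norm _
        _ ≤ ‖f‖ * ‖y‖ := f.le_opNorm y
    have h5 := h f
    have h6 : 0 < ‖f‖ := by
      by_contra hcon'
      have : ‖f‖ = 0 := le_antisymm (not_lt.1 hcon') (norm_nonneg _)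
      rw [this, zero_mul] at h4
      linarith
    nlinarith
  apply surjective_of_approx T (2 / c)
  intro y
  by_cases hy : y = 0
  · exact ⟨0, by simp [hy], by simp [hy]⟩
  · have hny : 0 < ‖y‖ := norm_pos_iff.2 hy
    set r : ℝ := c / (2 * ‖y‖) with hr
    have hr0 : 0 < r := by positivity
    have h1 : ‖((r : ℂ) • y)‖ < c := by
      rw [norm_smul, Complex.norm_real, Real.norm_of_nonneg hr0.le, hr]
      field_simp
      linarith
    have h2 := key _ h1
    rw [Metric.mem_closure_iff] at h2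
    obtain ⟨_, ⟨x, hx, rfl⟩, hxy⟩ := h2 (r * (1 / 2 * ‖y‖)) (by positivity)
    refine ⟨((r⁻¹ : ℝ) : ℂ) • x, ?_, ?_⟩
    · rw [norm_smul, Complex.norm_real, Real.norm_of_nonneg (inv_nonneg.2 hr0.le)]
      have hx1 : ‖x‖ ≤ 1 := by simpa using hx
      calc r⁻¹ * ‖x‖ ≤ r⁻¹ * 1 := by gcongr
        _ = 2 / c * ‖y‖ := by rw [hr]; field_simp
    · have h3 : y - T (((r⁻¹ : ℝ) : ℂ) • x) = ((r⁻¹ : ℝ) : ℂ) • ((r : ℂ) • y - T x) := by
        rw [map_smul, smul_sub, smul_smul]
        have : ((r⁻¹ : ℝ) : ℂ) * (r : ℂ) = 1 := by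
          rw [← Complex.ofReal_mul, inv_mul_cancel₀ hr0.ne']; simp
        rw [this, one_smul]
      rw [h3, norm_smul, Complex.norm_real, Real.norm_of_nonneg (inv_nonneg.2 hr0.le)]
      rw [dist_eq_norm] at hxy
      calc r⁻¹ * ‖(r : ℂ) • y - T x‖ ≤ r⁻¹ * (r * (1 / 2 * ‖y‖)) := by gcongr
        _ = 1 / 2 * ‖y‖ := by field_simp

end surj

section pairs

variable {X : Type*} [NormedAddCommGroup X] [NormedSpace ℂ X] [CompleteSpace X]

/-- small pairs -/
theorem exists_small_pair {T : X →L[ℂ] X} (hinj : Function.Injective T) (hd : DenseRange T)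
    (hu : ¬ IsUnit T) (δ : ℝ) (hδ : 0 < δ) :
    ∃ (g : X) (h : X →L[ℂ] ℂ), h (T g) = 1 ∧ ‖T g‖ ≤ δ ∧ ‖h.comp T‖ ≤ δ := by
  have hns : ¬ Function.Surjective T := fun hs =>
    hu (ContinuousLinearMap.isUnit_iff_bijective.2 ⟨hinj, hs⟩)
  have h1 : ∃ f : X →L[ℂ] ℂ, ‖f.comp T‖ < δ ^ 2 / 2 * ‖f‖ := by
    by_contra hcon
    push Not at hcon
    exact hns (surjective_of_adjoint T (δ ^ 2 / 2) (by positivity) hcon)
  obtain ⟨f, hf⟩ := h1
  have hf0 : 0 < ‖f‖ := by
    by_contra hcon
    have : ‖f‖ = 0 := le_antisymm (not_lt.1 hcon) (norm_nonneg _)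
    rw [this, mul_zero] at hf
    exact absurd hf (not_lt.2 (norm_nonneg _))
  obtain ⟨y, hy1, hy2⟩ := f.exists_lt_apply_of_lt_opNorm (half_lt_self hf0)
  have hopen : IsOpen {y : X | ‖y‖ < 1 ∧ ‖f‖ / 2 < ‖f y‖} :=
    (isOpen_lt continuous_norm continuous_const).inter
      (isOpen_lt continuous_const (continuous_norm.comp f.continuous))
  obtain ⟨g, hg1, hg2⟩ := hd.exists_mem_open hopen ⟨y, hy1, hy2⟩
  set s := f (T g) with hs
  have hs0 : s ≠ 0 := by
    intro h0
    rw [h0, norm_zero] at hg2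
    linarith
  refine ⟨(δ : ℂ) • g, ((δ : ℂ) * s)⁻¹ • f, ?_, ?_, ?_⟩
  · have hδ' : (δ : ℂ) ≠ 0 := by exact_mod_cast hδ.ne'
    simp only [map_smul, smul_apply, smul_eq_mul]
    rw [← hs]
    field_simp
  · rw [map_smul, norm_smul, Complex.norm_real, Real.norm_of_nonneg hδ.le]
    nlinarith
  · have h2 : (((δ : ℂ) * s)⁻¹ • f).comp T = ((δ : ℂ) * s)⁻¹ • (f.comp T) := by
      ext x; simp
    rw [h2, norm_smul, norm_inv, norm_mul, Complex.norm_real, Real.norm_of_nonneg hδ.le]
    have hs1 : 0 < ‖s‖ := norm_pos_iff.2 hs0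
    rw [inv_mul_le_iff₀ (by positivity)]
    nlinarith

end pairs

end Pool.Agent.H272.IS
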