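import Pool.Agent.H272.IS.Basic

/-!
# Biorthogonal sequences

* `exists_biorth`: if `T` is injective with dense range and not invertible, there are sequences
  `g n`, `h n` with `h m (T (g n)) = δ m n` and `‖T (g n)‖`, `‖h n ∘ T‖` as small as we please.
* `exists_mbasis`: each infinite-dimensional separable Banach space has a fundamental and total
  biorthogonal sequence (Markushevich basis) with `‖z n‖ = 1`, `‖z' n‖ ≤ 2 * 3 ^ n`.
-/

set_option autoImplicit false

namespace Pool.Agent.H272.IS

open Filter Topology

/-- recursive construction of a sequence -/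
theorem exists_seq_of_step {α : Type*} (a₀ : α) (Good : ℕ → (ℕ → α) → Prop)
    (h0 : ∀ s, Good 0 s)
    (hc : ∀ n s t, (∀ i, i < n → s i = t i) → Good n s → Good n t)
    (hs : ∀ n s, Good n s → ∃ a, Good (n + 1) (Function.update s n a)) :
    ∃ s : ℕ → α, ∀ n, Good n s := by
  classical
  let u : (n : ℕ) → {s : ℕ → α // Good n s} := fun n =>
    Nat.rec ⟨fun _ => a₀, h0 _⟩ (fun n s => ⟨Function.update s.1 n (hs n s.1 s.2).choose,
      (hs n s.1 s.2).choose_spec⟩) n
  have hus : ∀ n, (u (n + 1)).1 = Function.update (u n).1 n (hs n (u n).1 (u n).2).choose :=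
    fun n => rfl
  have h1 : ∀ n i, i < n → (u n).1 i = (u (i + 1)).1 i := by
    intro n
    induction n with
    | zero => intro i hi; exact absurd hi (Nat.not_lt_zero i)
    | succ n ih =>
      intro i hi
      rcases Nat.lt_succ_iff_lt_or_eq.1 hi with h | h
      · rw [hus, Function.update_of_ne h.ne, ih i h]
      · rw [h]
  refine ⟨fun i => (u (i + 1)).1 i, fun n => ?_⟩
  exact hc n (u n).1 _ (fun i hi => h1 n i hi) (u n).2

section biorth

variable {X : Type*} [NormedAddCommGroup X] [NormedSpace ℂ X] [CompleteSpace X]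

theorem exists_biorth {T : X →L[ℂ] X} (hinj : Function.Injective T) (hd : DenseRange T)
    (hu : ¬ IsUnit T) (δ : ℕ → ℝ) (hδ : ∀ n, 0 < δ n) :
    ∃ (g : ℕ → X) (h : ℕ → (X →L[ℂ] ℂ)),
      (∀ m n, h m (T (g n)) = if m = n then 1 else 0) ∧
      (∀ n, ‖T (g n)‖ ≤ δ n) ∧ (∀ n, ‖(h n).comp T‖ ≤ δ n) := by
  classical
  let Good : ℕ → (ℕ → X × (X →L[ℂ] ℂ)) → Prop := fun n s =>
    (∀ i, i < n → ∀ j, j < n → (s i).2 (T (s j).1) = if i = j then 1 else 0) ∧
    (∀ i, i < n → ‖T (s i).1‖ ≤ δ i ∧ ‖((s i).2).comp T‖ ≤ δ i)
  obtain ⟨s, hs⟩ := exists_seq_of_step ((0, 0) : X × (X →L[ℂ] ℂ)) Good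
    (fun s => ⟨fun i hi => absurd hi (Nat.not_lt_zero i), fun i hi => absurd hi
      (Nat.not_lt_zero i)⟩)
    (by
      rintro n s t hst ⟨h1, h2⟩
      refine ⟨fun i hi j hj => ?_, fun i hi => ?_⟩
      · rw [← hst i hi, ← hst j hj]; exact h1 i hi j hj
      · rw [← hst i hi]; exact h2 i hi)
    (by
      rintro n s ⟨h1, h2⟩
      -- the old system
      set g : ℕ → X := fun i => (s i).1 with hg
      set h : ℕ → (X →L[ℂ] ℂ) := fun i => (s i).2 with hh
      have hgh : ∀ i, i < n → ∀ j, j < n → h i (T (g j)) = if i = j then 1 else 0 := h1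
      set B : ℝ := 1 + ∑ i ∈ Finset.range n,
        (‖h i‖ * ‖g i‖ + ‖h i‖ * ‖T (g i)‖ + ‖g i‖ * ‖(h i).comp T‖) with hB
      have hBs : 0 ≤ ∑ i ∈ Finset.range n,
        (‖h i‖ * ‖g i‖ + ‖h i‖ * ‖T (g i)‖ + ‖g i‖ * ‖(h i).comp T‖) :=
        Finset.sum_nonneg (fun i _ => by positivity)
      have hB1 : 1 ≤ B := by rw [hB]; linarith
      have hB0 : 0 < B := by linarith
      set τ : ℝ := min 1 (δ n) / (2 * B) with hτ
      have hmin : 0 < min 1 (δ n) := lt_min one_pos (hδ n)
      have hτ0 : 0 < τ := by positivity
      have hτB : τ * B = min 1 (δ n) / 2 := by rw [hτ]; field_simp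
      have hτ1 : τ ≤ 1 / 2 := by
        have : τ * 1 ≤ τ * B := by gcongr
        have h3 : min 1 (δ n) ≤ 1 := min_le_left _ _
        linarith
      obtain ⟨a, φ, ha1, ha2, ha3⟩ := exists_small_pair hinj hd hu τ hτ0
      have hsub : ∀ (F : ℕ → ℝ), (∀ i, F i ≤ ‖h i‖ * ‖g i‖ + ‖h i‖ * ‖T (g i)‖ +
          ‖g i‖ * ‖(h i).comp T‖) → 1 + ∑ i ∈ Finset.range n, F i ≤ B := by
        intro F hF
        rw [hB]
        gcongr with i _
        exact hF i
      have hφg : ∀ i, ‖φ (T (g i))‖ ≤ τ * ‖g i‖ := by
        intro i
        have := (φ.comp T).le_opNorm (g i)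
        rw [ContinuousLinearMap.comp_apply] at this
        exact this.trans (by gcongr)
      have hha : ∀ i, ‖h i (T a)‖ ≤ ‖h i‖ * τ := by
        intro i
        exact ((h i).le_opNorm (T a)).trans (by gcongr)
      set g' : X := a - ∑ i ∈ Finset.range n, (h i (T a)) • g i with hg'
      set h' : X →L[ℂ] ℂ := φ - ∑ i ∈ Finset.range n, (φ (T (g i))) • h i with hh'
      have hTg' : T g' = T a - ∑ i ∈ Finset.range n, (h i (T a)) • T (g i) := by
        rw [hg', map_sub, map_sum]
        simp only [map_smul]
      have hh'x : ∀ x, h' x = φ x - ∑ i ∈ Finset.range n, (φ (T (g i))) * h i x := by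
        intro x
        rw [hh']
        simp
      have e1 : ∀ j, j < n → h j (T g') = 0 := by
        intro j hj
        rw [hTg', map_sub, map_sum]
        simp only [map_smul, smul_eq_mul]
        rw [Finset.sum_eq_single j]
        · rw [hgh j hj j hj]; simp
        · intro i hi hij
          rw [hgh j hj i (Finset.mem_range.1 hi), if_neg (Ne.symm hij), mul_zero]
        · intro hcon
          exact absurd (Finset.mem_range.2 hj) hcon
      have e2 : ∀ j, j < n → h' (T (g j)) = 0 := by
        intro j hj
        rw [hh'x, Finset.sum_eq_single j]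
        · rw [hgh j hj j hj]; simp
        · intro i hi hij
          rw [hgh i (Finset.mem_range.1 hi) j hj, if_neg hij, mul_zero]
        · intro hcon
          exact absurd (Finset.mem_range.2 hj) hcon
      have e3 : h' (T g') = 1 - ∑ i ∈ Finset.range n, (φ (T (g i))) * h i (T a) := by
        rw [hh'x (T g')]
        have : ∑ i ∈ Finset.range n, (φ (T (g i))) * h i (T g') = 0 := by
          refine Finset.sum_eq_zero (fun i hi => ?_)
          rw [e1 i (Finset.mem_range.1 hi), mul_zero]
        rw [this, sub_zero, hTg', map_sub, map_sum, ha1]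
        simp only [map_smul, smul_eq_mul]
        congr 1
        exact Finset.sum_congr rfl (fun i _ => mul_comm _ _)
      have e4 : ‖∑ i ∈ Finset.range n, (φ (T (g i))) * h i (T a)‖ ≤ 1 / 2 := by
        calc ‖∑ i ∈ Finset.range n, (φ (T (g i))) * h i (T a)‖
            ≤ ∑ i ∈ Finset.range n, ‖(φ (T (g i))) * h i (T a)‖ := norm_sum_le _ _
          _ ≤ ∑ i ∈ Finset.range n, τ * (τ * (‖h i‖ * ‖g i‖)) := by
              refine Finset.sum_le_sum (fun i _ => ?_)
              rw [norm_mul]
              calc ‖φ (T (g i))‖ * ‖h i (T a)‖ ≤ (τ * ‖g i‖) * (‖h i‖ * τ) := by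
                    gcongr
                    · exact hφg i
                    · exact hha i
                _ = τ * (τ * (‖h i‖ * ‖g i‖)) := by ring
          _ = τ * (τ * ∑ i ∈ Finset.range n, ‖h i‖ * ‖g i‖) := by
              rw [← Finset.mul_sum, ← Finset.mul_sum]
          _ ≤ τ * (τ * B) := by
              have := hsub (fun i => ‖h i‖ * ‖g i‖) (fun i => by
                have := mul_nonneg (norm_nonneg (h i)) (norm_nonneg (T (g i)))
                have := mul_nonneg (norm_nonneg (g i)) (norm_nonneg ((h i).comp T))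
                linarith)
              gcongr
              linarith
          _ ≤ 1 / 2 := by
              rw [hτB]
              have h3 : min 1 (δ n) ≤ 1 := min_le_left _ _
              nlinarith
      set c : ℂ := h' (T g') with hc
      have hc1 : 1 / 2 ≤ ‖c‖ := by
        rw [e3]
        have := norm_sub_norm_le (1 : ℂ) (∑ i ∈ Finset.range n, (φ (T (g i))) * h i (T a))
        rw [norm_one] at this
        linarith
      have hc0 : c ≠ 0 := by
        intro h0
        rw [h0, norm_zero] at hc1
        linarith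
      have e5 : ‖T g'‖ ≤ δ n := by
        calc ‖T g'‖ ≤ ‖T a‖ + ∑ i ∈ Finset.range n, ‖(h i (T a)) • T (g i)‖ := by
              rw [hTg']
              exact (norm_sub_le _ _).trans (by gcongr; exact norm_sum_le _ _)
          _ ≤ τ + ∑ i ∈ Finset.range n, τ * (‖h i‖ * ‖T (g i)‖) := by
              gcongr with i _
              rw [norm_smul]
              calc ‖h i (T a)‖ * ‖T (g i)‖ ≤ (‖h i‖ * τ) * ‖T (g i)‖ := by
                    gcongr; exact hha i
                _ = τ * (‖h i‖ * ‖T (g i)‖) := by ring
          _ = τ * (1 + ∑ i ∈ Finset.range n, ‖h i‖ * ‖T (g i)‖) := by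
              rw [← Finset.mul_sum]; ring
          _ ≤ τ * B := by
              have := hsub (fun i => ‖h i‖ * ‖T (g i)‖) (fun i => by
                have := mul_nonneg (norm_nonneg (h i)) (norm_nonneg (g i))
                have := mul_nonneg (norm_nonneg (g i)) (norm_nonneg ((h i).comp T))
                linarith)
              gcongr
          _ ≤ δ n := by
              rw [hτB]
              have h3 : min 1 (δ n) ≤ δ n := min_le_right _ _
              linarith [hδ n]
      have e6 : ‖h'.comp T‖ ≤ δ n / 2 := by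
        have hcomp : h'.comp T = φ.comp T - ∑ i ∈ Finset.range n, (φ (T (g i))) •
            ((h i).comp T) := by
          ext x
          rw [ContinuousLinearMap.comp_apply, hh'x]
          simp
        calc ‖h'.comp T‖ ≤ ‖φ.comp T‖ + ∑ i ∈ Finset.range n,
              ‖(φ (T (g i))) • ((h i).comp T)‖ := by
              rw [hcomp]
              exact (norm_sub_le _ _).trans (by gcongr; exact norm_sum_le _ _)
          _ ≤ τ + ∑ i ∈ Finset.range n, τ * (‖g i‖ * ‖(h i).comp T‖) := by
              gcongr with i _
              rw [norm_smul]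
              calc ‖φ (T (g i))‖ * ‖(h i).comp T‖ ≤ (τ * ‖g i‖) * ‖(h i).comp T‖ := by
                    gcongr; exact hφg i
                _ = τ * (‖g i‖ * ‖(h i).comp T‖) := by ring
          _ = τ * (1 + ∑ i ∈ Finset.range n, ‖g i‖ * ‖(h i).comp T‖) := by
              rw [← Finset.mul_sum]; ring
          _ ≤ τ * B := by
              have := hsub (fun i => ‖g i‖ * ‖(h i).comp T‖) (fun i => by
                have := mul_nonneg (norm_nonneg (h i)) (norm_nonneg (g i))
                have := mul_nonneg (norm_nonneg (h i)) (norm_nonneg (T (g i)))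
                linarith)
              gcongr
          _ ≤ δ n / 2 := by
              rw [hτB]
              have h3 : min 1 (δ n) ≤ δ n := min_le_right _ _
              linarith
      refine ⟨(g', c⁻¹ • h'), ?_, ?_⟩
      · intro i hi j hj
        rcases Nat.lt_succ_iff_lt_or_eq.1 hi with hi' | hi' <;>
          rcases Nat.lt_succ_iff_lt_or_eq.1 hj with hj' | hj'
        · rw [Function.update_of_ne hi'.ne, Function.update_of_ne hj'.ne]
          exact h1 i hi' j hj'
        · rw [Function.update_of_ne hi'.ne, hj', Function.update_self, if_neg hi'.ne]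
          exact e1 i hi'
        · rw [Function.update_of_ne hj'.ne, hi', Function.update_self,
            if_neg (Ne.symm hj'.ne)]
          change (c⁻¹ • h') (T (g j)) = 0
          rw [smul_apply, e2 j hj', smul_zero]
        · rw [hi', hj', Function.update_self, if_pos rfl]
          change (c⁻¹ • h') (T g') = 1
          rw [smul_apply, ← hc, smul_eq_mul, inv_mul_cancel₀ hc0]
      · intro i hi
        rcases Nat.lt_succ_iff_lt_or_eq.1 hi with hi' | hi'
        · rw [Function.update_of_ne hi'.ne]
          exact h2 i hi'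
        · rw [hi', Function.update_self]
          refine ⟨e5, ?_⟩
          change ‖(c⁻¹ • h').comp T‖ ≤ δ n
          have : (c⁻¹ • h').comp T = c⁻¹ • (h'.comp T) := by ext x; simp
          rw [this, norm_smul, norm_inv, inv_mul_le_iff₀ (by linarith)]
          nlinarith [hδ n])
  refine ⟨fun n => (s n).1, fun n => (s n).2, ?_, ?_, ?_⟩
  · intro m n
    exact (hs (max m n + 1)).1 m (by omega) n (by omega)
  · intro n
    exact ((hs (n + 1)).2 n (by omega)).1
  · intro n
    exact ((hs (n + 1)).2 n (by omega)).2

end biorth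

end Pool.Agent.H272.IS
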