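import Pool.Agent.H272.IS.Main

/-!
# The normal form for a given operator without invariant subspaces
-/

set_option autoImplicit false

namespace Pool.Agent.H272.IS

open Filter Topology

section final

variable {X : Type*} [NormedAddCommGroup X] [NormedSpace ℂ X] [CompleteSpace X]

theorem exists_sub_not_isUnit (hX : ¬ FiniteDimensional ℂ X) (T : X →L[ℂ] X) :
    ∃ c : ℂ, ¬ IsUnit (T - c • (1 : X →L[ℂ] X)) := by
  have hne : Nontrivial X := by
    by_contra hcon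
    rw [not_nontrivial_iff_subsingleton] at hcon
    exact hX inferInstance
  obtain ⟨c, hc⟩ := spectrum.nonempty T
  refine ⟨c, fun hu => ?_⟩
  rw [spectrum.mem_iff] at hc
  apply hc
  have h1 : algebraMap ℂ (X →L[ℂ] X) c - T = -(T - c • (1 : X →L[ℂ] X)) := by
    rw [Algebra.algebraMap_eq_smul_one]; abel
  rw [h1]
  exact hu.neg

/-- the factorisation of an injective operator with dense range which is not invertible through
the spaces `(X ⧸ M) × Z` -/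
theorem main_factor {T₀ : X →L[ℂ] X} (hinj : Function.Injective T₀) (hd : DenseRange T₀)
    (hc : ¬ IsUnit T₀) (a : ℕ → ℝ) (ha : ∀ n, 0 < a n) :
    ∃ (M : Submodule ℂ X) (_ : IsClosed (M : Set X)), ¬ FiniteDimensional ℂ (X ⧸ M) ∧
      ∃ R : (X ⧸ M) →L[ℂ] (X ⧸ M), ∀ (Z : Type*) [NormedAddCommGroup Z] [NormedSpace ℂ Z]
        [CompleteSpace Z] [TopologicalSpace.SeparableSpace Z], ¬ FiniteDimensional ℂ Z →
        ∃ (A : ((X ⧸ M) × Z) →L[ℂ] X) (B : X →L[ℂ] ((X ⧸ M) × Z)), A ∘L B = T₀ ∧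
          Function.Injective A ∧ DenseRange B ∧
          Rapid a (B ∘L A - R.prodMap (0 : Z →L[ℂ] Z)) := by
  classical
  set Nm : ℝ := ‖T₀‖ + 2 with hNm
  have hNm0 : 0 < Nm := by positivity
  set δ : ℕ → ℝ := fun n => min (a (2 * n) / (2 * 3 ^ n))
    (min (a (2 * n + 1) / Nm) ((1 / 2) ^ (n + 1) / (2 * 3 ^ n))) with hδ
  have h3 : ∀ n : ℕ, (0 : ℝ) < 2 * 3 ^ n := fun n => by positivity
  have hδ0 : ∀ n, 0 < δ n := fun n =>
    lt_min (div_pos (ha _) (h3 n)) (lt_min (div_pos (ha _) hNm0) (div_pos (by positivity) (h3 n)))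
  have hδ1 : ∀ n, 2 * 3 ^ n * δ n ≤ a (2 * n) := by
    intro n
    have h4 : δ n ≤ a (2 * n) / (2 * 3 ^ n) := min_le_left _ _
    rw [le_div_iff₀ (h3 n)] at h4
    linarith
  have hδ2 : ∀ n, δ n * Nm ≤ a (2 * n + 1) := by
    intro n
    have h4 : δ n ≤ a (2 * n + 1) / Nm := (min_le_right _ _).trans (min_le_left _ _)
    rwa [le_div_iff₀ hNm0] at h4
  have hδ3 : ∀ n, 2 * 3 ^ n * δ n ≤ (1 / 2) ^ (n + 1) := by
    intro n
    have h4 : δ n ≤ (1 / 2) ^ (n + 1) / (2 * 3 ^ n) := (min_le_right _ _).trans (min_le_right _ _)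
    rw [le_div_iff₀ (h3 n)] at h4
    linarith
  have hδ4 : ∀ n, δ n ≤ (1 / 2) ^ (n + 1) := by
    intro n
    refine le_trans ?_ (hδ3 n)
    have h3 : (1 : ℝ) ≤ 3 ^ n := one_le_pow₀ (by norm_num)
    nlinarith [hδ0 n]
  obtain ⟨g, h, hgh, hg, hh⟩ := exists_biorth hinj hd hc (fun n => δ (n / 2))
    (fun n => hδ0 (n / 2))
  have hpow : HasSum (fun n : ℕ => (1 / 2 : ℝ) ^ (n + 1)) 1 := by
    have h1 := hasSum_geometric_two.mul_left (1 / 2 : ℝ)
    have h2 : (1 / 2 : ℝ) * 2 = 1 := by norm_num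
    rw [h2] at h1
    refine h1.congr_fun ?_ |> fun h => h
    intro n
    rw [pow_succ]; ring
  -- the subsequence of even indices
  have hgh' : ∀ m n, h (2 * m) (T₀ (g (2 * n))) = if m = n then 1 else 0 := by
    intro m n
    rw [hgh]
    by_cases hmn : m = n
    · rw [if_pos hmn, if_pos (by omega)]
    · rw [if_neg hmn, if_neg (by omega)]
  have hg' : ∀ n, ‖T₀ (g (2 * n))‖ ≤ δ n := by
    intro n
    have := hg (2 * n)
    rwa [show 2 * n / 2 = n by omega] at this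
  have hh' : ∀ n, ‖(h (2 * n)).comp T₀‖ ≤ δ n := by
    intro n
    have := hh (2 * n)
    rwa [show 2 * n / 2 = n by omega] at this
  have hNb : ∀ n, ‖(h (2 * n)).comp T₀‖ * ‖T₀ (g (2 * n))‖ ≤ (1 / 2) ^ (n + 1) := by
    intro n
    have h5 : (1 / 2 : ℝ) ^ (n + 1) ≤ 1 := pow_le_one₀ (by norm_num) (by norm_num)
    calc ‖(h (2 * n)).comp T₀‖ * ‖T₀ (g (2 * n))‖ ≤ δ n * δ n :=
          mul_le_mul (hh' n) (hg' n) (norm_nonneg _) (hδ0 n).le
      _ ≤ δ n * 1 := by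
          have := hδ0 n
          have := hδ4 n
          gcongr
          linarith
      _ ≤ (1 / 2) ^ (n + 1) := by rw [mul_one]; exact hδ4 n
  have hNs : Summable fun n => ‖(h (2 * n)).comp T₀‖ * ‖T₀ (g (2 * n))‖ :=
    Summable.of_nonneg_of_le (fun n => by positivity) hNb hpow.summable
  set N₀ : X →L[ℂ] X := nuc (fun n => (h (2 * n)).comp T₀) (fun n => T₀ (g (2 * n))) with hN₀
  have hN₀s : ∀ x, HasSum (fun n => h (2 * n) (T₀ x) • T₀ (g (2 * n))) (N₀ x) :=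
    fun x => nuc_hasSum hNs x
  have hN₀n : ‖N₀‖ ≤ 1 := norm_nuc_le hpow hNb
  set T' : X →L[ℂ] X := T₀ - N₀ with hT'
  set M : Submodule ℂ X := LinearMap.ker (T' : X →ₗ[ℂ] X) with hM
  have hMc : IsClosed (M : Set X) := T'.isClosed_ker
  have hmem : ∀ x, x ∈ M ↔ T' x = 0 := fun x => Iff.rfl
  set π : X →L[ℂ] (X ⧸ M) := M.mkQL with hπ
  have hπs : Function.Surjective π := Submodule.Quotient.mk_surjective M
  have hπ0 : ∀ x, π x = 0 ↔ x ∈ M := fun x => Submodule.Quotient.mk_eq_zero M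
  have hπn : ‖π‖ ≤ 1 := by
    refine ContinuousLinearMap.opNorm_le_bound _ zero_le_one (fun x => ?_)
    rw [one_mul]
    exact Submodule.Quotient.norm_mk_le M x
  set A₁ : (X ⧸ M) →L[ℂ] X := M.liftQL T' le_rfl with hA₁
  have hA₁π : ∀ x, A₁ (π x) = T' x := fun x => rfl
  have hA₁inj : Function.Injective A₁ := by
    rw [injective_iff_map_eq_zero]
    intro w hw
    obtain ⟨x, rfl⟩ := hπs w
    rw [hA₁π] at hw
    exact (hπ0 x).2 hw
  have hA₁n : ‖A₁‖ ≤ ‖T₀‖ + 1 := by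
    refine ContinuousLinearMap.opNorm_le_bound _ (by positivity) (fun w => ?_)
    refine le_of_forall_pos_le_add (fun ε hε => ?_)
    obtain ⟨x, hx1, hx2⟩ := Submodule.Quotient.norm_mk_lt w
      (show 0 < ε / (‖T₀‖ + 1) by positivity)
    have hx3 : w = π x := hx1.symm
    calc ‖A₁ w‖ = ‖T' x‖ := by rw [hx3, hA₁π]
      _ ≤ ‖T'‖ * ‖x‖ := T'.le_opNorm x
      _ ≤ (‖T₀‖ + 1) * (‖w‖ + ε / (‖T₀‖ + 1)) := by
          gcongr
          calc ‖T'‖ ≤ ‖T₀‖ + ‖N₀‖ := norm_sub_le _ _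
            _ ≤ ‖T₀‖ + 1 := by gcongr
      _ = (‖T₀‖ + 1) * ‖w‖ + ε := by field_simp
  have hA : ∀ x, HasSum (fun n => h (2 * n) (T₀ x) • T₀ (g (2 * n))) (T₀ x - A₁ (π x)) := by
    intro x
    have h5 : T₀ x - A₁ (π x) = N₀ x := by
      rw [hA₁π, hT']
      simp
    rw [h5]
    exact hN₀s x
  -- the quotient is infinite-dimensional
  have hgodd : ∀ n, T' (g (2 * n + 1)) = T₀ (g (2 * n + 1)) := by
    intro n
    have h5 : N₀ (g (2 * n + 1)) = 0 := by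
      have h6 : HasSum (fun m => h (2 * m) (T₀ (g (2 * n + 1))) • T₀ (g (2 * m))) 0 := by
        have h7 : (fun m => h (2 * m) (T₀ (g (2 * n + 1))) • T₀ (g (2 * m))) = fun _ => 0 := by
          funext m
          rw [hgh, if_neg (by omega), zero_smul]
        rw [h7]; exact hasSum_zero
      exact (hN₀s _).unique h6
    rw [hT']
    simp [h5]
  have hli : LinearIndependent ℂ (fun n : ℕ => π (g (2 * n + 1))) := by
    rw [linearIndependent_iff']
    intro s b hb i hi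
    have h5 : π (∑ j ∈ s, b j • g (2 * j + 1)) = 0 := by
      rw [map_sum]
      simpa only [map_smul] using hb
    have h6 : T' (∑ j ∈ s, b j • g (2 * j + 1)) = 0 := (hπ0 _).1 h5
    rw [map_sum] at h6
    simp only [map_smul, hgodd] at h6
    have h7 := congrArg (h (2 * i + 1)) h6
    rw [map_sum, map_zero] at h7
    simp only [map_smul, smul_eq_mul, hgh] at h7
    rw [Finset.sum_eq_single i] at h7
    · simpa using h7
    · intro j _ hji
      rw [if_neg (by omega), mul_zero]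
    · intro hcon
      exact absurd hi hcon
  refine ⟨M, hMc, ?_, π ∘L A₁, ?_⟩
  · intro hfd
    have := hli.finite_of_isNoetherian
    exact not_finite ℕ
  · intro Z _ _ _ _ hZ
    obtain ⟨z, z', e1, e2, e3, e4, e5⟩ := exists_mbasis hZ
    exact abstract_factor π hπs hπn A₁ hA₁inj Nm (by rw [hNm]; linarith) a δ hδ1 hδ2 hδ3
      hδ0 (fun n => g (2 * n)) (fun n => h (2 * n)) hgh' hg' hh' hA z z' e1 e2 e3 e4 e5

theorem main {T : X →L[ℂ] X} (hX : ¬ FiniteDimensional ℂ X) (hT : NoInv T) (a : ℕ → ℝ)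
    (ha : ∀ n, 0 < a n) :
    ∃ (M : Submodule ℂ X) (_ : IsClosed (M : Set X)), ¬ FiniteDimensional ℂ (X ⧸ M) ∧
      ∃ R : (X ⧸ M) →L[ℂ] (X ⧸ M), ∀ (Z : Type*) [NormedAddCommGroup Z] [NormedSpace ℂ Z]
        [CompleteSpace Z] [TopologicalSpace.SeparableSpace Z], ¬ FiniteDimensional ℂ Z →
        ∃ K : ((X ⧸ M) × Z) →L[ℂ] ((X ⧸ M) × Z), Rapid a K ∧
          NoInv (R.prodMap (0 : Z →L[ℂ] Z) + K) := by
  obtain ⟨c, hc⟩ := exists_sub_not_isUnit hX T
  have hN : NoInv (T - c • (1 : X →L[ℂ] X)) := hT.sub_smul_one c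
  obtain ⟨M, hM, hfd, R, hR⟩ := main_factor (hN.injective hX) (hN.denseRange hX) hc a ha
  refine ⟨M, hM, hfd, R, ?_⟩
  intro Z _ _ _ _ hZ
  obtain ⟨A, B, hAB, hAinj, hBd, hK⟩ := hR Z hZ
  refine ⟨_, hK, ?_⟩
  rw [add_sub_cancel]
  exact NoInv.swap hAinj hBd (by rw [hAB]; exact hN)

end final

section refl

variable {X : Type*} [NormedAddCommGroup X] [NormedSpace ℂ X] [CompleteSpace X]
variable {W : Type*} [NormedAddCommGroup W] [NormedSpace ℂ W] [CompleteSpace W]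

/-- Hahn-Banach along an operator which is bounded below -/
theorem exists_extension_of_bound {D E : Type*} [NormedAddCommGroup D] [NormedSpace ℂ D]
    [NormedAddCommGroup E] [NormedSpace ℂ E] (ι : D →L[ℂ] E) (C : ℝ)
    (hbd : ∀ f, ‖f‖ ≤ C * ‖ι f‖) (Φ : D →L[ℂ] ℂ) : ∃ Ψ : E →L[ℂ] ℂ, ∀ f, Ψ (ι f) = Φ f := by
  have hιinj : Function.Injective ι := by
    rw [injective_iff_map_eq_zero]
    intro f hf
    have := hbd f
    rw [hf, norm_zero, mul_zero] at this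
    exact norm_le_zero_iff.1 this
  let p : Submodule ℂ E := LinearMap.range (ι : D →ₗ[ℂ] E)
  let e : D ≃ₗ[ℂ] p := LinearEquiv.ofInjective (ι : D →ₗ[ℂ] E) hιinj
  let L : p →ₗ[ℂ] ℂ := (Φ : D →ₗ[ℂ] ℂ) ∘ₗ (e.symm : p →ₗ[ℂ] D)
  have hL : ∀ u : p, ‖L u‖ ≤ ‖Φ‖ * C * ‖u‖ := by
    intro u
    obtain ⟨f, rfl⟩ := e.surjective u
    change ‖Φ (e.symm (e f))‖ ≤ ‖Φ‖ * C * ‖e f‖
    rw [LinearEquiv.symm_apply_apply]
    calc ‖Φ f‖ ≤ ‖Φ‖ * ‖f‖ := Φ.le_opNorm f
      _ ≤ ‖Φ‖ * (C * ‖ι f‖) := by gcongr; exact hbd f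
      _ = ‖Φ‖ * C * ‖e f‖ := by rw [mul_assoc]; rfl
  let φ : p →L[ℂ] ℂ := L.mkContinuous (‖Φ‖ * C) hL
  obtain ⟨Ψ, hΨ, -⟩ := exists_extension_norm_eq p φ
  refine ⟨Ψ, fun f => ?_⟩
  have h2 := hΨ (e f)
  have h3 : φ (e f) = Φ f := by
    change Φ (e.symm (e f)) = Φ f
    rw [LinearEquiv.symm_apply_apply]
  rw [h3] at h2
  exact h2

/-- a quotient of a reflexive space is reflexive -/
theorem refl_of_surjective (q : X →L[ℂ] W) (hq : Function.Surjective q)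
    (hX : Function.Surjective (NormedSpace.inclusionInDoubleDual ℂ X)) :
    Function.Surjective (NormedSpace.inclusionInDoubleDual ℂ W) := by
  intro Φ
  -- the adjoint of `q`
  let ι : (W →L[ℂ] ℂ) →L[ℂ] (X →L[ℂ] ℂ) := ContinuousLinearMap.precomp ℂ q
  have hι : ∀ f x, ι f x = f (q x) := fun f x => rfl
  obtain ⟨C, hC0, hC⟩ := q.exists_preimage_norm_le hq
  have hbd : ∀ f, ‖f‖ ≤ C * ‖ι f‖ := by
    intro f
    refine ContinuousLinearMap.opNorm_le_bound _ (by positivity) (fun w => ?_)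
    obtain ⟨x, rfl, hx⟩ := hC w
    calc ‖f (q x)‖ = ‖ι f x‖ := rfl
      _ ≤ ‖ι f‖ * ‖x‖ := (ι f).le_opNorm x
      _ ≤ ‖ι f‖ * (C * ‖q x‖) := by gcongr
      _ = C * ‖ι f‖ * ‖q x‖ := by ring
  obtain ⟨Ψ, hΨ⟩ := exists_extension_of_bound ι C hbd Φ
  obtain ⟨x, hx⟩ := hX Ψ
  refine ⟨q x, ?_⟩
  ext f
  rw [NormedSpace.dual_def]
  have h1 : Ψ (ι f) = Φ f := hΨ f
  rw [← h1, ← hx, NormedSpace.dual_def]
  rfl

omit [CompleteSpace X] [CompleteSpace W] in
/-- a product of reflexive spaces is reflexive -/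
theorem refl_prod (hX : Function.Surjective (NormedSpace.inclusionInDoubleDual ℂ X))
    (hW : Function.Surjective (NormedSpace.inclusionInDoubleDual ℂ W)) :
    Function.Surjective (NormedSpace.inclusionInDoubleDual ℂ (X × W)) := by
  intro Φ
  obtain ⟨x, hx⟩ := hX (Φ.comp (ContinuousLinearMap.precomp ℂ (ContinuousLinearMap.fst ℂ X W)))
  obtain ⟨w, hw⟩ := hW (Φ.comp (ContinuousLinearMap.precomp ℂ (ContinuousLinearMap.snd ℂ X W)))
  refine ⟨(x, w), ?_⟩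
  ext f
  rw [NormedSpace.dual_def]
  have h1 := congrArg (fun Ψ : StrongDual ℂ (StrongDual ℂ X) => Ψ (f.comp
    (ContinuousLinearMap.inl ℂ X W))) hx
  have h2 := congrArg (fun Ψ : StrongDual ℂ (StrongDual ℂ W) => Ψ (f.comp
    (ContinuousLinearMap.inr ℂ X W))) hw
  simp only [NormedSpace.dual_def, ContinuousLinearMap.comp_apply] at h1 h2
  have h3 : f = ContinuousLinearMap.precomp ℂ (ContinuousLinearMap.fst ℂ X W)
      (f.comp (ContinuousLinearMap.inl ℂ X W)) +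
      ContinuousLinearMap.precomp ℂ (ContinuousLinearMap.snd ℂ X W)
      (f.comp (ContinuousLinearMap.inr ℂ X W)) := by
    refine ContinuousLinearMap.ext (fun p => ?_)
    change f p = f (p.1, 0) + f (0, p.2)
    rw [← map_add]
    simp
  conv_rhs => rw [h3]
  rw [map_add, ← h1, ← h2]
  change f (x, w) = f (x, 0) + f (0, w)
  rw [← map_add]
  simp

end refl

end Pool.Agent.H272.IS
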