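import Pool.Agent.H272.IS.LpInst

/-!
# The Hilbert space case
-/

set_option autoImplicit false

namespace Pool.Agent.H272.IS

open Filter Topology
open scoped ENNReal InnerProductSpace

/-- the sequence space `ℓ²` -/
abbrev L2 : Type := lp (fun _ : ℕ => ℂ) 2

section iso

variable {W : Type*} [NormedAddCommGroup W] [InnerProductSpace ℂ W] [CompleteSpace W]

theorem orthonormal_countable [TopologicalSpace.SeparableSpace W] {w : Set W}
    (hw : Orthonormal ℂ ((↑) : w → W)) : w.Countable := by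
  have h1 : w.PairwiseDisjoint (fun x => Metric.ball x (1 / 2)) := by
    intro x hx y hy hxy
    apply Metric.ball_disjoint_ball
    have h2 : ‖x - y‖ ^ 2 = 2 := by
      have h3 : inner ℂ x y = 0 := hw.2 (i := ⟨x, hx⟩) (j := ⟨y, hy⟩) (by
        intro h; exact hxy (congrArg Subtype.val h))
      have h4 : ‖x‖ = 1 := hw.1 ⟨x, hx⟩
      have h5 : ‖y‖ = 1 := hw.1 ⟨y, hy⟩
      rw [@norm_sub_sq ℂ, h3, h4, h5]
      norm_num
    rw [dist_eq_norm]
    by_contra hcon
    push Not at hcon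
    have h6 : ‖x - y‖ < 1 := by linarith
    have h7 : ‖x - y‖ ^ 2 < 1 := by
      have := norm_nonneg (x - y)
      nlinarith
    linarith
  refine h1.countable_of_isOpen (fun x _ => Metric.isOpen_ball) (fun x _ => ⟨x, ?_⟩)
  simp

/-- a separable infinite-dimensional Hilbert space is isometric to `ℓ²` -/
theorem nonempty_iso [TopologicalSpace.SeparableSpace W] (hW : ¬ FiniteDimensional ℂ W) :
    Nonempty (W ≃ₗᵢ[ℂ] L2) := by
  obtain ⟨w, b, hb⟩ := exists_hilbertBasis ℂ W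
  have how : Orthonormal ℂ ((↑) : w → W) := by rw [← hb]; exact b.orthonormal
  have hc : w.Countable := orthonormal_countable how
  have hinf : w.Infinite := by
    intro hfin
    apply hW
    have := hfin.to_subtype
    have h1 := b.dense_span
    have h2 : FiniteDimensional ℂ (Submodule.span ℂ (Set.range b)) :=
      FiniteDimensional.span_of_finite ℂ (Set.finite_range _)
    have h3 : (Submodule.span ℂ (Set.range b)).topologicalClosure =
        Submodule.span ℂ (Set.range b) :=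
      IsClosed.submodule_topologicalClosure_eq (Submodule.closed_of_finiteDimensional _)
    rw [h3] at h1
    rw [h1] at h2
    exact (LinearEquiv.finiteDimensional (Submodule.topEquiv : (⊤ : Submodule ℂ W) ≃ₗ[ℂ] W))
  have : Countable w := hc.to_subtype
  have : Infinite w := hinf.to_subtype
  obtain ⟨e⟩ := nonempty_equiv_of_countable (α := ℕ) (β := w)
  have ho : Orthonormal ℂ (fun n => b (e n)) := b.orthonormal.comp e e.injective
  have hsp : ⊤ ≤ (Submodule.span ℂ (Set.range fun n => b (e n))).topologicalClosure := by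
    have h1 : (Set.range fun n => b (e n)) = Set.range b := by
      exact e.surjective.range_comp b
    rw [h1, b.dense_span]
  exact ⟨(HilbertBasis.mk ho hsp).repr⟩

end iso

theorem L2_not_fd : ¬ FiniteDimensional ℂ L2 := by
  intro hfd
  have hli : LinearIndependent ℂ (fun n : ℕ => (lp.single 2 n (1 : ℂ) : L2)) := by
    rw [linearIndependent_iff']
    intro s b hb j hj
    have h1 := congrArg (fun x : L2 => x j) hb
    simp only [lp.coeFn_sum, Finset.sum_apply, lp.coeFn_smul, Pi.smul_apply, lp.single_apply,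
      smul_eq_mul, lp.coeFn_zero, Pi.zero_apply] at h1
    rw [Finset.sum_eq_single j] at h1
    · simpa using h1
    · intro l _ hlj
      rw [Pi.single_eq_of_ne (Ne.symm hlj), mul_zero]
    · intro hcon
      exact absurd hj hcon
  have := hli.finite_of_isNoetherian
  exact not_finite ℕ

instance separable_L2 : TopologicalSpace.SeparableSpace L2 := by
  rw [← TopologicalSpace.isSeparable_univ_iff]
  have h1 : TopologicalSpace.IsSeparable
      (Submodule.span ℂ (Set.range fun n : ℕ => (lp.single 2 n (1 : ℂ) : L2)) : Set L2) :=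
    (Set.countable_range _).isSeparable.span (R := ℂ)
  refine h1.closure.mono (fun x _ => ?_)
  have h2 := (lp.hasSum_single (by norm_num) x).tendsto_sum_nat
  refine mem_closure_of_tendsto h2 (Eventually.of_forall (fun n => ?_))
  refine Submodule.sum_mem _ (fun i _ => ?_)
  have h3 : (lp.single 2 i (x i) : L2) = x i • (lp.single 2 i (1 : ℂ) : L2) := by
    rw [← lp.single_smul, smul_eq_mul, mul_one]
  rw [h3]
  exact Submodule.smul_mem _ _ (Submodule.subset_span ⟨i, rfl⟩)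

/-- conjugation by an isomorphism -/
theorem NoInv.conj {X Y : Type*} [NormedAddCommGroup X] [NormedSpace ℂ X]
    [NormedAddCommGroup Y] [NormedSpace ℂ Y] {T : X →L[ℂ] X} (hT : NoInv T)
    (A : Y →L[ℂ] X) (B : X →L[ℂ] Y) (hAB : ∀ x, A (B x) = x) (hBA : ∀ y, B (A y) = y) :
    NoInv (B ∘L (T ∘L A)) := by
  intro V hV hinv
  have hpre : IsClosed ((V.comap (B : X →ₗ[ℂ] Y) : Submodule ℂ X) : Set X) :=
    hV.preimage B.continuous
  rcases hT (V.comap (B : X →ₗ[ℂ] Y)) hpre (by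
    intro x hx
    have hx' : B x ∈ V := hx
    have h1 := hinv _ hx'
    change B (T (A (B x))) ∈ V at h1
    rw [hAB] at h1
    exact h1) with h1 | h1
  · left
    rw [eq_bot_iff]
    intro y hy
    have h2 : A y ∈ V.comap (B : X →ₗ[ℂ] Y) := by
      change B (A y) ∈ V
      rw [hBA]; exact hy
    rw [h1, Submodule.mem_bot] at h2
    rw [Submodule.mem_bot, ← hBA y, h2, map_zero]
  · right
    rw [eq_top_iff]
    intro y _
    have h2 : A y ∈ V.comap (B : X →ₗ[ℂ] Y) := by rw [h1]; trivial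
    change B (A y) ∈ V at h2
    rwa [hBA] at h2

/-- conjugation of `Rapid` operators by a contraction with contractive inverse -/
theorem Rapid.conj {X Y : Type*} [NormedAddCommGroup X] [NormedSpace ℂ X]
    [NormedAddCommGroup Y] [NormedSpace ℂ Y] {a : ℕ → ℝ} {K : X →L[ℂ] X} (hK : Rapid a K)
    (A : Y →L[ℂ] X) (B : X →L[ℂ] Y) (hA : ‖A‖ ≤ 1) (hB : ‖B‖ ≤ 1) :
    Rapid a (B ∘L (K ∘L A)) := by
  obtain ⟨f, y, h1, h2⟩ := hK
  refine ⟨fun n => (f n).comp A, fun n => B (y n), fun n => ?_, fun x => ?_⟩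
  · calc ‖(f n).comp A‖ * ‖B (y n)‖ ≤ ‖f n‖ * ‖y n‖ := by
          gcongr
          · calc ‖(f n).comp A‖ ≤ ‖f n‖ * ‖A‖ := (f n).opNorm_comp_le A
              _ ≤ ‖f n‖ * 1 := by gcongr
              _ = ‖f n‖ := mul_one _
          · calc ‖B (y n)‖ ≤ ‖B‖ * ‖y n‖ := B.le_opNorm _
              _ ≤ 1 * ‖y n‖ := by gcongr
              _ = ‖y n‖ := one_mul _
      _ ≤ a n := h1 n
  · have h3 := (h2 (A x)).mapL B
    simp only [map_smul] at h3
    exact h3

/-- the quotient of a Hilbert space is isometric to the orthogonal complement -/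
theorem exists_quotient_iso {H : Type*} [NormedAddCommGroup H] [InnerProductSpace ℂ H]
    [CompleteSpace H] [TopologicalSpace.SeparableSpace H] (M : Submodule ℂ H)
    [hM : IsClosed (M : Set H)] (hfd : ¬ FiniteDimensional ℂ (H ⧸ M)) :
    ∃ (A : L2 →L[ℂ] (H ⧸ M)) (B : (H ⧸ M) →L[ℂ] L2), ‖A‖ ≤ 1 ∧ ‖B‖ ≤ 1 ∧
      (∀ x, A (B x) = x) ∧ (∀ y, B (A y) = y) := by
  have : CompleteSpace M := hM.completeSpace_coe
  have hperp : ∀ x : H, x - Mᗮ.starProjection x ∈ M := by
    intro x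
    have h1 := Submodule.sub_starProjection_mem_orthogonal (K := Mᗮ) x
    rwa [Submodule.orthogonal_orthogonal] at h1
  let P : H →L[ℂ] Mᗮ := Mᗮ.orthogonalProjection
  have hPP : ∀ x : H, ((P x : Mᗮ) : H) = Mᗮ.starProjection x := fun x => rfl
  have hPM : ∀ x ∈ M, P x = 0 := by
    intro x hx
    apply Submodule.orthogonalProjection_orthogonal_apply_eq_zero hx
  let B₀ : (H ⧸ M) →L[ℂ] Mᗮ := M.liftQL P (fun x hx => hPM x hx)
  have hB₀ : ∀ x, B₀ (M.mkQL x) = P x := fun x => rfl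
  let A₀ : Mᗮ →L[ℂ] (H ⧸ M) := M.mkQL ∘L Mᗮ.subtypeL
  have hA₀ : ∀ w : Mᗮ, A₀ w = M.mkQL (w : H) := fun w => rfl
  have hA₀n : ∀ w, ‖A₀ w‖ ≤ ‖w‖ := fun w => Submodule.Quotient.norm_mk_le M _
  have hPn : ∀ x, ‖P x‖ ≤ ‖x‖ := fun x => by
    calc ‖P x‖ ≤ ‖P‖ * ‖x‖ := P.le_opNorm x
      _ ≤ 1 * ‖x‖ := by gcongr; exact Submodule.orthogonalProjection_norm_le _
      _ = ‖x‖ := one_mul _
  have hB₀n : ∀ x, ‖B₀ x‖ ≤ ‖x‖ := by
    intro w
    refine le_of_forall_pos_le_add (fun ε hε => ?_)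
    obtain ⟨x, hx1, hx2⟩ := Submodule.Quotient.norm_mk_lt w hε
    have hx3 : w = M.mkQL x := hx1.symm
    rw [hx3, hB₀, ← hx3]
    exact (hPn x).trans hx2.le
  have hAB₀ : ∀ x, A₀ (B₀ x) = x := by
    intro w
    obtain ⟨x, rfl⟩ := Submodule.Quotient.mk_surjective M w
    change A₀ (B₀ (M.mkQL x)) = M.mkQL x
    rw [hB₀, hA₀, hPP]
    have h1 : M.mkQL (x - Mᗮ.starProjection x) = 0 :=
      (Submodule.Quotient.mk_eq_zero M).2 (hperp x)
    rw [map_sub, sub_eq_zero] at h1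
    exact h1.symm
  have hBA₀ : ∀ w, B₀ (A₀ w) = w := by
    intro w
    rw [hA₀, hB₀]
    exact Submodule.orthogonalProjection_mem_subspace_eq_self w
  have hW : ¬ FiniteDimensional ℂ Mᗮ := by
    intro h
    apply hfd
    have hs : Function.Surjective (A₀ : Mᗮ →ₗ[ℂ] (H ⧸ M)) := fun x => ⟨B₀ x, hAB₀ x⟩
    exact FiniteDimensional.of_surjective _ hs
  have : SecondCountableTopology H := UniformSpace.secondCountable_of_separable H
  obtain ⟨e⟩ := nonempty_iso hW
  refine ⟨A₀ ∘L (e.symm : L2 →L[ℂ] Mᗮ), (e : Mᗮ →L[ℂ] L2) ∘L B₀, ?_, ?_, ?_, ?_⟩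
  · refine ContinuousLinearMap.opNorm_le_bound _ zero_le_one (fun x => ?_)
    rw [one_mul]
    calc ‖A₀ (e.symm x)‖ ≤ ‖e.symm x‖ := hA₀n _
      _ = ‖x‖ := e.symm.norm_map x
  · refine ContinuousLinearMap.opNorm_le_bound _ zero_le_one (fun x => ?_)
    rw [one_mul]
    calc ‖e (B₀ x)‖ = ‖B₀ x‖ := e.norm_map _
      _ ≤ ‖x‖ := hB₀n x
  · intro x
    change A₀ (e.symm (e (B₀ x))) = x
    rw [LinearIsometryEquiv.symm_apply_apply, hAB₀]
  · intro y
    change e (B₀ (A₀ (e.symm y))) = y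
    rw [hBA₀, LinearIsometryEquiv.apply_symm_apply]

/-- `ℓ² ⊕ ℓ²` is isomorphic to `ℓ²` -/
theorem exists_square_iso : ∃ (A : L2 →L[ℂ] (L2 × L2)) (B : (L2 × L2) →L[ℂ] L2),
    (∀ x, A (B x) = x) ∧ (∀ y, B (A y) = y) := by
  let e₁ : WithLp 2 (L2 × L2) ≃L[ℂ] L2 × L2 := WithLp.prodContinuousLinearEquiv 2 ℂ L2 L2
  have hfd : ¬ FiniteDimensional ℂ (WithLp 2 (L2 × L2)) := by
    intro hf
    have : FiniteDimensional ℂ (L2 × L2) := e₁.toLinearEquiv.finiteDimensional
    exact L2_not_fd (FiniteDimensional.of_surjective (LinearMap.fst ℂ L2 L2)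
      LinearMap.fst_surjective)
  have hsep : TopologicalSpace.SeparableSpace (WithLp 2 (L2 × L2)) :=
    e₁.symm.surjective.denseRange.separableSpace e₁.symm.continuous
  obtain ⟨e₂⟩ := nonempty_iso hfd
  let A : L2 →L[ℂ] (L2 × L2) := (e₁ : WithLp 2 (L2 × L2) →L[ℂ] L2 × L2) ∘L
    (e₂.symm.toContinuousLinearEquiv : L2 →L[ℂ] WithLp 2 (L2 × L2))
  let B : (L2 × L2) →L[ℂ] L2 := (e₂.toContinuousLinearEquiv : WithLp 2 (L2 × L2) →L[ℂ] L2) ∘L
    (e₁.symm : L2 × L2 →L[ℂ] WithLp 2 (L2 × L2))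
  refine ⟨A, B, ?_, ?_⟩
  · intro x
    change e₁ (e₂.symm (e₂ (e₁.symm x))) = x
    rw [LinearIsometryEquiv.symm_apply_apply, ContinuousLinearEquiv.apply_symm_apply]
  · intro y
    change e₂ (e₁.symm (e₁ (e₂.symm y))) = y
    rw [ContinuousLinearEquiv.symm_apply_apply, LinearIsometryEquiv.apply_symm_apply]

/-- `CUS` passes to spaces which embed isomorphically -/
theorem CUS.of_embedding {X Y : Type*} [NormedAddCommGroup X] [NormedSpace ℂ X] [CompleteSpace X]
    [NormedAddCommGroup Y] [NormedSpace ℂ Y] [CompleteSpace Y] (hY : CUS Y) (j : X →L[ℂ] Y) (c : ℝ) (hc : 0 < c)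
    (hj : ∀ x, c * ‖x‖ ≤ ‖j x‖) : CUS X := by
  intro x hx1 hxw
  have hjx : ∀ n, c ≤ ‖j (x n)‖ := by
    intro n
    have h1 := hj (x n)
    rwa [hx1, mul_one] at h1
  have hj0 : ∀ n, ‖j (x n)‖ ≠ 0 := fun n => by have := hjx n; linarith
  have hjc : ∀ n, (‖j (x n)‖ : ℂ) ≠ 0 := fun n => by exact_mod_cast hj0 n
  obtain ⟨k, φ, hk, hφ1, hφs⟩ := hY (fun n => (‖j (x n)‖ : ℂ)⁻¹ • j (x n))
    (fun n => by
      rw [norm_smul, norm_inv, Complex.norm_real, norm_norm, inv_mul_cancel₀ (hj0 n)])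
    (fun f => by
      have h1 : Tendsto (fun n => f (j (x n))) atTop (𝓝 0) := hxw (f.comp j)
      rw [tendsto_zero_iff_norm_tendsto_zero] at h1 ⊢
      refine squeeze_zero (fun n => norm_nonneg _) (g := fun n => c⁻¹ * ‖f (j (x n))‖)
        (fun n => ?_) (by simpa using h1.const_mul c⁻¹)
      rw [map_smul, norm_smul, norm_inv, Complex.norm_real, norm_norm]
      gcongr
      exact hjx n)
  refine ⟨k, fun n => (‖j (x (k n))‖ : ℂ)⁻¹ • (φ n).comp j, hk, fun n => ?_, fun y => ?_⟩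
  · have h1 := hφ1 n
    rw [map_smul] at h1
    exact h1
  · have h1 := hφs (j y)
    rw [summable_iff_vanishing_norm] at h1 ⊢
    intro ε hε
    obtain ⟨s, hs⟩ := h1 (c * ε) (by positivity)
    refine ⟨s, fun t ht => ?_⟩
    have h2 := hs t ht
    have h3 : ∑ n ∈ t, φ n (j y) • ((‖j (x (k n))‖ : ℂ)⁻¹ • j (x (k n))) =
        j (∑ n ∈ t, ((‖j (x (k n))‖ : ℂ)⁻¹ • (φ n).comp j) y • x (k n)) := by
      rw [map_sum]
      refine Finset.sum_congr rfl (fun n _ => ?_)
      rw [map_smul, smul_smul, smul_apply, smul_eq_mul, mul_comm]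
      rfl
    rw [h3] at h2
    have h4 := (hj (∑ n ∈ t, ((‖j (x (k n))‖ : ℂ)⁻¹ • (φ n).comp j) y • x (k n))).trans_lt h2
    exact lt_of_mul_lt_mul_left h4 hc.le

/-- spaces which embed isomorphically into a reflexive space are reflexive -/
theorem refl_of_embedding {X Y : Type*} [NormedAddCommGroup X] [NormedSpace ℂ X] [CompleteSpace X]
    [NormedAddCommGroup Y] [NormedSpace ℂ Y]
    (hY : Function.Surjective (NormedSpace.inclusionInDoubleDual ℂ Y)) (j : X →L[ℂ] Y) (c : ℝ)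
    (hc : 0 < c) (hj : ∀ x, c * ‖x‖ ≤ ‖j x‖) :
    Function.Surjective (NormedSpace.inclusionInDoubleDual ℂ X) := by
  intro Φ
  obtain ⟨y, hy⟩ := hY (Φ.comp (ContinuousLinearMap.precomp ℂ j))
  have hy' : ∀ f : Y →L[ℂ] ℂ, f y = Φ (f.comp j) := by
    intro f
    have h1 := congrArg (fun Ψ : StrongDual ℂ (StrongDual ℂ Y) => Ψ f) hy
    simp only [NormedSpace.dual_def] at h1
    exact h1
  have hal : AntilipschitzWith ⟨c⁻¹, by positivity⟩ j := by
    refine AddMonoidHomClass.antilipschitz_of_bound j (fun x => ?_)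
    change ‖x‖ ≤ c⁻¹ * ‖j x‖
    rw [inv_mul_eq_div, le_div_iff₀ hc, mul_comm]
    exact hj x
  have hcr : IsClosed (Set.range j) := hal.isClosed_range j.uniformContinuous
  have hmem : y ∈ (LinearMap.range (j : X →ₗ[ℂ] Y)) := by
    by_contra hcon
    obtain ⟨f, hf1, hf2⟩ := exists_vanishing (LinearMap.range (j : X →ₗ[ℂ] Y)) hcr hcon
    apply hf1
    have h1 : f.comp j = 0 := by
      ext x
      exact hf2 _ ⟨x, rfl⟩
    rw [hy', h1, map_zero]
  obtain ⟨x, hx⟩ := hmem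
  have hx' : j x = y := hx
  refine ⟨x, ?_⟩
  ext f
  rw [NormedSpace.dual_def]
  -- extend `f` along `j`
  obtain ⟨g, hg⟩ := exists_extension_of_bound j c⁻¹ (fun x => by
    rw [inv_mul_eq_div, le_div_iff₀ hc, mul_comm]
    exact hj x) f
  have h1 : g.comp j = f := by
    ext u
    exact hg u
  rw [← h1]
  change g (j x) = _
  rw [hx', hy']

/-- Hilbert spaces have the property `CUS` -/
theorem cus_L2 : CUS L2 :=
  (pdec_lp (fun _ : ℕ => ℂ) 2 (by norm_num) (by norm_num)).cus (by norm_num)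

theorem reflexive_L2 : Function.Surjective (NormedSpace.inclusionInDoubleDual ℂ L2) :=
  (pdec_lp (fun _ : ℕ => ℂ) 2 (by norm_num) (by norm_num)).reflexive (by norm_num)

end Pool.Agent.H272.IS
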