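import Pool.Agent.H272.IS.LpRad

/-!
# Hyperinvariant subspaces

The transfer principle for hyperinvariant subspaces, and the factorisation lemmas applied to an
operator without hyperinvariant subspaces.
-/

set_option autoImplicit false

namespace Pool.Agent.H272.IS

open Filter Topology

section hyper

variable {X : Type*} [NormedAddCommGroup X] [NormedSpace ℂ X]
variable {Y : Type*} [NormedAddCommGroup Y] [NormedSpace ℂ Y]

/-- `T` has no closed hyperinvariant subspace other than `0` and the whole space -/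
def NoHyp (T : X →L[ℂ] X) : Prop :=
  ∀ V : Submodule ℂ X, IsClosed (V : Set X) →
    (∀ S : X →L[ℂ] X, S * T = T * S → ∀ x ∈ V, S x ∈ V) → V = ⊥ ∨ V = ⊤

/-- transfer principle -/
theorem NoHyp.swap {A : Y →L[ℂ] X} {B : X →L[ℂ] Y} (hA : Function.Injective A)
    (hB : DenseRange B) (h : NoHyp (A ∘L B)) : NoHyp (B ∘L A) := by
  intro V hV hinv
  -- the hyperinvariant subspace attached to `V`
  let U : Submodule ℂ X :=
    { carrier := {x | ∀ C : X →L[ℂ] X, C * (A ∘L B) = (A ∘L B) * C → B (C x) ∈ V}
      add_mem' := by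
        intro x y hx hy C hC
        rw [map_add, map_add]
        exact V.add_mem (hx C hC) (hy C hC)
      zero_mem' := by
        intro C _
        rw [map_zero, map_zero]
        exact V.zero_mem
      smul_mem' := by
        intro c x hx C hC
        rw [map_smul, map_smul]
        exact V.smul_mem c (hx C hC) }
  have hUm : ∀ x, x ∈ U ↔ ∀ C : X →L[ℂ] X, C * (A ∘L B) = (A ∘L B) * C → B (C x) ∈ V :=
    fun x => Iff.rfl
  have hUc : IsClosed (U : Set X) := by
    have : (U : Set X) = ⋂ (C : X →L[ℂ] X) (_ : C * (A ∘L B) = (A ∘L B) * C),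
        {x | B (C x) ∈ V} := by
      ext x
      simp only [SetLike.mem_coe, hUm, Set.mem_iInter, Set.mem_ofPred_eq]
    rw [this]
    refine isClosed_iInter (fun C => isClosed_iInter (fun _ => ?_))
    exact hV.preimage (B.continuous.comp C.continuous)
  rcases h U hUc (by
    intro S hS x hx
    rw [hUm] at hx ⊢
    intro C hC
    have h1 : (C * S) * (A ∘L B) = (A ∘L B) * (C * S) := by
      rw [mul_assoc, hS, ← mul_assoc, hC, mul_assoc]
    exact hx (C * S) h1) with h1 | h1
  · left
    rw [eq_bot_iff]
    intro v hv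
    have h2 : A v ∈ U := by
      rw [hUm]
      intro C hC
      have h3 : (B ∘L (C ∘L A)) * (B ∘L A) = (B ∘L A) * (B ∘L (C ∘L A)) := by
        refine ContinuousLinearMap.ext (fun y => ?_)
        change B (C (A (B (A y)))) = B (A (B (C (A y))))
        have h4 := congrArg (fun L : X →L[ℂ] X => L (A y)) hC
        change C (A (B (A y))) = A (B (C (A y))) at h4
        rw [h4]
      exact hinv _ h3 v hv
    rw [h1, Submodule.mem_bot] at h2
    rw [Submodule.mem_bot]
    exact hA (by rw [h2, map_zero])
  · right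
    rw [eq_top_iff]
    have h2 : Set.range B ⊆ (V : Set Y) := by
      rintro _ ⟨x, rfl⟩
      have h3 : x ∈ U := by rw [h1]; trivial
      exact (hUm x).1 h3 1 (by rw [one_mul, mul_one])
    intro y _
    have := closure_mono h2
    rw [hV.closure_eq, hB.closure_range] at this
    exact this (Set.mem_univ y)

theorem NoHyp.sub_smul_one {T : X →L[ℂ] X} (h : NoHyp T) (c : ℂ) :
    NoHyp (T - c • (1 : X →L[ℂ] X)) := by
  intro V hV hinv
  refine h V hV (fun S hS => hinv S ?_)
  rw [mul_sub, sub_mul, hS]
  congr 1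
  refine ContinuousLinearMap.ext (fun x => ?_)
  change S (c • x) = c • S x
  rw [map_smul]

theorem NoHyp.injective {T : X →L[ℂ] X} (h : NoHyp T) (hT : T ≠ 0) :
    Function.Injective T := by
  rcases h (LinearMap.ker (T : X →ₗ[ℂ] X)) T.isClosed_ker (by
    intro S hS x hx
    have hx' : T x = 0 := hx
    change T (S x) = 0
    have h4 := congrArg (fun L : X →L[ℂ] X => L x) hS
    change S (T x) = T (S x) at h4
    rw [← h4, hx', map_zero]) with h1 | h1
  · exact LinearMap.ker_eq_bot.1 h1
  · exfalso
    apply hT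
    ext x
    have : x ∈ LinearMap.ker (T : X →ₗ[ℂ] X) := by rw [h1]; trivial
    exact this

theorem NoHyp.denseRange {T : X →L[ℂ] X} (h : NoHyp T) (hT : T ≠ 0) :
    DenseRange T := by
  have hU : ((LinearMap.range (T : X →ₗ[ℂ] X)).topologicalClosure : Set X) =
      closure (Set.range T) := by
    rw [Submodule.topologicalClosure_coe]
    rfl
  rcases h (LinearMap.range (T : X →ₗ[ℂ] X)).topologicalClosure
    (Submodule.isClosed_topologicalClosure _) (by
      intro S hS x hx
      have hm : Set.MapsTo S (Set.range T) (Set.range T) := by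
        rintro _ ⟨y, rfl⟩
        refine ⟨S y, ?_⟩
        have h4 := congrArg (fun L : X →L[ℂ] X => L y) hS
        exact h4.symm
      have hx' : x ∈ closure (Set.range T) := by rw [← hU]; exact hx
      have := (hm.closure S.continuous) hx'
      rw [← SetLike.mem_coe, hU]
      exact this) with h1 | h1
  · exfalso
    apply hT
    ext x
    have : T x ∈ (LinearMap.range (T : X →ₗ[ℂ] X)).topologicalClosure :=
      Submodule.le_topologicalClosure _ ⟨x, rfl⟩
    rw [h1, Submodule.mem_bot] at this
    exact this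
  · intro y
    rw [← hU, h1]
    trivial

/-- conjugation by an isomorphism -/
theorem NoHyp.conj {T : X →L[ℂ] X} (hT : NoHyp T)
    (A : Y →L[ℂ] X) (B : X →L[ℂ] Y) (hAB : ∀ x, A (B x) = x) (hBA : ∀ y, B (A y) = y) :
    NoHyp (B ∘L (T ∘L A)) := by
  intro V hV hinv
  have hpre : IsClosed ((V.comap (B : X →ₗ[ℂ] Y) : Submodule ℂ X) : Set X) :=
    hV.preimage B.continuous
  rcases hT (V.comap (B : X →ₗ[ℂ] Y)) hpre (by
    intro S hS x hx
    have hx' : B x ∈ V := hx
    have hST : ∀ x, S (T x) = T (S x) := fun x => congrArg (fun L : X →L[ℂ] X => L x) hS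
    have h1 := hinv (B ∘L (S ∘L A)) (by
      refine ContinuousLinearMap.ext (fun y => ?_)
      change B (S (A (B (T (A y))))) = B (T (A (B (S (A y)))))
      rw [hAB, hAB, hST]) _ hx'
    change B (S (A (B x))) ∈ V at h1
    rw [hAB] at h1
    exact h1) with h1 | h1
  · left
    rw [eq_bot_iff]
    intro y hy
    have h2 : A y ∈ V.comap (B : X →ₗ[ℂ] Y) := by
      change B (A y) ∈ V
      rw [hBA]; exact hy
    rw [h1, Submodule.mem_bot] at h2
    rw [Submodule.mem_bot, ← hBA y, h2, map_zero]
  · right
    rw [eq_top_iff]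
    intro y _
    have h2 : A y ∈ V.comap (B : X →ₗ[ℂ] Y) := by rw [h1]; trivial
    change B (A y) ∈ V at h2
    rwa [hBA] at h2

/-- `B A` is not a scalar if `A B` is not a scalar -/
theorem ne_smul_of_swap {A : Y →L[ℂ] X} {B : X →L[ℂ] Y} (hd : DenseRange (A ∘L B))
    (h : ∀ c : ℂ, A ∘L B ≠ c • (1 : X →L[ℂ] X)) (c : ℂ) : B ∘L A ≠ c • (1 : Y →L[ℂ] Y) := by
  intro hc
  apply h c
  have h1 : ∀ x, (A ∘L B) (A (B x)) = c • A (B x) := by
    intro x
    have h2 := congrArg (fun L : Y →L[ℂ] Y => A (L (B x))) hc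
    change A (B (A (B x))) = A (c • B x) at h2
    rw [map_smul] at h2
    exact h2
  refine ContinuousLinearMap.ext (fun x => ?_)
  change (A ∘L B) x = c • x
  have hcl : IsClosed {x : X | (A ∘L B) x = c • x} :=
    isClosed_eq (A ∘L B).continuous (continuous_const_smul c)
  have hsub : Set.range (A ∘L B) ⊆ {x : X | (A ∘L B) x = c • x} := by
    rintro _ ⟨y, rfl⟩
    exact h1 y
  have := closure_minimal hsub hcl
  exact this (hd x)

end hyper

end Pool.Agent.H272.IS
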