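import Pool.Agent.H272.IS.Hilb

/-!
# Complemented copies of `ℓ²`

A criterion, and its application to `L^p[0,1]`, `1 < p < ∞` (Rademacher functions; the Khintchine
inequality is taken from the library).
-/

set_option autoImplicit false

namespace Pool.Agent.H272.IS

open Filter Topology
open scoped ENNReal

section crit

variable {F : Type*} [NormedAddCommGroup F] [NormedSpace ℂ F] [CompleteSpace F]

theorem L2_summable_sq (a : L2) : Summable fun k => ‖a k‖ ^ 2 := by
  have h1 := (lp.memℓp a).summable (by norm_num)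
  refine h1.congr (fun k => ?_)
  norm_num

theorem L2_sum_sq_le (a : L2) (s : Finset ℕ) : ∑ k ∈ s, ‖a k‖ ^ 2 ≤ ‖a‖ ^ 2 := by
  have h1 := lp.sum_rpow_le_norm_rpow (p := 2) (by norm_num) a s
  simpa using h1

/-- criterion for a complemented copy of `ℓ²` -/
theorem exists_complemented (R : ℕ → F) (ρ : ℕ → (F →L[ℂ] ℂ)) (C D : ℝ) (hC0 : 0 ≤ C)
    (hD0 : 0 ≤ D)
    (hρR : ∀ j k, ρ j (R k) = if j = k then 1 else 0)
    (h1 : ∀ (a : ℕ → ℂ) (s : Finset ℕ), ‖∑ k ∈ s, a k • R k‖ ≤ C * Real.sqrt (∑ k ∈ s, ‖a k‖ ^ 2))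
    (h2 : ∀ (f : F) (s : Finset ℕ), ∑ k ∈ s, ‖ρ k f‖ ^ 2 ≤ (D * ‖f‖) ^ 2) :
    ∃ (i : L2 →L[ℂ] F) (q : F →L[ℂ] L2), ∀ x, q (i x) = x := by
  have hsum : ∀ a : L2, Summable fun k => a k • R k := by
    intro a
    have hs := L2_summable_sq a
    rw [summable_iff_vanishing_norm] at hs ⊢
    intro ε hε
    obtain ⟨s, hs'⟩ := hs ((ε / (C + 1)) ^ 2) (by positivity)
    refine ⟨s, fun t ht => ?_⟩
    have h3 := hs' t ht
    rw [Real.norm_of_nonneg (Finset.sum_nonneg (fun k _ => by positivity))] at h3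
    have h4 : Real.sqrt (∑ k ∈ t, ‖a k‖ ^ 2) < ε / (C + 1) := by
      rw [Real.sqrt_lt' (by positivity)]
      exact h3
    calc ‖∑ k ∈ t, a k • R k‖ ≤ C * Real.sqrt (∑ k ∈ t, ‖a k‖ ^ 2) := h1 a t
      _ ≤ (C + 1) * Real.sqrt (∑ k ∈ t, ‖a k‖ ^ 2) := by
          gcongr
          linarith
      _ < (C + 1) * (ε / (C + 1)) := by gcongr
      _ = ε := by field_simp
  let i₀ : L2 →ₗ[ℂ] F :=
    { toFun := fun a => ∑' k, a k • R k
      map_add' := by
        intro a b
        rw [← (hsum a).tsum_add (hsum b)]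
        refine tsum_congr (fun k => ?_)
        rw [lp.coeFn_add, Pi.add_apply, add_smul]
      map_smul' := by
        intro c a
        rw [RingHom.id_apply, ← (hsum a).tsum_const_smul c]
        refine tsum_congr (fun k => ?_)
        rw [lp.coeFn_smul, Pi.smul_apply, smul_assoc] }
  let i : L2 →L[ℂ] F := i₀.mkContinuous C (by
    intro a
    change ‖∑' k, a k • R k‖ ≤ C * ‖a‖
    refine le_of_tendsto (hsum a).hasSum.norm (Eventually.of_forall (fun s => ?_))
    refine (h1 a s).trans ?_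
    gcongr
    rw [Real.sqrt_le_left (norm_nonneg _)]
    exact L2_sum_sq_le a s)
  have hi : ∀ a, i a = ∑' k, a k • R k := fun a => rfl
  have hmem : ∀ f : F, Memℓp (fun k => ρ k f) 2 := by
    intro f
    refine memℓp_gen' (C := (D * ‖f‖) ^ 2) (fun s => ?_)
    have := h2 f s
    simpa using this
  let q₀ : F →ₗ[ℂ] L2 :=
    { toFun := fun f => ⟨fun k => ρ k f, hmem f⟩
      map_add' := by
        intro f g
        apply lp.ext
        funext k
        change ρ k (f + g) = ρ k f + ρ k g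
        rw [map_add]
      map_smul' := by
        intro c f
        apply lp.ext
        funext k
        change ρ k (c • f) = c • ρ k f
        rw [map_smul] }
  have hq₀ : ∀ f k, (q₀ f) k = ρ k f := fun f k => rfl
  let q : F →L[ℂ] L2 := q₀.mkContinuous D (by
    intro f
    refine lp.norm_le_of_forall_sum_le (by norm_num) (by positivity) (fun s => ?_)
    have := h2 f s
    simpa [hq₀] using this)
  refine ⟨i, q, fun a => ?_⟩
  apply lp.ext
  funext k
  change ρ k (i a) = a k
  have h3 := (hsum a).hasSum.mapL (ρ k)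
  have h4 : HasSum (fun j => ρ k (a j • R j)) (a k) := by
    have h5 := hasSum_ite_eq k (a k)
    refine h5.congr_fun ?_ |> fun h => h
    intro j
    rw [map_smul, hρR, smul_eq_mul]
    by_cases hkj : k = j
    · rw [if_pos hkj, if_pos hkj.symm, mul_one, hkj]
    · rw [if_neg hkj, if_neg (Ne.symm hkj), mul_zero]
  rw [hi]
  exact h3.unique h4

end crit

end Pool.Agent.H272.IS
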