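import Pool.Agent.H272.IS.PSum

/-!
# `ℓ_p(E n)` with finite-dimensional `E n` has an `ℓ_p`-decomposition
-/

set_option autoImplicit false

namespace Pool.Agent.H272.IS

open Filter Topology
open scoped ENNReal

section inst

variable (E : ℕ → Type*) [∀ n, NormedAddCommGroup (E n)] [∀ n, NormedSpace ℂ (E n)]
variable (p : ℝ≥0∞) [Fact (1 ≤ p)]

/-- the canonical projections -/
noncomputable def lpP (n : ℕ) : lp E p →L[ℂ] lp E p :=
  ∑ i ∈ Finset.range n, (lp.singleContinuousLinearMap ℂ E p i).comp (lp.evalCLM ℂ E p i)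

theorem lpP_apply (n : ℕ) (x : lp E p) :
    lpP E p n x = ∑ i ∈ Finset.range n, lp.single p i (x i) := by
  simp only [lpP, ContinuousLinearMap.sum_apply]
  rfl

theorem lpP_coord (n : ℕ) (x : lp E p) (j : ℕ) :
    (lpP E p n x) j = if j < n then x j else 0 := by
  rw [lpP_apply, lp.coeFn_sum, Finset.sum_apply]
  simp only [lp.single_apply]
  rw [Finset.sum_pi_single]
  simp

theorem pdec_lp [∀ n, FiniteDimensional ℂ (E n)] (hp : 1 < p) (hp' : p ≠ ∞) :
    PDec p.toReal (lpP E p) := by
  have hp0 : 0 < p.toReal := ENNReal.toReal_pos (zero_lt_one.trans hp).ne' hp'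
  refine ⟨fun m n x => ?_, fun x => ?_, fun n => ?_, fun n x => ?_⟩
  · apply lp.ext
    funext j
    rw [lpP_coord, lpP_coord, lpP_coord]
    by_cases h1 : j < m <;> by_cases h2 : j < n <;> simp [h1, h2]
  · have := (lp.hasSum_single hp' x).tendsto_sum_nat
    refine this.congr (fun n => ?_)
    rw [lpP_apply]
  · -- the range is contained in a finite sum of finite-dimensional spaces
    let A : (∀ i : Fin n, E i) →ₗ[ℂ] lp E p :=
      { toFun := fun f => ∑ i : Fin n, lp.single p (i : ℕ) (f i)
        map_add' := by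
          intro f g
          simp only [Pi.add_apply, lp.single_add, Finset.sum_add_distrib]
        map_smul' := by
          intro c f
          simp only [Pi.smul_apply, lp.single_smul, Finset.smul_sum, RingHom.id_apply] }
    have hle : LinearMap.range (lpP E p n : lp E p →ₗ[ℂ] lp E p) ≤ LinearMap.range A := by
      rintro _ ⟨x, rfl⟩
      refine ⟨fun i => x i, ?_⟩
      change ∑ i : Fin n, lp.single p (i : ℕ) (x (i : ℕ)) = lpP E p n x
      rw [lpP_apply]
      exact Fin.sum_univ_eq_sum_range (fun i => lp.single p i (x i)) n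
    exact Submodule.finiteDimensional_of_le hle
  · have h1 := lp.norm_sub_norm_compl_sub_single hp0 x (Finset.range n)
    have h2 := lp.norm_sum_single hp0 (fun i => x i) (Finset.range n)
    rw [lpP_apply, h2]
    linarith

end inst

end Pool.Agent.H272.IS
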