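import Pool.Agent.H272.IS.L2Comp
import Pool.Graph.R_seed8.H66R3.PG.Khin

/-!
# `L^p[0,1]`, `1 < p < ∞`, contains a complemented copy of `ℓ²`
-/

set_option autoImplicit false

namespace Pool.Agent.H272.IS

open Filter Topology MeasureTheory
open scoped ENNReal
open Pool.Agent.H66R3.PG

/-- the Rademacher functions -/
noncomputable def rr (k : ℕ) (x : ℝ) : ℂ := ((rd k (dig x) : ℝ) : ℂ)

theorem rr_norm (k : ℕ) (x : ℝ) : ‖rr k x‖ = 1 := by
  rw [rr, Complex.norm_real, Real.norm_eq_abs, rd_abs]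

theorem rr_meas (k : ℕ) : Measurable (rr k) :=
  Complex.measurable_ofReal.comp (dep_rd k).measurable

theorem rr_memLp (k : ℕ) (p : ℝ≥0∞) : MemLp (rr k) p mu :=
  MemLp.of_bound (rr_meas k).aestronglyMeasurable 1 (Eventually.of_forall (fun x => (rr_norm k x).le))

theorem rr_orth (j k : ℕ) : ∫ x, rr k x * rr j x ∂mu = if j = k then 1 else 0 := by
  have h1 : ∀ x, rr k x * rr j x = ((rd k (dig x) * rd j (dig x) : ℝ) : ℂ) := by
    intro x; simp [rr]
  simp only [h1]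
  rw [integral_complex_ofReal]
  by_cases h : j = k
  · subst h
    simp [rd_sq]
  · rw [if_neg h]
    have h2 : E (fun x => rd k x * rd j x) = 0 := by
      refine E_rd_zero (dep_rd k) j (fun x => ?_)
      rw [rd_flip]
      simp [Ne.symm h]
    have h3 : ∫ x, rd k (dig x) * rd j (dig x) ∂mu = 0 := h2
    rw [h3]; simp

theorem rr_sum (a : ℕ → ℂ) (s : Finset ℕ) (x : ℝ) : ∑ k ∈ s, a k * rr k x =
    ((rsum s (fun k => (a k).re) (dig x) : ℝ) : ℂ) +
      ((rsum s (fun k => (a k).im) (dig x) : ℝ) : ℂ) * Complex.I := by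
  simp only [rsum]
  push_cast
  rw [Finset.sum_mul, ← Finset.sum_add_distrib]
  refine Finset.sum_congr rfl (fun k _ => ?_)
  have h1 : a k = ((a k).re : ℂ) + ((a k).im : ℂ) * Complex.I := (Complex.re_add_im (a k)).symm
  conv_lhs => rw [h1]
  simp only [rr]
  ring

/-- the upper Khintchine inequality for complex coefficients -/
theorem rr_khin {Q : ℝ} (hQ : 1 ≤ Q) : ∃ C : ℝ, 0 < C ∧ ∀ (a : ℕ → ℂ) (s : Finset ℕ),
    ∫ x, ‖∑ k ∈ s, a k * rr k x‖ ^ Q ∂mu ≤ (C * Real.sqrt (∑ k ∈ s, ‖a k‖ ^ 2)) ^ Q := by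
  obtain ⟨C, hC, h1⟩ := khin_up hQ
  have hQ0 : 0 < Q := by linarith
  refine ⟨4 * C, by positivity, fun a s => ?_⟩
  set σ := Real.sqrt (∑ k ∈ s, ‖a k‖ ^ 2) with hσ
  obtain ⟨n, hn, hD⟩ := exists_dep_rsum s
  set u : (ℕ → Bool) → ℝ := rsum s (fun k => (a k).re) with hu
  set v : (ℕ → Bool) → ℝ := rsum s (fun k => (a k).im) with hv
  have hDu : Dep n u := hD _
  have hDv : Dep n v := hD _
  have hu1 : E (fun x => |u x| ^ Q) ≤ (C * σ) ^ Q := by
    rw [← nm_rpow hQ0]
    apply Real.rpow_le_rpow (nm_nonneg _ _) _ hQ0.le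
    refine (h1 s _).trans (mul_le_mul_of_nonneg_left (Real.sqrt_le_sqrt
      (Finset.sum_le_sum (fun k _ => ?_))) hC.le)
    rw [← sq_abs]
    exact pow_le_pow_left₀ (abs_nonneg _) (Complex.abs_re_le_norm (a k)) 2
  have hv1 : E (fun x => |v x| ^ Q) ≤ (C * σ) ^ Q := by
    rw [← nm_rpow hQ0]
    apply Real.rpow_le_rpow (nm_nonneg _ _) _ hQ0.le
    refine (h1 s _).trans (mul_le_mul_of_nonneg_left (Real.sqrt_le_sqrt
      (Finset.sum_le_sum (fun k _ => ?_))) hC.le)
    rw [← sq_abs]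
    exact pow_le_pow_left₀ (abs_nonneg _) (Complex.abs_im_le_norm (a k)) 2
  have hpt : ∀ x : ℝ, ‖∑ k ∈ s, a k * rr k x‖ ^ Q ≤
      2 ^ Q * (|u (dig x)| ^ Q + |v (dig x)| ^ Q) := by
    intro x
    rw [rr_sum]
    have e1 : ‖((u (dig x) : ℝ) : ℂ) + ((v (dig x) : ℝ) : ℂ) * Complex.I‖ ≤
        2 * max |u (dig x)| |v (dig x)| := by
      calc ‖((u (dig x) : ℝ) : ℂ) + ((v (dig x) : ℝ) : ℂ) * Complex.I‖
          ≤ |u (dig x)| + |v (dig x)| := by
            refine (norm_add_le _ _).trans (le_of_eq ?_)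
            rw [norm_mul, Complex.norm_I, mul_one, Complex.norm_real, Complex.norm_real,
              Real.norm_eq_abs, Real.norm_eq_abs]
        _ ≤ 2 * max |u (dig x)| |v (dig x)| := by
            have := le_max_left |u (dig x)| |v (dig x)|
            have := le_max_right |u (dig x)| |v (dig x)|
            linarith
    calc _ ≤ (2 * max |u (dig x)| |v (dig x)|) ^ Q :=
          Real.rpow_le_rpow (norm_nonneg _) e1 hQ0.le
      _ = 2 ^ Q * (max |u (dig x)| |v (dig x)|) ^ Q :=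
          Real.mul_rpow (by norm_num) (le_max_of_le_left (abs_nonneg _))
      _ ≤ 2 ^ Q * (|u (dig x)| ^ Q + |v (dig x)| ^ Q) := by
          gcongr
          have f1 : 0 ≤ |u (dig x)| ^ Q := Real.rpow_nonneg (abs_nonneg _) _
          have f2 : 0 ≤ |v (dig x)| ^ Q := Real.rpow_nonneg (abs_nonneg _) _
          rcases max_choice |u (dig x)| |v (dig x)| with h | h <;> rw [h] <;> linarith
  have hDw : Dep n (fun x => 2 ^ Q * (|u x| ^ Q + |v x| ^ Q)) :=
    (dep_const n _).mul ((hDu.map (fun t => |t| ^ Q)).add (hDv.map (fun t => |t| ^ Q)))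
  have e2 : ∫ x, ‖∑ k ∈ s, a k * rr k x‖ ^ Q ∂mu ≤
      E (fun x => 2 ^ Q * (|u x| ^ Q + |v x| ^ Q)) := by
    refine integral_mono_of_nonneg (Eventually.of_forall (fun x => ?_)) hDw.integrable
      (Eventually.of_forall hpt)
    exact Real.rpow_nonneg (norm_nonneg _) _
  have e3 : E (fun x => 2 ^ Q * (|u x| ^ Q + |v x| ^ Q)) =
      2 ^ Q * (E (fun x => |u x| ^ Q) + E (fun x => |v x| ^ Q)) := by
    rw [E_mul_left, E_add (hDu.map (fun t => |t| ^ Q)) (hDv.map (fun t => |t| ^ Q))]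
  have hσ0 : 0 ≤ σ := Real.sqrt_nonneg _
  have e4 : (4 * C * σ) ^ Q = 4 ^ Q * (C * σ) ^ Q := by
    rw [mul_assoc, Real.mul_rpow (by norm_num) (by positivity)]
  have e5 : (2 : ℝ) ^ Q * 2 ≤ 4 ^ Q := by
    have e6 : (4 : ℝ) ^ Q = 2 ^ Q * 2 ^ Q := by
      rw [← Real.mul_rpow (by norm_num) (by norm_num)]; norm_num
    rw [e6]
    gcongr
    calc (2 : ℝ) = 2 ^ (1 : ℝ) := (Real.rpow_one 2).symm
      _ ≤ 2 ^ Q := Real.rpow_le_rpow_of_exponent_le (by norm_num) hQ
  have e7 : 0 ≤ (C * σ) ^ Q := Real.rpow_nonneg (by positivity) _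
  rw [e4]
  calc ∫ x, ‖∑ k ∈ s, a k * rr k x‖ ^ Q ∂mu
      ≤ 2 ^ Q * (E (fun x => |u x| ^ Q) + E (fun x => |v x| ^ Q)) := e2.trans e3.le
    _ ≤ 2 ^ Q * ((C * σ) ^ Q + (C * σ) ^ Q) := by gcongr
    _ = 2 ^ Q * 2 * (C * σ) ^ Q := by ring
    _ ≤ 4 ^ Q * (C * σ) ^ Q := by gcongr

section lp

variable (p : ℝ≥0∞) [Fact (1 ≤ p)]

theorem Lp_integrable (f : Lp ℂ p mu) : Integrable (fun x => f x) mu :=
  (Lp.memLp f).integrable Fact.out

theorem Lp_mul_integrable (f : Lp ℂ p mu) (k : ℕ) : Integrable (fun x => f x * rr k x) mu :=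
  (Lp_integrable p f).mul_bdd (c := 1) (rr_meas k).aestronglyMeasurable
    (Eventually.of_forall (fun x => (rr_norm k x).le))

theorem Lp_norm_one_le (f : Lp ℂ p mu) : ∫ x, ‖f x‖ ∂mu ≤ ‖f‖ := by
  have h1 : MemLp (fun x => f x) 1 mu := memLp_one_iff_integrable.2 (Lp_integrable p f)
  have h2 := h1.eLpNorm_eq_integral_rpow_norm one_ne_zero ENNReal.one_ne_top
  simp only [ENNReal.toReal_one, Real.rpow_one, inv_one] at h2
  have h3 : eLpNorm (fun x => f x) 1 mu ≤ eLpNorm (fun x => f x) p mu :=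
    eLpNorm_le_eLpNorm_of_exponent_le Fact.out (Lp.aestronglyMeasurable f)
  rw [h2] at h3
  have h4 : ‖f‖ = (eLpNorm (fun x => f x) p mu).toReal := Lp.norm_def f
  rw [h4]
  exact (ENNReal.ofReal_le_iff_le_toReal (Lp.eLpNorm_ne_top f)).1 h3

/-- the Rademacher coefficients -/
noncomputable def rad (k : ℕ) : Lp ℂ p mu →L[ℂ] ℂ :=
  LinearMap.mkContinuous
    { toFun := fun f => ∫ x, f x * rr k x ∂mu
      map_add' := by
        intro f g
        rw [← integral_add (Lp_mul_integrable p f k) (Lp_mul_integrable p g k)]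
        refine integral_congr_ae ?_
        filter_upwards [Lp.coeFn_add f g] with x hx
        rw [hx, Pi.add_apply, add_mul]
      map_smul' := by
        intro c f
        rw [RingHom.id_apply, smul_eq_mul, ← integral_const_mul]
        refine integral_congr_ae ?_
        filter_upwards [Lp.coeFn_smul c f] with x hx
        rw [hx, Pi.smul_apply, smul_eq_mul, mul_assoc] } 1 (by
    intro f
    rw [one_mul]
    refine le_trans ?_ (Lp_norm_one_le p f)
    refine (norm_integral_le_integral_norm _).trans (le_of_eq ?_)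
    refine integral_congr_ae (Eventually.of_forall (fun x => ?_))
    change ‖f x * rr k x‖ = ‖f x‖
    rw [norm_mul, rr_norm, mul_one])

theorem rad_apply (k : ℕ) (f : Lp ℂ p mu) : rad p k f = ∫ x, f x * rr k x ∂mu := rfl

/-- the Rademacher functions as elements of `L^p` -/
noncomputable def Rr (k : ℕ) : Lp ℂ p mu := (rr_memLp k p).toLp (rr k)

theorem Rr_coe (k : ℕ) : (fun x => Rr p k x) =ᵐ[mu] rr k := (rr_memLp k p).coeFn_toLp

theorem rad_Rr (j k : ℕ) : rad p j (Rr p k) = if j = k then 1 else 0 := by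
  rw [rad_apply, ← rr_orth]
  refine integral_congr_ae ?_
  filter_upwards [Rr_coe p k] with x hx
  rw [hx]

theorem Rr_sum_coe (a : ℕ → ℂ) (s : Finset ℕ) :
    (fun x => (∑ k ∈ s, a k • Rr p k : Lp ℂ p mu) x) =ᵐ[mu] fun x => ∑ k ∈ s, a k * rr k x := by
  classical
  induction s using Finset.induction_on with
  | empty =>
    simp only [Finset.sum_empty]
    exact Lp.coeFn_zero ℂ p mu
  | insert j s hj ih =>
    simp only [Finset.sum_insert hj]
    filter_upwards [Lp.coeFn_add (a j • Rr p j) (∑ k ∈ s, a k • Rr p k), ih,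
      Lp.coeFn_smul (a j) (Rr p j), Rr_coe p j] with x h1 h2 h3 h4
    rw [h1, Pi.add_apply, h2, h3, Pi.smul_apply, h4, smul_eq_mul]

theorem exists_L2_in_Lp (hp : 1 < p) (hp' : p ≠ ∞) :
    ∃ (i : L2 →L[ℂ] Lp ℂ p mu) (q : Lp ℂ p mu →L[ℂ] L2), ∀ x, q (i x) = x := by
  have hP1 : 1 < p.toReal := by
    have h1 := (ENNReal.toReal_lt_toReal ENNReal.one_ne_top hp').2 hp
    rwa [ENNReal.toReal_one] at h1
  set P : ℝ := p.toReal with hP
  have hP0 : 0 < P := by linarith
  have hpq : P.HolderConjugate (P / (P - 1)) := Real.HolderConjugate.conjExponent hP1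
  set Q : ℝ := P / (P - 1) with hQ
  have hQ1 : 1 < Q := hpq.symm.lt
  have hQ0 : 0 < Q := by linarith
  obtain ⟨C, hC, hC1⟩ := rr_khin hP1.le
  obtain ⟨D, hD, hD1⟩ := rr_khin hQ1.le
  refine exists_complemented (Rr p) (rad p) C D hC.le hD.le (rad_Rr p) ?_ ?_
  · intro a s
    have h1 : ‖∑ k ∈ s, a k • Rr p k‖ ^ P ≤ (C * Real.sqrt (∑ k ∈ s, ‖a k‖ ^ 2)) ^ P := by
      have h2 := (Lp.memLp (∑ k ∈ s, a k • Rr p k : Lp ℂ p mu)).eLpNorm_eq_integral_rpow_norm
        (zero_lt_one.trans hp).ne' hp'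
      rw [Lp.norm_def, h2, ENNReal.toReal_ofReal (Real.rpow_nonneg (integral_nonneg
        (fun x => Real.rpow_nonneg (norm_nonneg _) _)) _), ← hP, ← Real.rpow_mul (integral_nonneg
        (fun x => Real.rpow_nonneg (norm_nonneg _) _)), inv_mul_cancel₀ hP0.ne', Real.rpow_one]
      refine le_trans (le_of_eq ?_) (hC1 a s)
      refine integral_congr_ae ?_
      filter_upwards [Rr_sum_coe p a s] with x hx
      rw [hx]
    exact (Real.rpow_le_rpow_iff (norm_nonneg _) (by positivity) hP0).1 h1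
  · intro f s
    set c : ℕ → ℂ := fun k => (starRingEnd ℂ) (rad p k f) with hc
    have hcn : ∀ k, ‖c k‖ = ‖rad p k f‖ := fun k => Complex.norm_conj _
    set σ := Real.sqrt (∑ k ∈ s, ‖rad p k f‖ ^ 2) with hσ
    have hσ0 : 0 ≤ σ := Real.sqrt_nonneg _
    have hσ2 : σ ^ 2 = ∑ k ∈ s, ‖rad p k f‖ ^ 2 :=
      Real.sq_sqrt (Finset.sum_nonneg (fun k _ => by positivity))
    have h1 : ((σ ^ 2 : ℝ) : ℂ) = ∫ x, f x * ∑ k ∈ s, c k * rr k x ∂mu := by
      have h2 : ∀ x, f x * ∑ k ∈ s, c k * rr k x = ∑ k ∈ s, c k * (f x * rr k x) := by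
        intro x
        rw [Finset.mul_sum]
        exact Finset.sum_congr rfl (fun k _ => by ring)
      simp only [h2]
      rw [integral_finset_sum _ (fun k _ => (Lp_mul_integrable p f k).const_mul _), hσ2]
      push_cast
      refine Finset.sum_congr rfl (fun k _ => ?_)
      rw [integral_const_mul, ← rad_apply]
      change _ = (starRingEnd ℂ) (rad p k f) * rad p k f
      rw [mul_comm, Complex.mul_conj, Complex.normSq_eq_norm_sq]
      push_cast
      rfl
    have h3 : σ ^ 2 ≤ ∫ x, ‖f x‖ * ‖∑ k ∈ s, c k * rr k x‖ ∂mu := by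
      have h4 : σ ^ 2 = ‖((σ ^ 2 : ℝ) : ℂ)‖ := by
        rw [Complex.norm_real, Real.norm_of_nonneg (by positivity)]
      rw [h4, h1]
      refine (norm_integral_le_integral_norm _).trans (le_of_eq ?_)
      refine integral_congr_ae (Eventually.of_forall (fun x => ?_))
      exact norm_mul _ _
    have hfm : MemLp (fun x => f x) (ENNReal.ofReal P) mu := by
      rw [hP, ENNReal.ofReal_toReal hp']
      exact Lp.memLp f
    have hgm : MemLp (fun x => ∑ k ∈ s, c k * rr k x) (ENNReal.ofReal Q) mu :=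
      memLp_finset_sum _ (fun k _ => (rr_memLp k _).const_mul (c k))
    have h5 := integral_mul_norm_le_Lp_mul_Lq hpq hfm hgm
    have h6 : (∫ x, ‖f x‖ ^ P ∂mu) ^ (1 / P) = ‖f‖ := by
      have h2 := (Lp.memLp f).eLpNorm_eq_integral_rpow_norm
        (zero_lt_one.trans hp).ne' hp'
      rw [Lp.norm_def, h2, ENNReal.toReal_ofReal (Real.rpow_nonneg (integral_nonneg
        (fun x => Real.rpow_nonneg (norm_nonneg _) _)) _), ← hP, one_div]
    have h7 : (∫ x, ‖∑ k ∈ s, c k * rr k x‖ ^ Q ∂mu) ^ (1 / Q) ≤ D * σ := by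
      have h8 := hD1 c s
      have h9 : Real.sqrt (∑ k ∈ s, ‖c k‖ ^ 2) = σ := by
        rw [hσ]
        simp only [hcn]
      rw [h9] at h8
      calc (∫ x, ‖∑ k ∈ s, c k * rr k x‖ ^ Q ∂mu) ^ (1 / Q) ≤ ((D * σ) ^ Q) ^ (1 / Q) :=
            Real.rpow_le_rpow (integral_nonneg
              (fun x => Real.rpow_nonneg (norm_nonneg _) _)) h8 (by positivity)
        _ = D * σ := by
            rw [← Real.rpow_mul (by positivity), mul_one_div_cancel hQ0.ne', Real.rpow_one]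
    have h10 : σ ^ 2 ≤ ‖f‖ * (D * σ) := by
      refine h3.trans (h5.trans ?_)
      rw [h6]
      gcongr
    have h11 : σ ≤ D * ‖f‖ := by
      rcases hσ0.eq_or_lt with h0 | h0
      · rw [← h0]; positivity
      · have h12 : σ * σ ≤ (D * ‖f‖) * σ := by
          calc σ * σ = σ ^ 2 := (sq σ).symm
            _ ≤ ‖f‖ * (D * σ) := h10
            _ = (D * ‖f‖) * σ := by ring
        exact le_of_mul_le_mul_right h12 h0
    rw [← hσ2]
    exact pow_le_pow_left₀ hσ0 h11 2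

end lp

end Pool.Agent.H272.IS
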