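import Pool.Agent.H272.IS.Biorth

/-!
# Markushevich bases with a universal bound

Each infinite-dimensional separable normed space has a fundamental and total biorthogonal sequence
with `‖z n‖ = 1`, `‖z' n‖ ≤ 2 * 3 ^ n`.
-/

set_option autoImplicit false

namespace Pool.Agent.H272.IS

open Filter Topology

section mbasis

variable {Z : Type*} [NormedAddCommGroup Z] [NormedSpace ℂ Z]

/-- the projection belonging to a finite biorthogonal system -/
noncomputable def proj (s : ℕ → Z × (Z →L[ℂ] ℂ)) (n : ℕ) : Z →L[ℂ] Z :=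
  ∑ i ∈ Finset.range n, ((s i).2).smulRight (s i).1

theorem proj_apply (s : ℕ → Z × (Z →L[ℂ] ℂ)) (n : ℕ) (x : Z) :
    proj s n x = ∑ i ∈ Finset.range n, (s i).2 x • (s i).1 := by
  simp [proj]

/-- finite biorthogonal systems with the bounds -/
structure Sys (n : ℕ) (s : ℕ → Z × (Z →L[ℂ] ℂ)) : Prop where
  bi : ∀ i, i < n → ∀ j, j < n → (s i).2 (s j).1 = if i = j then 1 else 0
  n1 : ∀ i, i < n → ‖(s i).1‖ = 1
  n2 : ∀ i, i < n → ‖(s i).2‖ ≤ 2 * 3 ^ i

variable {n : ℕ} {s : ℕ → Z × (Z →L[ℂ] ℂ)}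

theorem sum_pow (n : ℕ) : ∑ i ∈ Finset.range n, (2 * 3 ^ i : ℝ) = 3 ^ n - 1 := by
  induction n with
  | zero => simp
  | succ n ih => rw [Finset.sum_range_succ, ih, pow_succ]; ring

theorem Sys.norm_proj (h : Sys n s) : ‖proj s n‖ ≤ 3 ^ n - 1 := by
  rw [← sum_pow]
  refine (norm_sum_le _ _).trans (Finset.sum_le_sum (fun i hi => ?_))
  rw [ContinuousLinearMap.norm_smulRight_apply, h.n1 i (Finset.mem_range.1 hi), mul_one]
  exact h.n2 i (Finset.mem_range.1 hi)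

/-- the complementary projection -/
noncomputable def cproj (s : ℕ → Z × (Z →L[ℂ] ℂ)) (n : ℕ) : Z →L[ℂ] Z :=
  ContinuousLinearMap.id ℂ Z - proj s n

theorem cproj_apply (s : ℕ → Z × (Z →L[ℂ] ℂ)) (n : ℕ) (x : Z) :
    cproj s n x = x - proj s n x := rfl

theorem Sys.norm_cproj (h : Sys n s) : ‖cproj s n‖ ≤ 3 ^ n := by
  calc ‖cproj s n‖ ≤ ‖ContinuousLinearMap.id ℂ Z‖ + ‖proj s n‖ := norm_sub_le _ _
    _ ≤ 1 + (3 ^ n - 1) := add_le_add ContinuousLinearMap.norm_id_le h.norm_proj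
    _ = 3 ^ n := by ring

theorem Sys.cproj_fst (h : Sys n s) (j : ℕ) (hj : j < n) : cproj s n (s j).1 = 0 := by
  rw [cproj_apply, proj_apply, Finset.sum_eq_single j]
  · rw [h.bi j hj j hj]; simp
  · intro i hi hij
    rw [h.bi i (Finset.mem_range.1 hi) j hj, if_neg hij, zero_smul]
  · intro hcon
    exact absurd (Finset.mem_range.2 hj) hcon

theorem Sys.snd_cproj (h : Sys n s) (j : ℕ) (hj : j < n) (x : Z) :
    (s j).2 (cproj s n x) = 0 := by
  rw [cproj_apply, proj_apply, map_sub, map_sum, Finset.sum_eq_single j]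
  · rw [map_smul, h.bi j hj j hj]; simp
  · intro i hi hij
    rw [map_smul, h.bi j hj i (Finset.mem_range.1 hi), if_neg (Ne.symm hij), smul_zero]
  · intro hcon
    exact absurd (Finset.mem_range.2 hj) hcon

theorem Sys.cproj_cproj (h : Sys n s) (x : Z) : cproj s n (cproj s n x) = cproj s n x := by
  have h1 : proj s n (cproj s n x) = 0 := by
    rw [proj_apply]
    refine Finset.sum_eq_zero (fun i hi => ?_)
    rw [h.snd_cproj i (Finset.mem_range.1 hi), zero_smul]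
  conv_lhs => rw [cproj_apply]
  rw [h1, sub_zero]

theorem proj_mem (s : ℕ → Z × (Z →L[ℂ] ℂ)) (n : ℕ) (x : Z) :
    proj s n x ∈ Submodule.span ℂ ((fun i => (s i).1) '' Set.Iio n) := by
  rw [proj_apply]
  refine Submodule.sum_mem _ (fun i hi => ?_)
  exact Submodule.smul_mem _ _ (Submodule.subset_span ⟨i, Finset.mem_range.1 hi, rfl⟩)

theorem comp_proj_mem (s : ℕ → Z × (Z →L[ℂ] ℂ)) (n : ℕ) (f : Z →L[ℂ] ℂ) :
    f.comp (proj s n) ∈ Submodule.span ℂ ((fun i => (s i).2) '' Set.Iio n) := by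
  have : f.comp (proj s n) = ∑ i ∈ Finset.range n, f (s i).1 • (s i).2 := by
    ext x
    simp only [ContinuousLinearMap.comp_apply, proj_apply, map_sum, map_smul, smul_eq_mul,
      sum_apply, smul_apply]
    exact Finset.sum_congr rfl (fun i _ => mul_comm _ _)
  rw [this]
  refine Submodule.sum_mem _ (fun i hi => ?_)
  exact Submodule.smul_mem _ _ (Submodule.subset_span ⟨i, Finset.mem_range.1 hi, rfl⟩)

/-- a new pair -/
structure NewPair (n : ℕ) (s : ℕ → Z × (Z →L[ℂ] ℂ)) (a : Z × (Z →L[ℂ] ℂ)) : Prop where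
  c1 : cproj s n a.1 = a.1
  c2 : ∀ x, a.2 (cproj s n x) = a.2 x
  e : a.2 a.1 = 1
  m1 : ‖a.1‖ = 1
  m2 : ‖a.2‖ ≤ 2 * 3 ^ n

theorem Sys.update (h : Sys n s) {a : Z × (Z →L[ℂ] ℂ)} (ha : NewPair n s a) :
    Sys (n + 1) (Function.update s n a) := by
  have h1 : ∀ j, j < n → (s j).2 a.1 = 0 := by
    intro j hj
    rw [← ha.c1]; exact h.snd_cproj j hj _
  have h2 : ∀ j, j < n → a.2 (s j).1 = 0 := by
    intro j hj
    rw [← ha.c2, h.cproj_fst j hj, map_zero]
  refine ⟨?_, ?_, ?_⟩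
  · intro i hi j hj
    rcases Nat.lt_succ_iff_lt_or_eq.1 hi with hi' | hi' <;>
      rcases Nat.lt_succ_iff_lt_or_eq.1 hj with hj' | hj'
    · rw [Function.update_of_ne hi'.ne, Function.update_of_ne hj'.ne]
      exact h.bi i hi' j hj'
    · rw [Function.update_of_ne hi'.ne, hj', Function.update_self, if_neg hi'.ne]
      exact h1 i hi'
    · rw [Function.update_of_ne hj'.ne, hi', Function.update_self, if_neg (Ne.symm hj'.ne)]
      exact h2 j hj'
    · rw [hi', hj', Function.update_self, if_pos rfl]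
      exact ha.e
  · intro i hi
    rcases Nat.lt_succ_iff_lt_or_eq.1 hi with hi' | hi'
    · rw [Function.update_of_ne hi'.ne]; exact h.n1 i hi'
    · rw [hi', Function.update_self]; exact ha.m1
  · intro i hi
    rcases Nat.lt_succ_iff_lt_or_eq.1 hi with hi' | hi'
    · rw [Function.update_of_ne hi'.ne]; exact h.n2 i hi'
    · rw [hi', Function.update_self]; exact ha.m2

theorem Sys.stepA0 (h : Sys n s) (d : Z) (hd : cproj s n d ≠ 0) :
    ∃ a : Z × (Z →L[ℂ] ℂ), NewPair n s a ∧ cproj s n d ∈ Submodule.span ℂ {a.1} := by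
  set u := cproj s n d with hu
  have hu0 : 0 < ‖u‖ := norm_pos_iff.2 hd
  have huc : (‖u‖ : ℂ) ≠ 0 := by exact_mod_cast hu0.ne'
  have hcu : cproj s n u = u := h.cproj_cproj d
  obtain ⟨f, hf1, hf2⟩ := exists_dual_vector ℂ u (norm_ne_zero_iff.2 hd)
  refine ⟨((‖u‖ : ℂ)⁻¹ • u, f.comp (cproj s n)), ⟨?_, ?_, ?_, ?_, ?_⟩, ?_⟩
  · change cproj s n ((‖u‖ : ℂ)⁻¹ • u) = (‖u‖ : ℂ)⁻¹ • u
    rw [map_smul, hcu]
  · intro x
    change f (cproj s n (cproj s n x)) = f (cproj s n x)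
    rw [h.cproj_cproj]
  · change f (cproj s n ((‖u‖ : ℂ)⁻¹ • u)) = 1
    rw [map_smul, hcu, map_smul, hf2, smul_eq_mul]
    exact inv_mul_cancel₀ huc
  · change ‖(‖u‖ : ℂ)⁻¹ • u‖ = 1
    rw [norm_smul, norm_inv, Complex.norm_real, norm_norm]
    exact inv_mul_cancel₀ hu0.ne'
  · change ‖f.comp (cproj s n)‖ ≤ 2 * 3 ^ n
    calc ‖f.comp (cproj s n)‖ ≤ ‖f‖ * ‖cproj s n‖ := f.opNorm_comp_le _
      _ ≤ 1 * 3 ^ n := by
          rw [hf1]
          gcongr
          exact h.norm_cproj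
      _ ≤ 2 * 3 ^ n := by
          have : (0 : ℝ) < 3 ^ n := by positivity
          linarith
  · change u ∈ Submodule.span ℂ {(‖u‖ : ℂ)⁻¹ • u}
    rw [Submodule.mem_span_singleton]
    exact ⟨(‖u‖ : ℂ), by rw [smul_smul, mul_inv_cancel₀ huc, one_smul]⟩

theorem exists_cproj_ne (hZ : ¬ FiniteDimensional ℂ Z) (s : ℕ → Z × (Z →L[ℂ] ℂ)) (n : ℕ) :
    ∃ d, cproj s n d ≠ 0 := by
  by_contra hcon
  push Not at hcon
  apply hZ
  have h1 : Submodule.span ℂ ((fun i => (s i).1) '' Set.Iio n) = ⊤ := by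
    rw [eq_top_iff]
    intro x _
    have h2 := hcon x
    rw [cproj_apply, sub_eq_zero] at h2
    rw [h2]
    exact proj_mem s n x
  have h3 : FiniteDimensional ℂ (Submodule.span ℂ ((fun i => (s i).1) '' Set.Iio n)) :=
    FiniteDimensional.span_of_finite ℂ ((Set.finite_Iio n).image _)
  rw [h1] at h3
  exact (LinearEquiv.finiteDimensional (Submodule.topEquiv : (⊤ : Submodule ℂ Z) ≃ₗ[ℂ] Z))

theorem Sys.stepA (hZ : ¬ FiniteDimensional ℂ Z) (h : Sys n s) (d : Z) :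
    ∃ a : Z × (Z →L[ℂ] ℂ), NewPair n s a ∧
      (cproj s n d ∈ Submodule.span ℂ {a.1}) := by
  by_cases hd : cproj s n d = 0
  · obtain ⟨d', hd'⟩ := exists_cproj_ne hZ s n
    obtain ⟨a, ha, -⟩ := h.stepA0 d' hd'
    refine ⟨a, ha, ?_⟩
    rw [hd]; exact Submodule.zero_mem _
  · exact h.stepA0 d hd

theorem Sys.stepB (hZ : ¬ FiniteDimensional ℂ Z) (h : Sys n s) (f : Z →L[ℂ] ℂ) :
    ∃ a : Z × (Z →L[ℂ] ℂ), NewPair n s a ∧
      (f.comp (cproj s n) ∈ Submodule.span ℂ {a.2}) := by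
  by_cases hf : f.comp (cproj s n) = 0
  · obtain ⟨d', hd'⟩ := exists_cproj_ne hZ s n
    obtain ⟨a, ha, -⟩ := h.stepA0 d' hd'
    refine ⟨a, ha, ?_⟩
    rw [hf]; exact Submodule.zero_mem _
  · set φ := f.comp (cproj s n) with hφ
    have hφ0 : 0 < ‖φ‖ := norm_pos_iff.2 hf
    obtain ⟨x, hx1, hx2⟩ := φ.exists_lt_apply_of_lt_opNorm (half_lt_self hφ0)
    set u := cproj s n x with hu
    have hcu : cproj s n u = u := h.cproj_cproj x
    have hφφ : ∀ y, φ (cproj s n y) = φ y := by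
      intro y
      change f (cproj s n (cproj s n y)) = f (cproj s n y)
      rw [h.cproj_cproj]
    have hφu : φ u = φ x := hφφ x
    have hφx : φ x ≠ 0 := by
      intro h0
      rw [h0, norm_zero] at hx2
      linarith
    have hu' : u ≠ 0 := by
      intro h0
      rw [h0, map_zero] at hφu
      exact hφx hφu.symm
    have hu0 : 0 < ‖u‖ := norm_pos_iff.2 hu'
    have huc : (‖u‖ : ℂ) ≠ 0 := by exact_mod_cast hu0.ne'
    refine ⟨((‖u‖ : ℂ)⁻¹ • u, ((‖u‖ : ℂ) * (φ x)⁻¹) • φ), ⟨?_, ?_, ?_, ?_, ?_⟩, ?_⟩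
    · change cproj s n ((‖u‖ : ℂ)⁻¹ • u) = (‖u‖ : ℂ)⁻¹ • u
      rw [map_smul, hcu]
    · intro y
      change (((‖u‖ : ℂ) * (φ x)⁻¹) • φ) (cproj s n y) = (((‖u‖ : ℂ) * (φ x)⁻¹) • φ) y
      rw [smul_apply, smul_apply, hφφ]
    · change (((‖u‖ : ℂ) * (φ x)⁻¹) • φ) ((‖u‖ : ℂ)⁻¹ • u) = 1
      rw [map_smul, smul_apply, hφu, smul_eq_mul, smul_eq_mul]
      field_simp
    · change ‖(‖u‖ : ℂ)⁻¹ • u‖ = 1
      rw [norm_smul, norm_inv, Complex.norm_real, norm_norm]
      exact inv_mul_cancel₀ hu0.ne'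
    · change ‖((‖u‖ : ℂ) * (φ x)⁻¹) • φ‖ ≤ 2 * 3 ^ n
      rw [norm_smul, norm_mul, norm_inv, Complex.norm_real, norm_norm]
      have h1 : ‖u‖ ≤ 3 ^ n := by
        calc ‖u‖ ≤ ‖cproj s n‖ * ‖x‖ := (cproj s n).le_opNorm x
          _ ≤ 3 ^ n * 1 := by
              gcongr
              exact h.norm_cproj
          _ = 3 ^ n := mul_one _
      have h2 : 0 < ‖φ x‖ := norm_pos_iff.2 hφx
      have h3 : ‖φ x‖⁻¹ * ‖φ‖ ≤ 2 := by
        rw [inv_mul_le_iff₀ h2]
        linarith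
      calc ‖u‖ * ‖φ x‖⁻¹ * ‖φ‖ = ‖u‖ * (‖φ x‖⁻¹ * ‖φ‖) := by ring
        _ ≤ 3 ^ n * 2 := by gcongr
        _ = 2 * 3 ^ n := by ring
    · change φ ∈ Submodule.span ℂ {((‖u‖ : ℂ) * (φ x)⁻¹) • φ}
      rw [Submodule.mem_span_singleton]
      refine ⟨((‖u‖ : ℂ) * (φ x)⁻¹)⁻¹, ?_⟩
      rw [smul_smul, inv_mul_cancel₀, one_smul]
      exact mul_ne_zero huc (inv_ne_zero hφx)

theorem span_mono_update (s : ℕ → Z × (Z →L[ℂ] ℂ)) (n : ℕ) (a : Z × (Z →L[ℂ] ℂ)) :
    Submodule.span ℂ ((fun i => (s i).1) '' Set.Iio n) ≤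
      Submodule.span ℂ ((fun i => (Function.update s n a i).1) '' Set.Iio (n + 1)) := by
  apply Submodule.span_mono
  rintro _ ⟨i, hi, rfl⟩
  refine ⟨i, (lt_trans hi (Nat.lt_succ_self n) : i < n + 1), ?_⟩
  change (Function.update s n a i).1 = (s i).1
  rw [Function.update_of_ne (ne_of_lt hi)]

theorem span_mono_update' (s : ℕ → Z × (Z →L[ℂ] ℂ)) (n : ℕ) (a : Z × (Z →L[ℂ] ℂ)) :
    Submodule.span ℂ ((fun i => (s i).2) '' Set.Iio n) ≤
      Submodule.span ℂ ((fun i => (Function.update s n a i).2) '' Set.Iio (n + 1)) := by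
  apply Submodule.span_mono
  rintro _ ⟨i, hi, rfl⟩
  refine ⟨i, (lt_trans hi (Nat.lt_succ_self n) : i < n + 1), ?_⟩
  change (Function.update s n a i).2 = (s i).2
  rw [Function.update_of_ne (ne_of_lt hi)]

theorem mem_span_update (s : ℕ → Z × (Z →L[ℂ] ℂ)) (n : ℕ) (a : Z × (Z →L[ℂ] ℂ)) (d : Z)
    (hd : cproj s n d ∈ Submodule.span ℂ {a.1}) :
    d ∈ Submodule.span ℂ ((fun i => (Function.update s n a i).1) '' Set.Iio (n + 1)) := by
  have h1 : d = proj s n d + cproj s n d := by rw [cproj_apply]; abel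
  rw [h1]
  refine Submodule.add_mem _ (span_mono_update s n a (proj_mem s n d)) ?_
  refine Submodule.span_mono ?_ hd
  rw [Set.singleton_subset_iff]
  refine ⟨n, (Nat.lt_succ_self n : n < n + 1), ?_⟩
  change (Function.update s n a n).1 = a.1
  rw [Function.update_self]

theorem mem_span_update' (s : ℕ → Z × (Z →L[ℂ] ℂ)) (n : ℕ) (a : Z × (Z →L[ℂ] ℂ))
    (f : Z →L[ℂ] ℂ) (hf : f.comp (cproj s n) ∈ Submodule.span ℂ {a.2}) :
    f ∈ Submodule.span ℂ ((fun i => (Function.update s n a i).2) '' Set.Iio (n + 1)) := by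
  have h1 : f = f.comp (proj s n) + f.comp (cproj s n) := by
    ext x
    simp [cproj_apply]
  rw [h1]
  refine Submodule.add_mem _ (span_mono_update' s n a (comp_proj_mem s n f)) ?_
  refine Submodule.span_mono ?_ hf
  rw [Set.singleton_subset_iff]
  refine ⟨n, (Nat.lt_succ_self n : n < n + 1), ?_⟩
  change (Function.update s n a n).2 = a.2
  rw [Function.update_self]

/-- a countable total set of functionals -/
theorem exists_total [TopologicalSpace.SeparableSpace Z] :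
    ∃ f : ℕ → (Z →L[ℂ] ℂ), ∀ x, (∀ k, f k x = 0) → x = 0 := by
  obtain ⟨d, hd⟩ := TopologicalSpace.exists_dense_seq Z
  have hex : ∀ k, ∃ f : Z →L[ℂ] ℂ, ‖f‖ ≤ 1 ∧ f (d k) = (‖d k‖ : ℂ) := by
    intro k
    by_cases h : d k = 0
    · exact ⟨0, by simp, by simp [h]⟩
    · obtain ⟨f, h1, h2⟩ := exists_dual_vector ℂ (d k) (norm_ne_zero_iff.2 h)
      exact ⟨f, h1.le, h2⟩
  choose f hf1 hf2 using hex
  refine ⟨f, fun x hx => ?_⟩
  by_contra hne
  have hx0 : 0 < ‖x‖ := norm_pos_iff.2 hne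
  obtain ⟨y, ⟨k, rfl⟩, hk⟩ := Metric.mem_closure_iff.1 (hd x) (‖x‖ / 4) (by positivity)
  rw [dist_eq_norm] at hk
  have h1 : ‖d k‖ ≤ ‖x - d k‖ := by
    have h2 : f k (d k - x) = (‖d k‖ : ℂ) := by rw [map_sub, hx k, sub_zero, hf2]
    calc ‖d k‖ = ‖(‖d k‖ : ℂ)‖ := by rw [Complex.norm_real, norm_norm]
      _ = ‖f k (d k - x)‖ := by rw [h2]
      _ ≤ ‖f k‖ * ‖d k - x‖ := (f k).le_opNorm _
      _ ≤ 1 * ‖d k - x‖ := by gcongr; exact hf1 k
      _ = ‖x - d k‖ := by rw [one_mul, norm_sub_rev]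
  have h3 : ‖x‖ ≤ ‖x - d k‖ + ‖d k‖ := by
    calc ‖x‖ = ‖(x - d k) + d k‖ := by rw [sub_add_cancel]
      _ ≤ _ := norm_add_le _ _
  linarith

theorem exists_mbasis [TopologicalSpace.SeparableSpace Z] (hZ : ¬ FiniteDimensional ℂ Z) :
    ∃ (z : ℕ → Z) (z' : ℕ → (Z →L[ℂ] ℂ)),
      (∀ m n, z' m (z n) = if m = n then 1 else 0) ∧ (∀ n, ‖z n‖ = 1) ∧
      (∀ n, ‖z' n‖ ≤ 2 * 3 ^ n) ∧ Dense (Submodule.span ℂ (Set.range z) : Set Z) ∧
      (∀ x, (∀ n, z' n x = 0) → x = 0) := by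
  classical
  have hne : Nonempty Z := ⟨0⟩
  obtain ⟨d, hd⟩ := TopologicalSpace.exists_dense_seq Z
  obtain ⟨f, hf⟩ := exists_total (Z := Z)
  let Good : ℕ → (ℕ → Z × (Z →L[ℂ] ℂ)) → Prop := fun n s =>
    Sys n s ∧
    (∀ k, 2 * k < n → d k ∈ Submodule.span ℂ ((fun i => (s i).1) '' Set.Iio n)) ∧
    (∀ k, 2 * k + 1 < n → f k ∈ Submodule.span ℂ ((fun i => (s i).2) '' Set.Iio n))
  obtain ⟨s, hs⟩ := exists_seq_of_step ((0, 0) : Z × (Z →L[ℂ] ℂ)) Good
    (fun s => ⟨⟨fun i hi => absurd hi (Nat.not_lt_zero i), fun i hi => absurd hi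
      (Nat.not_lt_zero i), fun i hi => absurd hi (Nat.not_lt_zero i)⟩,
      fun k hk => absurd hk (Nat.not_lt_zero _), fun k hk => absurd hk (Nat.not_lt_zero _)⟩)
    (by
      rintro n s t hst ⟨h1, h2, h3⟩
      have e1 : (fun i => (s i).1) '' Set.Iio n = (fun i => (t i).1) '' Set.Iio n := by
        apply Set.image_congr
        intro i hi
        rw [hst i hi]
      have e2 : (fun i => (s i).2) '' Set.Iio n = (fun i => (t i).2) '' Set.Iio n := by
        apply Set.image_congr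
        intro i hi
        rw [hst i hi]
      refine ⟨⟨?_, ?_, ?_⟩, ?_, ?_⟩
      · intro i hi j hj
        rw [← hst i hi, ← hst j hj]; exact h1.bi i hi j hj
      · intro i hi
        rw [← hst i hi]; exact h1.n1 i hi
      · intro i hi
        rw [← hst i hi]; exact h1.n2 i hi
      · intro k hk; rw [← e1]; exact h2 k hk
      · intro k hk; rw [← e2]; exact h3 k hk)
    (by
      rintro n s ⟨h1, h2, h3⟩
      rcases Nat.even_or_odd' n with ⟨k, hk | hk⟩
      · obtain ⟨a, ha, hda⟩ := h1.stepA hZ (d k)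
        refine ⟨a, h1.update ha, ?_, ?_⟩
        · intro j hj
          by_cases hjk : j = k
          · rw [hjk]; exact mem_span_update s n a (d k) hda
          · exact span_mono_update s n a (h2 j (by omega))
        · intro j hj
          exact span_mono_update' s n a (h3 j (by omega))
      · obtain ⟨a, ha, hfa⟩ := h1.stepB hZ (f k)
        refine ⟨a, h1.update ha, ?_, ?_⟩
        · intro j hj
          exact span_mono_update s n a (h2 j (by omega))
        · intro j hj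
          by_cases hjk : j = k
          · rw [hjk]; exact mem_span_update' s n a (f k) hfa
          · exact span_mono_update' s n a (h3 j (by omega)))
  refine ⟨fun n => (s n).1, fun n => (s n).2, ?_, ?_, ?_, ?_, ?_⟩
  · intro m n
    exact (hs (max m n + 1)).1.bi m (by omega) n (by omega)
  · intro n
    exact (hs (n + 1)).1.n1 n (by omega)
  · intro n
    exact (hs (n + 1)).1.n2 n (by omega)
  · refine hd.mono ?_
    rintro _ ⟨k, rfl⟩
    refine Submodule.span_mono ?_ ((hs (2 * k + 1)).2.1 k (by omega))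
    exact Set.image_subset_range _ _
  · intro x hx
    apply hf
    intro k
    have h1 := (hs (2 * k + 2)).2.2 k (by omega)
    have h2 : ∀ φ ∈ Submodule.span ℂ ((fun i => (s i).2) '' Set.Iio (2 * k + 2)),
        (φ : Z →L[ℂ] ℂ) x = 0 := by
      intro φ hφ
      induction hφ using Submodule.span_induction with
      | mem φ hφ =>
        obtain ⟨i, -, rfl⟩ := hφ
        exact hx i
      | zero => simp
      | add a b _ _ ha hb => rw [add_apply, ha, hb, add_zero]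
      | smul c a _ ha => rw [smul_apply, ha, smul_zero]
    exact h2 _ h1

end mbasis

end Pool.Agent.H272.IS
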