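import Pool.Agent.H272.IS.MBasis

/-!
# The normal form: operators without invariant subspaces are, up to a change of the space, of the
form `(R ⊕ 0) + K` with `K` as rapidly nuclear as we please.
-/

set_option autoImplicit false

namespace Pool.Agent.H272.IS

open Filter Topology

section nuc

variable {X : Type*} [NormedAddCommGroup X] [NormedSpace ℂ X]
variable {Y : Type*} [NormedAddCommGroup Y] [NormedSpace ℂ Y] [CompleteSpace Y]

/-- the nuclear operator `x ↦ ∑ f n x • y n` -/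
noncomputable def nuc (f : ℕ → (X →L[ℂ] ℂ)) (y : ℕ → Y) : X →L[ℂ] Y :=
  ∑' n, (f n).smulRight (y n)

theorem nuc_summable {f : ℕ → (X →L[ℂ] ℂ)} {y : ℕ → Y} (h : Summable fun n => ‖f n‖ * ‖y n‖) :
    Summable fun n => (f n).smulRight (y n) := by
  refine Summable.of_norm ?_
  simpa [ContinuousLinearMap.norm_smulRight_apply] using h

theorem nuc_hasSum {f : ℕ → (X →L[ℂ] ℂ)} {y : ℕ → Y} (h : Summable fun n => ‖f n‖ * ‖y n‖)
    (x : X) : HasSum (fun n => f n x • y n) (nuc f y x) := by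
  have h1 := (nuc_summable h).hasSum
  have h2 := h1.mapL (ContinuousLinearMap.apply ℂ Y x)
  simpa [nuc] using h2

theorem norm_nuc_le {f : ℕ → (X →L[ℂ] ℂ)} {y : ℕ → Y} {b : ℕ → ℝ} {c : ℝ} (hb : HasSum b c)
    (h : ∀ n, ‖f n‖ * ‖y n‖ ≤ b n) : ‖nuc f y‖ ≤ c := by
  refine tsum_of_norm_bounded hb (fun n => ?_)
  rw [ContinuousLinearMap.norm_smulRight_apply]
  exact h n

end nuc

/-- `K` is a series of operators of rank one whose norms are at most `a n` -/
def Rapid {X : Type*} [NormedAddCommGroup X] [NormedSpace ℂ X] (a : ℕ → ℝ) (K : X →L[ℂ] X) :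
    Prop :=
  ∃ (f : ℕ → (X →L[ℂ] ℂ)) (y : ℕ → X), (∀ n, ‖f n‖ * ‖y n‖ ≤ a n) ∧
    ∀ x, HasSum (fun n => f n x • y n) (K x)

section abstract

variable {X : Type*} [NormedAddCommGroup X] [NormedSpace ℂ X] [CompleteSpace X]
variable {W : Type*} [NormedAddCommGroup W] [NormedSpace ℂ W] [CompleteSpace W]
variable {Z : Type*} [NormedAddCommGroup Z] [NormedSpace ℂ Z] [CompleteSpace Z]

/-- the factorisation `T = A B` through `W × Z` -/
theorem abstract_factor {T : X →L[ℂ] X}
    (π : X →L[ℂ] W) (hπ : Function.Surjective π) (hπn : ‖π‖ ≤ 1)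
    (A₁ : W →L[ℂ] X) (hA₁ : Function.Injective A₁) (Nm : ℝ) (hNm : ‖A₁‖ + 1 ≤ Nm)
    (a : ℕ → ℝ) (δ : ℕ → ℝ)
    (hδ1 : ∀ n, 2 * 3 ^ n * δ n ≤ a (2 * n)) (hδ2 : ∀ n, δ n * Nm ≤ a (2 * n + 1))
    (hδ3 : ∀ n, 2 * 3 ^ n * δ n ≤ (1 / 2) ^ (n + 1)) (hδ0 : ∀ n, 0 < δ n)
    (g : ℕ → X) (h : ℕ → (X →L[ℂ] ℂ)) (hgh : ∀ m n, h m (T (g n)) = if m = n then 1 else 0)
    (hg : ∀ n, ‖T (g n)‖ ≤ δ n) (hh : ∀ n, ‖(h n).comp T‖ ≤ δ n)
    (hA : ∀ x, HasSum (fun n => h n (T x) • T (g n)) (T x - A₁ (π x)))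
    (z : ℕ → Z) (z' : ℕ → (Z →L[ℂ] ℂ)) (hzz : ∀ m n, z' m (z n) = if m = n then 1 else 0)
    (hz1 : ∀ n, ‖z n‖ = 1) (hz2 : ∀ n, ‖z' n‖ ≤ 2 * 3 ^ n)
    (hz3 : Dense (Submodule.span ℂ (Set.range z) : Set Z))
    (hz4 : ∀ x, (∀ n, z' n x = 0) → x = 0) :
    ∃ (A : (W × Z) →L[ℂ] X) (B : X →L[ℂ] (W × Z)), A ∘L B = T ∧ Function.Injective A ∧
      DenseRange B ∧ Rapid a (B ∘L A - (π ∘L A₁).prodMap (0 : Z →L[ℂ] Z)) := by
  classical
  have hpow : HasSum (fun n : ℕ => (1 / 2 : ℝ) ^ (n + 1)) 1 := by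
    have h1 := hasSum_geometric_two.mul_left (1 / 2 : ℝ)
    have h2 : (1 / 2 : ℝ) * 2 = 1 := by norm_num
    rw [h2] at h1
    refine h1.congr_fun ?_ |> fun h => h
    intro n
    rw [pow_succ]; ring
  have hδ4 : ∀ n, δ n ≤ (1 / 2) ^ (n + 1) := by
    intro n
    refine le_trans ?_ (hδ3 n)
    have h3 : (1 : ℝ) ≤ 3 ^ n := one_le_pow₀ (by norm_num)
    nlinarith [hδ0 n]
  have hCb : ∀ n, ‖z' n‖ * ‖T (g n)‖ ≤ (1 / 2) ^ (n + 1) := by
    intro n
    refine le_trans ?_ (hδ3 n)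
    have : (0 : ℝ) ≤ 2 * 3 ^ n := by positivity
    exact mul_le_mul (hz2 n) (hg n) (norm_nonneg _) this
  have hCs : Summable fun n => ‖z' n‖ * ‖T (g n)‖ :=
    Summable.of_nonneg_of_le (fun n => by positivity) hCb hpow.summable
  have hRb : ∀ n, ‖(h n).comp T‖ * ‖z n‖ ≤ (1 / 2) ^ (n + 1) := by
    intro n
    rw [hz1, mul_one]
    exact (hh n).trans (hδ4 n)
  have hRs : Summable fun n => ‖(h n).comp T‖ * ‖z n‖ :=
    Summable.of_nonneg_of_le (fun n => by positivity) hRb hpow.summable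
  set C : Z →L[ℂ] X := nuc z' (fun n => T (g n)) with hC
  set R₀ : X →L[ℂ] Z := nuc (fun n => (h n).comp T) z with hR₀
  have hCsum : ∀ x, HasSum (fun n => z' n x • T (g n)) (C x) := fun x => nuc_hasSum hCs x
  have hRsum : ∀ x, HasSum (fun n => h n (T x) • z n) (R₀ x) := fun x => nuc_hasSum hRs x
  have hCn : ‖C‖ ≤ 1 := norm_nuc_le hpow hCb
  -- coordinates
  have hzR : ∀ m x, z' m (R₀ x) = h m (T x) := by
    intro m x
    have h1 := (hRsum x).mapL (z' m)
    have h2 : HasSum (fun n => z' m (h n (T x) • z n)) (h m (T x)) := by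
      have h3 := hasSum_ite_eq m (h m (T x))
      refine h3.congr_fun ?_ |> fun h => h
      intro n
      rw [map_smul, hzz, smul_eq_mul]
      by_cases hmn : m = n
      · rw [if_pos hmn, if_pos hmn.symm, mul_one, hmn]
      · rw [if_neg hmn, if_neg (Ne.symm hmn), mul_zero]
    exact h1.unique h2
  have hhC : ∀ m x, h m (C x) = z' m x := by
    intro m x
    have h1 := (hCsum x).mapL (h m)
    have h2 : HasSum (fun n => h m (z' n x • T (g n))) (z' m x) := by
      have h3 := hasSum_ite_eq m (z' m x)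
      refine h3.congr_fun ?_ |> fun h => h
      intro n
      rw [map_smul, hgh, smul_eq_mul]
      by_cases hmn : m = n
      · rw [if_pos hmn, if_pos hmn.symm, mul_one, hmn]
      · rw [if_neg hmn, if_neg (Ne.symm hmn), mul_zero]
    exact h1.unique h2
  have hCR : ∀ x, C (R₀ x) = T x - A₁ (π x) := by
    intro x
    have h1 := hCsum (R₀ x)
    simp only [hzR] at h1
    exact h1.unique (hA x)
  set A : (W × Z) →L[ℂ] X := A₁.coprod C with hAdef
  set B : X →L[ℂ] (W × Z) := π.prod R₀ with hBdef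
  have hAapp : ∀ w u, A (w, u) = A₁ w + C u := fun w u => rfl
  have hBapp : ∀ x, B x = (π x, R₀ x) := fun x => rfl
  have hAB : A ∘L B = T := by
    ext x
    rw [ContinuousLinearMap.comp_apply, hBapp, hAapp, hCR]
    abel
  have hAinj : Function.Injective A := by
    rw [injective_iff_map_eq_zero]
    rintro ⟨w, u⟩ hwu
    obtain ⟨x, rfl⟩ := hπ w
    rw [hAapp] at hwu
    have h1 : T x = C (R₀ x - u) := by
      rw [map_sub, hCR]
      have : A₁ (π x) = - C u := eq_neg_of_add_eq_zero_left hwu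
      rw [this]; abel
    have h2 : ∀ m, z' m u = 0 := by
      intro m
      have h3 : h m (T x) = z' m (R₀ x - u) := by rw [h1, hhC]
      rw [map_sub, hzR] at h3
      have : z' m u = h m (T x) - h m (T x) := by
        rw [eq_sub_iff_add_eq, add_comm]
        rw [eq_sub_iff_add_eq] at h3
        exact h3
      rw [this, sub_self]
    have h4 : u = 0 := hz4 u h2
    have h5 : A₁ (π x) = 0 := by
      rw [h4, map_zero, add_zero] at hwu
      exact hwu
    have h6 : π x = 0 := hA₁ (by rw [h5, map_zero])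
    rw [h6, h4]; rfl
  have hBd : DenseRange B := by
    -- `g n` is mapped to `(0, z n)`
    have hBg : ∀ n, B (g n) = (0, z n) := by
      intro n
      have h1 : T (g n) - A₁ (π (g n)) = T (g n) := by
        have h2 : HasSum (fun m => h m (T (g n)) • T (g m)) (T (g n)) := by
          have h3 := hasSum_ite_eq n (T (g n))
          refine h3.congr_fun ?_ |> fun h => h
          intro m
          rw [hgh]
          by_cases hmn : m = n
          · rw [if_pos hmn, if_pos hmn, one_smul, hmn]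
          · rw [if_neg hmn, if_neg hmn, zero_smul]
        exact (hA (g n)).unique h2
      have h4 : A₁ (π (g n)) = 0 := by
        have := sub_eq_self.1 h1
        exact this
      have h5 : π (g n) = 0 := hA₁ (by rw [h4, map_zero])
      have h6 : R₀ (g n) = z n := by
        have h2 : HasSum (fun m => h m (T (g n)) • z m) (z n) := by
          have h3 := hasSum_ite_eq n (z n)
          refine h3.congr_fun ?_ |> fun h => h
          intro m
          rw [hgh]
          by_cases hmn : m = n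
          · rw [if_pos hmn, if_pos hmn, one_smul, hmn]
          · rw [if_neg hmn, if_neg hmn, zero_smul]
        exact (hRsum (g n)).unique h2
      rw [hBapp, h5, h6]
    have hcl : ∀ p : W × Z, p ∈ (LinearMap.range (B : X →ₗ[ℂ] W × Z)).topologicalClosure := by
      set U := (LinearMap.range (B : X →ₗ[ℂ] W × Z)).topologicalClosure with hU
      have hUc : IsClosed (U : Set (W × Z)) := Submodule.isClosed_topologicalClosure _
      have h0z : ∀ u : Z, ((0 : W), u) ∈ U := by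
        have h7 : IsClosed {u : Z | ((0 : W), u) ∈ U} :=
          hUc.preimage (Continuous.prodMk continuous_const continuous_id)
        have h8 : ∀ u ∈ Submodule.span ℂ (Set.range z), ((0 : W), u) ∈ U := by
          intro u hu
          induction hu using Submodule.span_induction with
          | mem u hu =>
            obtain ⟨n, rfl⟩ := hu
            rw [← hBg]
            exact Submodule.le_topologicalClosure _ ⟨g n, rfl⟩
          | zero => exact Submodule.zero_mem _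
          | add p q _ _ hp hq =>
            have := Submodule.add_mem _ hp hq
            simpa using this
          | smul c p _ hp =>
            have := Submodule.smul_mem _ c hp
            simpa using this
        intro u
        have h9 : closure (Submodule.span ℂ (Set.range z) : Set Z) ⊆
            {u : Z | ((0 : W), u) ∈ U} := closure_minimal h8 h7
        exact h9 (hz3 u)
      rintro ⟨w, u⟩
      obtain ⟨x, rfl⟩ := hπ w
      have h10 : B x ∈ U := Submodule.le_topologicalClosure _ ⟨x, rfl⟩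
      have h11 := Submodule.add_mem _ h10 (h0z (u - R₀ x))
      rw [hBapp] at h11
      simpa using h11
    intro p
    have := hcl p
    rw [← SetLike.mem_coe, Submodule.topologicalClosure_coe] at this
    exact this
  have hAn : ‖A‖ ≤ Nm := by
    refine le_trans ?_ hNm
    refine ContinuousLinearMap.opNorm_le_bound _ (by positivity) ?_
    rintro ⟨w, u⟩
    rw [hAapp]
    calc ‖A₁ w + C u‖ ≤ ‖A₁ w‖ + ‖C u‖ := norm_add_le _ _
      _ ≤ ‖A₁‖ * ‖w‖ + ‖C‖ * ‖u‖ := add_le_add (A₁.le_opNorm w) (C.le_opNorm u)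
      _ ≤ ‖A₁‖ * ‖((w, u) : W × Z)‖ + 1 * ‖((w, u) : W × Z)‖ := by
          gcongr
          · exact le_max_left _ _
          · exact le_max_right _ _
      _ = (‖A₁‖ + 1) * ‖((w, u) : W × Z)‖ := by ring
  refine ⟨A, B, hAB, hAinj, hBd, ?_⟩
  let f : ℕ → ((W × Z) →L[ℂ] ℂ) := fun n =>
    if n % 2 = 0 then (z' (n / 2)).comp (ContinuousLinearMap.snd ℂ W Z)
    else ((h (n / 2)).comp T).comp A
  let y : ℕ → W × Z := fun n =>
    if n % 2 = 0 then (π (T (g (n / 2))), 0) else (0, z (n / 2))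
  have f0 : ∀ n, f (2 * n) = (z' n).comp (ContinuousLinearMap.snd ℂ W Z) := by
    intro n
    have h1 : 2 * n % 2 = 0 := by omega
    have h2 : 2 * n / 2 = n := by omega
    simp only [f, h1, h2, if_true]
  have f1 : ∀ n, f (2 * n + 1) = ((h n).comp T).comp A := by
    intro n
    have h1 : (2 * n + 1) % 2 ≠ 0 := by omega
    have h2 : (2 * n + 1) / 2 = n := by omega
    simp only [f, h1, h2, if_false]
  have y0 : ∀ n, y (2 * n) = (π (T (g n)), 0) := by
    intro n
    have h1 : 2 * n % 2 = 0 := by omega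
    have h2 : 2 * n / 2 = n := by omega
    simp only [y, h1, h2, if_true]
  have y1 : ∀ n, y (2 * n + 1) = (0, z n) := by
    intro n
    have h1 : (2 * n + 1) % 2 ≠ 0 := by omega
    have h2 : (2 * n + 1) / 2 = n := by omega
    simp only [y, h1, h2, if_false]
  refine ⟨f, y, ?_, ?_⟩
  · intro n
    rcases Nat.even_or_odd' n with ⟨k, rfl | rfl⟩
    · rw [f0, y0]
      have h1 : ‖(z' k).comp (ContinuousLinearMap.snd ℂ W Z)‖ ≤ 2 * 3 ^ k := by
        calc ‖(z' k).comp (ContinuousLinearMap.snd ℂ W Z)‖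
            ≤ ‖z' k‖ * ‖ContinuousLinearMap.snd ℂ W Z‖ := (z' k).opNorm_comp_le _
          _ ≤ 2 * 3 ^ k * 1 := by
              have : (0 : ℝ) ≤ 2 * 3 ^ k := by positivity
              exact mul_le_mul (hz2 k) (ContinuousLinearMap.norm_snd_le ..) (norm_nonneg _) this
          _ = 2 * 3 ^ k := mul_one _
      have h2 : ‖((π (T (g k)), 0) : W × Z)‖ ≤ δ k := by
        rw [Prod.norm_def]
        simp only [norm_zero]
        refine max_le ?_ (hδ0 k).le
        calc ‖π (T (g k))‖ ≤ ‖π‖ * ‖T (g k)‖ := π.le_opNorm _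
          _ ≤ 1 * δ k := by
              gcongr
              exact hg k
          _ = δ k := one_mul _
      refine le_trans ?_ (hδ1 k)
      have : (0 : ℝ) ≤ 2 * 3 ^ k := by positivity
      exact mul_le_mul h1 h2 (norm_nonneg _) this
    · rw [f1, y1]
      have h1 : ‖((h k).comp T).comp A‖ ≤ δ k * Nm := by
        calc ‖((h k).comp T).comp A‖ ≤ ‖(h k).comp T‖ * ‖A‖ := ContinuousLinearMap.opNorm_comp_le _ _
          _ ≤ δ k * Nm := mul_le_mul (hh k) hAn (norm_nonneg _) (hδ0 k).le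
      have h2 : ‖((0, z k) : W × Z)‖ = 1 := by
        rw [Prod.norm_def]
        simp [hz1]
      rw [h2, mul_one]
      exact h1.trans (hδ2 k)
  · rintro ⟨w, u⟩
    have hK : (B ∘L A - (π ∘L A₁).prodMap (0 : Z →L[ℂ] Z)) (w, u) =
        (π (C u), 0) + (0, R₀ (A (w, u))) := by
      change B (A (w, u)) - (π (A₁ w), (0 : Z)) = _
      rw [hBapp, hAapp, map_add]
      simp
    rw [hK]
    apply HasSum.even_add_odd
    · simp only [f0, y0]
      have h1 : HasSum (fun n => z' n u • π (T (g n))) (π (C u)) := by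
        have := (hCsum u).mapL π
        simpa only [map_smul] using this
      have h2 := (h1.mapL (ContinuousLinearMap.inl ℂ W Z))
      simpa using h2
    · simp only [f1, y1]
      have h1 := (hRsum (A (w, u))).mapL (ContinuousLinearMap.inr ℂ W Z)
      simpa using h1

theorem abstract_main {T : X →L[ℂ] X} (hT : NoInv T)
    (π : X →L[ℂ] W) (hπ : Function.Surjective π) (hπn : ‖π‖ ≤ 1)
    (A₁ : W →L[ℂ] X) (hA₁ : Function.Injective A₁) (Nm : ℝ) (hNm : ‖A₁‖ + 1 ≤ Nm)
    (a : ℕ → ℝ) (δ : ℕ → ℝ)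
    (hδ1 : ∀ n, 2 * 3 ^ n * δ n ≤ a (2 * n)) (hδ2 : ∀ n, δ n * Nm ≤ a (2 * n + 1))
    (hδ3 : ∀ n, 2 * 3 ^ n * δ n ≤ (1 / 2) ^ (n + 1)) (hδ0 : ∀ n, 0 < δ n)
    (g : ℕ → X) (h : ℕ → (X →L[ℂ] ℂ)) (hgh : ∀ m n, h m (T (g n)) = if m = n then 1 else 0)
    (hg : ∀ n, ‖T (g n)‖ ≤ δ n) (hh : ∀ n, ‖(h n).comp T‖ ≤ δ n)
    (hA : ∀ x, HasSum (fun n => h n (T x) • T (g n)) (T x - A₁ (π x)))
    (z : ℕ → Z) (z' : ℕ → (Z →L[ℂ] ℂ)) (hzz : ∀ m n, z' m (z n) = if m = n then 1 else 0)
    (hz1 : ∀ n, ‖z n‖ = 1) (hz2 : ∀ n, ‖z' n‖ ≤ 2 * 3 ^ n)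
    (hz3 : Dense (Submodule.span ℂ (Set.range z) : Set Z))
    (hz4 : ∀ x, (∀ n, z' n x = 0) → x = 0) :
    ∃ K : (W × Z) →L[ℂ] (W × Z), Rapid a K ∧
      NoInv ((π ∘L A₁).prodMap (0 : Z →L[ℂ] Z) + K) := by
  obtain ⟨A, B, hAB, hAinj, hBd, hR⟩ := abstract_factor π hπ hπn A₁ hA₁ Nm hNm a δ hδ1 hδ2 hδ3
    hδ0 g h hgh hg hh hA z z' hzz hz1 hz2 hz3 hz4
  refine ⟨_, hR, ?_⟩
  rw [add_sub_cancel]
  exact NoInv.swap hAinj hBd (by rw [hAB]; exact hT)

end abstract

end Pool.Agent.H272.IS
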