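import Pool.Agent.H272.IS.Transfer

/-!
# `ℓ_p`-decompositions into finite-dimensional subspaces

Spaces with a sequence of projections `P n` such that
`‖x‖ ^ p = ‖P n x‖ ^ p + ‖x - P n x‖ ^ p`, i.e. the `ℓ_p`-sums of finite-dimensional spaces.
For `1 < p < ∞` they are reflexive and have the property `CUS`.
-/

set_option autoImplicit false

namespace Pool.Agent.H272.IS

open Filter Topology

/-- an `ℓ_p`-decomposition into finite-dimensional subspaces -/
structure PDec {X : Type*} [NormedAddCommGroup X] [NormedSpace ℂ X] (p : ℝ)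
    (P : ℕ → (X →L[ℂ] X)) : Prop where
  comp : ∀ m n x, P m (P n x) = P (min m n) x
  tend : ∀ x, Tendsto (fun n => P n x) atTop (𝓝 x)
  fin : ∀ n, FiniteDimensional ℂ (LinearMap.range (P n : X →ₗ[ℂ] X))
  add : ∀ n x, ‖x‖ ^ p = ‖P n x‖ ^ p + ‖x - P n x‖ ^ p

section pdec

variable {X : Type*} [NormedAddCommGroup X] [NormedSpace ℂ X]
variable {p : ℝ} {P : ℕ → (X →L[ℂ] X)}

theorem PDec.norm_le (h : PDec p P) (hp : 1 < p) (n : ℕ) (x : X) : ‖P n x‖ ≤ ‖x‖ := by
  have h1 := h.add n x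
  have h2 : 0 ≤ ‖x - P n x‖ ^ p := Real.rpow_nonneg (norm_nonneg _) _
  have h3 : ‖P n x‖ ^ p ≤ ‖x‖ ^ p := by linarith
  exact (Real.rpow_le_rpow_iff (norm_nonneg _) (norm_nonneg _) (by linarith)).1 h3

theorem PDec.norm_sub_le (h : PDec p P) (hp : 1 < p) (n : ℕ) (x : X) : ‖x - P n x‖ ≤ ‖x‖ := by
  have h1 := h.add n x
  have h2 : 0 ≤ ‖P n x‖ ^ p := Real.rpow_nonneg (norm_nonneg _) _
  have h3 : ‖x - P n x‖ ^ p ≤ ‖x‖ ^ p := by linarith
  exact (Real.rpow_le_rpow_iff (norm_nonneg _) (norm_nonneg _) (by linarith)).1 h3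

theorem PDec.idem (h : PDec p P) (n : ℕ) (x : X) : P n (P n x) = P n x := by
  rw [h.comp, min_self]

/-- additivity for sums -/
theorem PDec.add' (h : PDec p P) (n : ℕ) {x y : X} (hx : P n x = x) (hy : P n y = 0) :
    ‖x + y‖ ^ p = ‖x‖ ^ p + ‖y‖ ^ p := by
  have h1 := h.add n (x + y)
  have h2 : P n (x + y) = x := by rw [map_add, hx, hy, add_zero]
  rw [h2, add_sub_cancel_left] at h1
  exact h1

theorem exists_phase (z : ℂ) : ∃ θ : ℂ, ‖θ‖ = 1 ∧ θ * z = ‖z‖ := by
  by_cases h0 : z = 0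
  · exact ⟨1, by simp, by simp [h0]⟩
  · refine ⟨(starRingEnd ℂ) z / ‖z‖, ?_, ?_⟩
    · rw [norm_div, Complex.norm_conj, Complex.norm_real, norm_norm]
      exact div_self (norm_ne_zero_iff.2 h0)
    · rw [div_mul_eq_mul_div, mul_comm, Complex.mul_conj, Complex.normSq_eq_norm_sq]
      have : (‖z‖ : ℂ) ≠ 0 := by
        exact_mod_cast norm_ne_zero_iff.2 h0
      field_simp
      push_cast
      ring

/-- the decomposition is shrinking -/
theorem PDec.shrink (h : PDec p P) (hp : 1 < p) (F : X →L[ℂ] ℂ) :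
    Tendsto (fun n => F - F.comp (P n)) atTop (𝓝 0) := by
  set s : ℕ → ℝ := fun n => ‖F - F.comp (P n)‖ with hs
  have hs0 : ∀ n, 0 ≤ s n := fun n => norm_nonneg _
  have happ : ∀ n x, (F - F.comp (P n)) x = F (x - P n x) := by
    intro n x
    simp
  have hsb : ∀ n y, P n y = 0 → ‖F y‖ ≤ s n * ‖y‖ := by
    intro n y hy
    have h1 := (F - F.comp (P n)).le_opNorm y
    rw [happ, hy, sub_zero] at h1
    exact h1
  have hanti : Antitone s := by
    intro m n hmn
    refine ContinuousLinearMap.opNorm_le_bound _ (hs0 m) (fun x => ?_)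
    rw [happ]
    have h1 : P m (x - P n x) = 0 := by
      rw [map_sub, h.comp, min_eq_left hmn, sub_self]
    exact (hsb m _ h1).trans (mul_le_mul_of_nonneg_left (h.norm_sub_le hp n x) (hs0 m))
  have hbdd : BddBelow (Set.range s) := ⟨0, by rintro _ ⟨n, rfl⟩; exact hs0 n⟩
  have hlim := tendsto_atTop_ciInf hanti hbdd
  set t : ℝ := ⨅ n, s n with ht
  have ht0 : 0 ≤ t := le_ciInf hs0
  have htle : ∀ n, t ≤ s n := fun n => ciInf_le hbdd n
  set r : ℝ := 2 ^ (1 / p) with hr
  have hp0 : 0 < p := by linarith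
  have hr2 : r < 2 := by
    have h1 : (2 : ℝ) ^ (1 / p) < 2 ^ (1 : ℝ) := by
      apply Real.rpow_lt_rpow_of_exponent_lt (by norm_num)
      rw [div_lt_one hp0]; exact hp
    rwa [Real.rpow_one] at h1
  -- almost norming vectors
  have hex : ∀ n, ∀ η > 0, ∃ y : X, P n y = 0 ∧ ‖y‖ ≤ 1 ∧ t - η < ‖F y‖ := by
    intro n η hη
    obtain ⟨x, hx1, hx2⟩ := (F - F.comp (P n)).exists_lt_apply_of_lt_opNorm
      (show s n - η < ‖F - F.comp (P n)‖ by change s n - η < s n; linarith)
    refine ⟨x - P n x, ?_, ?_, ?_⟩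
    · rw [map_sub, h.idem, sub_self]
    · exact (h.norm_sub_le hp n x).trans hx1.le
    · rw [happ] at hx2
      have := htle n
      linarith
  have key : ∀ n, ∀ η > 0, 2 * (t - η) ≤ r * s n := by
    intro n η hη
    obtain ⟨y₀, hy₀1, hy₀2, hy₀3⟩ := hex n η hη
    have h1 : Tendsto (fun m => ‖F (P m y₀)‖) atTop (𝓝 ‖F y₀‖) :=
      ((F.continuous.tendsto _).comp (h.tend y₀)).norm
    obtain ⟨m, hm1, hm2⟩ := ((h1.eventually (lt_mem_nhds hy₀3)).and (eventually_ge_atTop n)).exists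
    obtain ⟨z₀, hz₀1, hz₀2, hz₀3⟩ := hex m η hη
    obtain ⟨θ, hθ1, hθ2⟩ := exists_phase (F (P m y₀))
    obtain ⟨θ', hθ'1, hθ'2⟩ := exists_phase (F z₀)
    set y := θ • P m y₀ with hy
    set z := θ' • z₀ with hz
    have hyP : P m y = y := by rw [hy, map_smul, h.idem]
    have hzP : P m z = 0 := by rw [hz, map_smul, hz₀1, smul_zero]
    have hyn : ‖y‖ ≤ 1 := by
      rw [hy, norm_smul, hθ1, one_mul]
      exact (h.norm_le hp m y₀).trans hy₀2
    have hzn : ‖z‖ ≤ 1 := by rw [hz, norm_smul, hθ'1, one_mul]; exact hz₀2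
    have hyz : ‖y + z‖ ≤ r := by
      have h2 := h.add' m hyP hzP
      have h3 : ‖y‖ ^ p ≤ 1 := Real.rpow_le_one (norm_nonneg _) hyn hp0.le
      have h4 : ‖z‖ ^ p ≤ 1 := Real.rpow_le_one (norm_nonneg _) hzn hp0.le
      have h5 : ‖y + z‖ ^ p ≤ 2 := by linarith
      have h6 : r ^ p = 2 := by
        rw [hr, ← Real.rpow_mul (by norm_num), one_div, inv_mul_cancel₀ hp0.ne', Real.rpow_one]
      have h7 : 0 ≤ r := by positivity
      rw [← h6] at h5
      exact (Real.rpow_le_rpow_iff (norm_nonneg _) h7 hp0).1 h5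
    have hPn : P n (y + z) = 0 := by
      have h8 : P n y = 0 := by
        rw [hy, map_smul, h.comp, min_eq_left hm2, hy₀1, smul_zero]
      have h9 : P n z = 0 := by
        have : P n z = P n (P m z) := by rw [h.comp, min_eq_left hm2]
        rw [this, hzP, map_zero]
      rw [map_add, h8, h9, add_zero]
    have hF : ‖F (y + z)‖ = ‖F (P m y₀)‖ + ‖F z₀‖ := by
      have h10 : F (y + z) = ((‖F (P m y₀)‖ + ‖F z₀‖ : ℝ) : ℂ) := by
        rw [map_add, hy, hz, map_smul, map_smul, smul_eq_mul, smul_eq_mul, hθ2, hθ'2]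
        push_cast
        rfl
      rw [h10, Complex.norm_real, Real.norm_of_nonneg (by positivity)]
    have h11 := hsb n _ hPn
    rw [hF] at h11
    calc 2 * (t - η) ≤ ‖F (P m y₀)‖ + ‖F z₀‖ := by linarith
      _ ≤ s n * ‖y + z‖ := h11
      _ ≤ s n * r := by gcongr
      _ = r * s n := mul_comm _ _
  have key2 : ∀ n, 2 * t ≤ r * s n := by
    intro n
    refine le_of_forall_pos_le_add (fun ε hε => ?_)
    have := key n (ε / 2) (by positivity)
    linarith
  have key3 : 2 * t ≤ r * t := ge_of_tendsto' (hlim.const_mul r) key2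
  have ht1 : t = 0 := by
    by_contra hne
    have : 0 < t := lt_of_le_of_ne ht0 (Ne.symm hne)
    nlinarith
  rw [ht1] at hlim
  exact tendsto_zero_iff_norm_tendsto_zero.2 hlim

/-- bounded increasing families converge -/
theorem PDec.exists_limit [CompleteSpace X] (h : PDec p P) (hp : 1 < p) (x : ℕ → X) (C : ℝ)
    (hC : ∀ n, ‖x n‖ ≤ C) (hx : ∀ m n, m ≤ n → P m (x n) = x m) :
    ∃ y, Tendsto x atTop (𝓝 y) := by
  have hp0 : 0 < p := by linarith
  have hadd : ∀ m n, m ≤ n → ‖x n - x m‖ ^ p = ‖x n‖ ^ p - ‖x m‖ ^ p := by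
    intro m n hmn
    have h1 := h.add m (x n)
    rw [hx m n hmn] at h1
    linarith
  have hmono : Monotone fun n => ‖x n‖ ^ p := by
    intro m n hmn
    have h1 := hadd m n hmn
    have h2 : 0 ≤ ‖x n - x m‖ ^ p := Real.rpow_nonneg (norm_nonneg _) _
    change ‖x m‖ ^ p ≤ ‖x n‖ ^ p
    linarith
  have hbdd : BddAbove (Set.range fun n => ‖x n‖ ^ p) := by
    refine ⟨C ^ p, ?_⟩
    rintro _ ⟨n, rfl⟩
    exact Real.rpow_le_rpow (norm_nonneg _) (hC n) hp0.le
  have hlim := tendsto_atTop_ciSup hmono hbdd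
  have hcau := hlim.cauchySeq
  apply cauchySeq_tendsto_of_complete
  rw [Metric.cauchySeq_iff'] at hcau ⊢
  intro ε hε
  obtain ⟨N, hN⟩ := hcau (ε ^ p) (Real.rpow_pos_of_pos hε p)
  refine ⟨N, fun n hn => ?_⟩
  have h1 := hN n hn
  rw [Real.dist_eq] at h1
  have h2 := (le_abs_self _).trans_lt h1
  rw [dist_eq_norm]
  rw [← hadd N n hn] at h2
  exact (Real.rpow_lt_rpow_iff (norm_nonneg _) hε.le hp0).1 h2

/-- `ℓ_p`-sums of finite-dimensional spaces are reflexive -/
theorem PDec.reflexive [CompleteSpace X] (h : PDec p P) (hp : 1 < p) :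
    Function.Surjective (NormedSpace.inclusionInDoubleDual ℂ X) := by
  intro Φ
  -- the coordinates of `Φ`
  have hex : ∀ n, ∃ x : X, P n x = x ∧ ∀ F : X →L[ℂ] ℂ, F x = Φ (F.comp (P n)) := by
    intro n
    have := h.fin n
    set V := LinearMap.range (P n : X →ₗ[ℂ] X) with hV
    let π : X →L[ℂ] V := (P n).codRestrict V (fun x => ⟨x, rfl⟩)
    let Λ : (V →ₗ[ℂ] ℂ) →ₗ[ℂ] ℂ :=
      { toFun := fun f => Φ ((LinearMap.toContinuousLinearMap f).comp π)
        map_add' := by
          intro f g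
          rw [map_add, ContinuousLinearMap.add_comp, map_add]
        map_smul' := by
          intro c f
          rw [map_smul, ContinuousLinearMap.smul_comp, map_smul]
          rfl }
    obtain ⟨v, hv⟩ := (Module.evalEquiv ℂ V).surjective Λ
    refine ⟨(v : X), ?_, ?_⟩
    · obtain ⟨x, hx⟩ := v.2
      have hx' : P n x = (v : X) := hx
      rw [← hx', h.idem]
    · intro F
      have h1 := congrArg (fun L : (V →ₗ[ℂ] ℂ) →ₗ[ℂ] ℂ => L ((F : X →ₗ[ℂ] ℂ) ∘ₗ V.subtype)) hv
      change F (v : X) = Φ _ at h1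
      rw [h1]
      congr 1
  choose x hxP hx using hex
  have hxn : ∀ n, ‖x n‖ ≤ ‖Φ‖ := by
    intro n
    by_cases h0 : ‖x n‖ = 0
    · rw [h0]; exact norm_nonneg Φ
    · obtain ⟨F, hF1, hF2⟩ := exists_dual_vector ℂ (x n) h0
      have h1 : ‖F (x n)‖ = ‖x n‖ := by
        rw [hF2]
        simp
      rw [← h1, hx]
      calc ‖Φ (F.comp (P n))‖ ≤ ‖Φ‖ * ‖F.comp (P n)‖ := Φ.le_opNorm _
        _ ≤ ‖Φ‖ * 1 := by
            gcongr
            refine ContinuousLinearMap.opNorm_le_bound _ zero_le_one (fun y => ?_)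
            calc ‖F (P n y)‖ ≤ ‖F‖ * ‖P n y‖ := F.le_opNorm _
              _ ≤ 1 * ‖y‖ := by
                  rw [hF1]
                  gcongr
                  exact h.norm_le hp n y
        _ = ‖Φ‖ := mul_one _
  have hxc : ∀ m n, m ≤ n → P m (x n) = x m := by
    intro m n hmn
    have h1 : ∀ F : X →L[ℂ] ℂ, F (P m (x n)) = F (x m) := by
      intro F
      have h2 := hx n (F.comp (P m))
      have h3 : (F.comp (P m)).comp (P n) = F.comp (P m) := by
        ext y
        change F (P m (P n y)) = F (P m y)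
        rw [h.comp, min_eq_left hmn]
      rw [h3, ← hx m F] at h2
      exact h2
    by_contra hne
    have h4 : P m (x n) - x m ≠ 0 := sub_ne_zero.2 hne
    obtain ⟨F, -, hF2⟩ := exists_dual_vector ℂ (P m (x n) - x m) (norm_ne_zero_iff.2 h4)
    rw [map_sub, h1, sub_self] at hF2
    have : ((‖P m (x n) - x m‖ : ℝ) : ℂ) ≠ 0 := by
      exact_mod_cast norm_ne_zero_iff.2 h4
    exact this hF2.symm
  obtain ⟨y, hy⟩ := h.exists_limit hp x ‖Φ‖ hxn hxc
  refine ⟨y, ?_⟩
  ext F
  rw [NormedSpace.dual_def]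
  have h1 : Tendsto (fun n => F (x n)) atTop (𝓝 (F y)) := (F.continuous.tendsto _).comp hy
  have h2 : Tendsto (fun n => Φ (F.comp (P n))) atTop (𝓝 (Φ F)) := by
    have h3 : Tendsto (fun n => F.comp (P n)) atTop (𝓝 F) := by
      have h4 := (h.shrink hp F).const_sub F
      rw [sub_zero] at h4
      refine h4.congr (fun n => ?_)
      rw [sub_sub_cancel]
    exact (Φ.continuous.tendsto _).comp h3
  refine tendsto_nhds_unique h1 (h2.congr (fun n => ?_))
  rw [hx]

/-- weakly null sequences are mapped to null sequences by the projections -/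
theorem PDec.tendsto_proj (h : PDec p P) (n : ℕ) (x : ℕ → X)
    (hx : ∀ f : X →L[ℂ] ℂ, Tendsto (fun k => f (x k)) atTop (𝓝 0)) :
    Tendsto (fun k => P n (x k)) atTop (𝓝 0) := by
  have := h.fin n
  set V := LinearMap.range (P n : X →ₗ[ℂ] X) with hV
  let π : X →L[ℂ] V := (P n).codRestrict V (fun x => ⟨x, rfl⟩)
  let b := Module.finBasis ℂ V
  have h1 : ∀ y, P n y = ∑ i, (b.repr (π y) i) • (b i : X) := by
    intro y
    have h2 := b.sum_repr (π y)
    have h3 := congrArg (fun v : V => (v : X)) h2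
    simp only [Submodule.coe_sum, Submodule.coe_smul] at h3
    exact h3.symm
  have h2 : ∀ i, Tendsto (fun k => b.repr (π (x k)) i) atTop (𝓝 0) := by
    intro i
    exact hx ((LinearMap.toContinuousLinearMap (b.coord i)).comp π)
  have h3 : Tendsto (fun k => ∑ i, (b.repr (π (x k)) i) • (b i : X)) atTop
      (𝓝 (∑ i, (0 : ℂ) • (b i : X))) :=
    tendsto_finset_sum _ (fun i _ => (h2 i).smul_const _)
  simp only [zero_smul, Finset.sum_const_zero] at h3
  exact h3.congr (fun k => (h1 _).symm)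

/-- `p`-additivity for blocks -/
theorem PDec.sum_blocks (h : PDec p P) (hp : 1 < p) {m : ℕ → ℕ} (hm : Monotone m) {v : ℕ → X}
    (hv1 : ∀ j, P (m (j + 1)) (v j) = v j) (hv0 : ∀ j, P (m j) (v j) = 0) (A : Finset ℕ) :
    ‖∑ j ∈ A, v j‖ ^ p = ∑ j ∈ A, ‖v j‖ ^ p := by
  have hp0 : p ≠ 0 := by linarith
  induction A using Finset.induction_on_max with
  | empty => simp [Real.zero_rpow hp0]
  | insert a s hs ih =>
    have has : a ∉ s := fun hmem => lt_irrefl a (hs a hmem)
    rw [Finset.sum_insert has, Finset.sum_insert has, add_comm, ← ih]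
    have h1 : P (m a) (∑ j ∈ s, v j) = ∑ j ∈ s, v j := by
      rw [map_sum]
      refine Finset.sum_congr rfl (fun j hj => ?_)
      have h2 : m (j + 1) ≤ m a := hm (hs j hj)
      rw [← hv1 j, h.comp, min_eq_right h2]
    rw [h.add' (m a) h1 (hv0 a), add_comm]

theorem PDec.summable_blocks [CompleteSpace X] (h : PDec p P) (hp : 1 < p) {m : ℕ → ℕ}
    (hm : Monotone m) {v : ℕ → X}
    (hv1 : ∀ j, P (m (j + 1)) (v j) = v j) (hv0 : ∀ j, P (m j) (v j) = 0)
    (hs : Summable fun j => ‖v j‖ ^ p) : Summable v := by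
  have hp0 : 0 < p := by linarith
  rw [summable_iff_vanishing_norm] at hs ⊢
  intro ε hε
  obtain ⟨s, hs'⟩ := hs (ε ^ p) (Real.rpow_pos_of_pos hε p)
  refine ⟨s, fun t ht => ?_⟩
  have h1 := hs' t ht
  rw [Real.norm_of_nonneg (Finset.sum_nonneg (fun i _ => Real.rpow_nonneg (norm_nonneg _) _)),
    ← h.sum_blocks hp hm hv1 hv0] at h1
  exact (Real.rpow_lt_rpow_iff (norm_nonneg _) hε.le hp0).1 h1

theorem PDec.summable_norm (h : PDec p P) (hp : 1 < p) {m : ℕ → ℕ}
    (hm : Monotone m) (y : X) :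
    Summable fun j => ‖P (m (j + 1)) y - P (m j) y‖ ^ p := by
  have hp0 : 0 < p := by linarith
  have hv1 : ∀ j, P (m (j + 1)) (P (m (j + 1)) y - P (m j) y) = P (m (j + 1)) y - P (m j) y := by
    intro j
    have h2 : m j ≤ m (j + 1) := hm (Nat.le_succ j)
    rw [map_sub, h.idem, h.comp, min_eq_right h2]
  have hv0 : ∀ j, P (m j) (P (m (j + 1)) y - P (m j) y) = 0 := by
    intro j
    have h2 : m j ≤ m (j + 1) := hm (Nat.le_succ j)
    rw [map_sub, h.idem, h.comp, min_eq_left h2, sub_self]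
  refine summable_of_sum_range_le (c := ‖y‖ ^ p)
    (fun j => Real.rpow_nonneg (norm_nonneg _) _) (fun n => ?_)
  rw [← h.sum_blocks hp hm hv1 hv0 (Finset.range n)]
  rw [Finset.sum_range_sub (fun j => P (m j) y) n]
  apply Real.rpow_le_rpow (norm_nonneg _) _ hp0.le
  have h3 : P (m n) y - P (m 0) y = P (m n) y - P (m 0) (P (m n) y) := by
    rw [h.comp, min_eq_left (hm (Nat.zero_le n))]
  rw [h3]
  exact (h.norm_sub_le hp _ _).trans (h.norm_le hp _ _)

/-- `ℓ_p`-sums of finite-dimensional spaces have the property `CUS` -/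
theorem PDec.cus [CompleteSpace X] (h : PDec p P) (hp : 1 < p) : CUS X := by
  classical
  intro x hx1 hxw
  let η : ℕ → ℝ := fun i => (1 / 2) ^ (i + 3)
  have hη0 : ∀ i, 0 < η i := fun i => by positivity
  have hη8 : ∀ i, η i ≤ 1 / 8 := by
    intro i
    change (1 / 2 : ℝ) ^ (i + 3) ≤ 1 / 8
    calc (1 / 2 : ℝ) ^ (i + 3) ≤ (1 / 2) ^ 3 :=
          pow_le_pow_of_le_one (by norm_num) (by norm_num) (by omega)
      _ = 1 / 8 := by norm_num
  have hηs : Summable η := by
    have := (summable_geometric_of_lt_one (r := (1 / 2 : ℝ)) (by norm_num) (by norm_num)).mul_left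
      ((1 / 2 : ℝ) ^ 3)
    refine this.congr (fun n => ?_)
    rw [← pow_add, add_comm]
  let Good : ℕ → (ℕ → ℕ × ℕ) → Prop := fun n s => ∀ i, i < n →
    ((∀ j, j < i → (s j).1 < (s i).1 ∧ (s j).2 ≤ (s i).2 ∧ ‖P (s j).2 (x (s i).1)‖ ≤ η i) ∧
      ‖x (s i).1 - P (s i).2 (x (s i).1)‖ ≤ η i)
  obtain ⟨s, hs⟩ := exists_seq_of_step ((0, 0) : ℕ × ℕ) Good
    (fun s => fun i hi => absurd hi (Nat.not_lt_zero i))
    (by
      rintro n s t hst h1
      intro i hi
      refine ⟨fun j hj => ?_, ?_⟩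
      · rw [← hst i hi, ← hst j (hj.trans hi)]
        exact (h1 i hi).1 j hj
      · rw [← hst i hi]
        exact (h1 i hi).2)
    (by
      rintro n s h1
      -- choose `k`
      have e1 : ∀ j, ∀ᶠ k in atTop, ‖P (s j).2 (x k)‖ ≤ η n := by
        intro j
        have h2 := (h.tendsto_proj (s j).2 x hxw).norm
        rw [norm_zero] at h2
        filter_upwards [h2.eventually (gt_mem_nhds (hη0 n))] with k hk
        exact hk.le
      have e2 : ∀ᶠ k in atTop, ∀ j ∈ Finset.range n, ‖P (s j).2 (x k)‖ ≤ η n :=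
        (Filter.eventually_all_finset _).2 (fun j _ => e1 j)
      obtain ⟨k, hk1, hk2⟩ := (e2.and (eventually_gt_atTop (∑ i ∈ Finset.range n, (s i).1))).exists
      have h3 : Tendsto (fun m => ‖x k - P m (x k)‖) atTop (𝓝 0) := by
        have h4 := (h.tend (x k)).const_sub (x k)
        rw [sub_self] at h4
        have h5 := h4.norm
        rwa [norm_zero] at h5
      obtain ⟨m, hm1, hm2⟩ := ((h3.eventually (gt_mem_nhds (hη0 n))).and
        (eventually_ge_atTop (∑ i ∈ Finset.range n, (s i).2))).exists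
      refine ⟨(k, m), ?_⟩
      intro i hi
      rcases Nat.lt_succ_iff_lt_or_eq.1 hi with hi' | hi'
      · refine ⟨fun j hj => ?_, ?_⟩
        · rw [Function.update_of_ne hi'.ne, Function.update_of_ne (hj.trans hi').ne]
          exact (h1 i hi').1 j hj
        · rw [Function.update_of_ne hi'.ne]
          exact (h1 i hi').2
      · subst hi'
        refine ⟨fun j hj => ?_, ?_⟩
        · rw [Function.update_self, Function.update_of_ne hj.ne]
          refine ⟨?_, ?_, hk1 j (Finset.mem_range.2 hj)⟩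
          · exact lt_of_le_of_lt (Finset.single_le_sum (f := fun i => (s i).1)
              (fun i _ => Nat.zero_le _) (Finset.mem_range.2 hj)) hk2
          · exact le_trans (Finset.single_le_sum (f := fun i => (s i).2)
              (fun i _ => Nat.zero_le _) (Finset.mem_range.2 hj)) hm2
        · rw [Function.update_self]
          exact hm1.le)
  have hk : StrictMono fun i => (s i).1 := fun j i hji => ((hs (i + 1) i (by omega)).1 j hji).1
  set m : ℕ → ℕ := fun i => (s i).2 with hm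
  have hmm : Monotone m := by
    refine monotone_nat_of_le_succ (fun n => ?_)
    exact ((hs (n + 2) (n + 1) (by omega)).1 n (by omega)).2.1
  have hsm : ∀ n, ‖P (m n) (x (s (n + 1)).1)‖ ≤ η (n + 1) := fun n =>
    ((hs (n + 2) (n + 1) (by omega)).1 n (by omega)).2.2
  have hsl : ∀ n, ‖x (s n).1 - P (m n) (x (s n).1)‖ ≤ η n := fun n => (hs (n + 1) n (by omega)).2
  -- the subsequence
  set k : ℕ → ℕ := fun j => (s (j + 1)).1 with hkdef
  have hk' : StrictMono k := fun i j hij => hk (by omega)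
  set D : ℕ → (X →L[ℂ] X) := fun j => P (m (j + 1)) - P (m j) with hD
  have hDapp : ∀ j y, D j y = P (m (j + 1)) y - P (m j) y := fun j y => rfl
  have hD1 : ∀ j y, P (m (j + 1)) (D j y) = D j y := by
    intro j y
    have h2 : m j ≤ m (j + 1) := hmm (Nat.le_succ j)
    rw [hDapp, map_sub, h.idem, h.comp, min_eq_right h2]
  have hD0 : ∀ j y, P (m j) (D j y) = 0 := by
    intro j y
    have h2 : m j ≤ m (j + 1) := hmm (Nat.le_succ j)
    rw [hDapp, map_sub, h.idem, h.comp, min_eq_left h2, sub_self]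
  have hDD : ∀ j y, D j (D j y) = D j y := by
    intro j y
    rw [hDapp j (D j y), hD1, hD0, sub_zero]
  set u : ℕ → X := fun j => D j (x (k j)) with hu
  have hxu : ∀ j, ‖x (k j) - u j‖ ≤ 2 * η j := by
    intro j
    have h1 : x (k j) - u j = (x (k j) - P (m (j + 1)) (x (k j))) + P (m j) (x (k j)) := by
      simp only [hu, hDapp]; abel
    have h2 : η (j + 1) ≤ η j := pow_le_pow_of_le_one (by norm_num) (by norm_num) (by omega)
    calc ‖x (k j) - u j‖ ≤ ‖x (k j) - P (m (j + 1)) (x (k j))‖ + ‖P (m j) (x (k j))‖ := by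
          rw [h1]; exact norm_add_le _ _
      _ ≤ η (j + 1) + η (j + 1) := add_le_add (hsl (j + 1)) (hsm j)
      _ ≤ 2 * η j := by linarith
  have hun : ∀ j, 3 / 4 ≤ ‖u j‖ := by
    intro j
    have h1 := norm_sub_norm_le (x (k j)) (u j)
    have h2 := hxu j
    have h3 := hη8 j
    rw [hx1] at h1
    linarith
  have hu0 : ∀ j, ‖u j‖ ≠ 0 := fun j => by have := hun j; linarith
  choose f hf1 hf2 using fun j => exists_dual_vector ℂ (u j) (hu0 j)
  let φ : ℕ → (X →L[ℂ] ℂ) := fun j => ((‖u j‖ : ℂ)⁻¹) • (f j).comp (D j)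
  have hφ : ∀ j y, φ j y = (‖u j‖ : ℂ)⁻¹ * f j (D j y) := fun j y => rfl
  have hun0 : ∀ j, (‖u j‖ : ℂ) ≠ 0 := fun j => by exact_mod_cast hu0 j
  have hφ1 : ∀ j, φ j (x (k j)) = 1 := by
    intro j
    rw [hφ]
    change (‖u j‖ : ℂ)⁻¹ * f j (u j) = 1
    rw [hf2]
    exact inv_mul_cancel₀ (hun0 j)
  have hDn : ∀ j y, ‖D j y‖ ≤ ‖y‖ := by
    intro j y
    have h2 : m j ≤ m (j + 1) := hmm (Nat.le_succ j)
    have h3 : D j y = P (m (j + 1)) y - P (m j) (P (m (j + 1)) y) := by
      rw [hDapp, h.comp, min_eq_left h2]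
    rw [h3]
    exact (h.norm_sub_le hp _ _).trans (h.norm_le hp _ _)
  have hφn : ∀ j y, ‖φ j y‖ * ‖u j‖ ≤ ‖D j y‖ := by
    intro j y
    have h1 := (f j).le_opNorm (D j y)
    rw [hf1, one_mul] at h1
    rw [hφ, norm_mul, norm_inv, Complex.norm_real, norm_norm]
    calc ‖u j‖⁻¹ * ‖f j (D j y)‖ * ‖u j‖ = ‖f j (D j y)‖ * (‖u j‖⁻¹ * ‖u j‖) := by ring
      _ = ‖f j (D j y)‖ := by rw [inv_mul_cancel₀ (hu0 j), mul_one]
      _ ≤ ‖D j y‖ := h1
  have hφn2 : ∀ j y, ‖φ j y‖ ≤ 2 * ‖y‖ := by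
    intro j y
    have h1 := hφn j y
    have h2 := hun j
    have h3 := hDn j y
    have h4 : ‖φ j y‖ * (3 / 4) ≤ ‖φ j y‖ * ‖u j‖ := by gcongr
    have h5 : 0 ≤ ‖y‖ := norm_nonneg y
    linarith
  refine ⟨k, φ, hk', hφ1, fun y => ?_⟩
  have hs1 : Summable fun j => φ j y • u j := by
    refine h.summable_blocks hp hmm (v := fun j => φ j y • u j) (fun j => ?_) (fun j => ?_) ?_
    · rw [map_smul]
      congr 1
      exact hD1 j _
    · change P (m j) (φ j y • u j) = 0
      rw [map_smul]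
      have : P (m j) (u j) = 0 := hD0 j _
      rw [this, smul_zero]
    · refine Summable.of_nonneg_of_le (fun j => Real.rpow_nonneg (norm_nonneg _) _) (fun j => ?_)
        (h.summable_norm hp hmm y)
      apply Real.rpow_le_rpow (norm_nonneg _) _ (by linarith)
      rw [norm_smul]
      exact hφn j y
  have hs2 : Summable fun j => φ j y • (x (k j) - u j) := by
    refine Summable.of_norm_bounded (g := fun j => η j * (4 * ‖y‖)) (hηs.mul_right _)
      (fun j => ?_)
    rw [norm_smul]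
    calc ‖φ j y‖ * ‖x (k j) - u j‖ ≤ (2 * ‖y‖) * (2 * η j) :=
          mul_le_mul (hφn2 j y) (hxu j) (norm_nonneg _) (by positivity)
      _ = η j * (4 * ‖y‖) := by ring
  refine (hs1.add hs2).congr (fun j => ?_)
  rw [smul_sub]; abel

end pdec

end Pool.Agent.H272.IS
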