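import Pool.Agent.H272.IS.WeakNull

/-!
# Perturbed biorthogonal sequences

Given a weakly null sequence `x n` with `T (x n) → 0` and functionals `φ n` with `φ n (x n) = 1`,
`φ n → 0` pointwise, there are a subsequence `x (k n)` and an exactly biorthogonal pair of
sequences `g n`, `h n ∘ T` which are as close as we please to `x (k n)`, `φ (k n)`.
-/

set_option autoImplicit false

namespace Pool.Agent.H272.IS

open Filter Topology

section perturb

variable {X : Type*} [NormedAddCommGroup X] [NormedSpace ℂ X] [CompleteSpace X]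

/-- one step of the construction -/
theorem perturb_step (hX : Function.Surjective (NormedSpace.inclusionInDoubleDual ℂ X))
    {T : X →L[ℂ] X} (hinj : Function.Injective T) {x : ℕ → X} (hx1 : ∀ n, ‖x n‖ = 1)
    (hTx : Tendsto (fun n => T (x n)) atTop (𝓝 0))
    {φ : ℕ → (X →L[ℂ] ℂ)}
    (hφ1 : ∀ n, φ n (x n) = 1) (hφ0 : ∀ y, Tendsto (fun n => φ n y) atTop (𝓝 0))
    {C : ℝ} (hC : ∀ n, ‖φ n‖ ≤ C) (ε : ℝ) (hε : 0 < ε)
    (N : ℕ) (g : ℕ → X) (h : ℕ → (X →L[ℂ] ℂ))
    (hgh : ∀ i, i < N → ∀ j, j < N → h i (T (g j)) = if i = j then 1 else 0) (K : ℕ) :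
    ∃ (n : ℕ) (g' : X) (h' : X →L[ℂ] ℂ), K < n ∧ (∀ i, i < N → h i (T g') = 0) ∧
      (∀ i, i < N → h' (T (g i)) = 0) ∧ h' (T g') = 1 ∧ ‖g' - x n‖ ≤ ε ∧
      ‖h'.comp T - φ n‖ ≤ ε ∧ ‖T g'‖ ≤ ε := by
  classical
  choose h₁ hh₁ using fun n : ℕ => dense_adjoint hX hinj (φ n) (1 / ((n : ℝ) + 1)) (by positivity)
  have hd0 : Tendsto (fun n => (h₁ n).comp T - φ n) atTop (𝓝 0) :=
    squeeze_zero_norm (fun n => (hh₁ n).le) tendsto_one_div_add_atTop_nhds_zero_nat
  -- coefficients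
  have ha : ∀ i, Tendsto (fun n => h i (T (x n))) atTop (𝓝 0) := by
    intro i
    have := ((h i).continuous.tendsto 0).comp hTx
    rwa [map_zero] at this
  have hb : ∀ y, Tendsto (fun n => h₁ n (T y)) atTop (𝓝 0) := by
    intro y
    have h1 : Tendsto (fun n => ((h₁ n).comp T - φ n) y) atTop (𝓝 0) := by
      have := ((ContinuousLinearMap.apply ℂ ℂ y).continuous.tendsto 0).comp hd0
      have h0 : ContinuousLinearMap.apply ℂ ℂ y (0 : X →L[ℂ] ℂ) = 0 := rfl
      rw [h0] at this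
      exact this
    have h2 := h1.add (hφ0 y)
    simpa using h2
  set G : ℕ → X := fun n => x n - ∑ i ∈ Finset.range N, h i (T (x n)) • g i with hG
  set H₀ : ℕ → (X →L[ℂ] ℂ) := fun n => h₁ n - ∑ i ∈ Finset.range N, h₁ n (T (g i)) • h i with hH₀
  have hG1 : Tendsto (fun n => G n - x n) atTop (𝓝 0) := by
    have h1 : Tendsto (fun n => -∑ i ∈ Finset.range N, h i (T (x n)) • g i) atTop
        (𝓝 (-∑ i ∈ Finset.range N, (0 : ℂ) • g i)) :=
      (tendsto_finset_sum _ (fun i _ => (ha i).smul_const (g i))).neg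
    simp only [zero_smul, Finset.sum_const_zero, neg_zero] at h1
    refine h1.congr (fun n => ?_)
    simp only [hG]; abel
  have hTG : Tendsto (fun n => T (G n)) atTop (𝓝 0) := by
    have h1 := ((T.continuous.tendsto 0).comp hG1)
    rw [map_zero] at h1
    have h2 := h1.add hTx
    simpa using h2
  have hH1 : Tendsto (fun n => (H₀ n).comp T - φ n) atTop (𝓝 0) := by
    have h1 : Tendsto (fun n => ((h₁ n).comp T - φ n) -
        ∑ i ∈ Finset.range N, h₁ n (T (g i)) • (h i).comp T) atTop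
        (𝓝 (0 - ∑ i ∈ Finset.range N, (0 : ℂ) • (h i).comp T)) :=
      hd0.sub (tendsto_finset_sum _ (fun i _ => (hb (g i)).smul_const _))
    have e0 : (0 : X →L[ℂ] ℂ) - ∑ i ∈ Finset.range N, (0 : ℂ) • (h i).comp T = 0 := by
      ext y; simp
    rw [e0] at h1
    refine h1.congr (fun n => ?_)
    ext y
    simp [hH₀]
    ring
  have hGz : ∀ n, ∀ j, j < N → h j (T (G n)) = 0 := by
    intro n j hj
    simp only [hG]
    rw [map_sub, map_sum, map_sub, map_sum]
    simp only [map_smul, smul_eq_mul]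
    rw [Finset.sum_eq_single j]
    · rw [hgh j hj j hj]; simp
    · intro i hi hij
      rw [hgh j hj i (Finset.mem_range.1 hi), if_neg (Ne.symm hij), mul_zero]
    · intro hcon
      exact absurd (Finset.mem_range.2 hj) hcon
  have hHz : ∀ n, ∀ j, j < N → H₀ n (T (g j)) = 0 := by
    intro n j hj
    simp only [hH₀]
    rw [sub_apply, sum_apply]
    simp only [smul_apply, smul_eq_mul]
    rw [Finset.sum_eq_single j]
    · rw [hgh j hj j hj]; simp
    · intro i hi hij
      rw [hgh i (Finset.mem_range.1 hi) j hj, if_neg hij, mul_zero]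
    · intro hcon
      exact absurd (Finset.mem_range.2 hj) hcon
  have hc1 : Tendsto (fun n => H₀ n (T (G n))) atTop (𝓝 1) := by
    have h1 : Tendsto (fun n => ((H₀ n).comp T - φ n) (G n) + φ n (G n - x n) + 1) atTop
        (𝓝 (0 + 0 + 1)) := by
      refine (Tendsto.add ?_ ?_).add tendsto_const_nhds
      · apply squeeze_zero_norm' (a := fun n => ‖(H₀ n).comp T - φ n‖ * (‖G n - x n‖ + 1))
        · filter_upwards with n
          calc ‖((H₀ n).comp T - φ n) (G n)‖ ≤ ‖(H₀ n).comp T - φ n‖ * ‖G n‖ :=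
                ContinuousLinearMap.le_opNorm _ _
            _ ≤ ‖(H₀ n).comp T - φ n‖ * (‖G n - x n‖ + 1) := by
                gcongr
                calc ‖G n‖ = ‖(G n - x n) + x n‖ := by rw [sub_add_cancel]
                  _ ≤ ‖G n - x n‖ + ‖x n‖ := norm_add_le _ _
                  _ = ‖G n - x n‖ + 1 := by rw [hx1]
        · have h2 := (tendsto_norm_zero.comp hH1).mul ((tendsto_norm_zero.comp hG1).add_const 1)
          simpa using h2
      · apply squeeze_zero_norm (a := fun n => C * ‖G n - x n‖)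
        · intro n
          exact ((φ n).le_opNorm _).trans (by gcongr; exact hC n)
        · have h2 := (tendsto_norm_zero.comp hG1).const_mul C
          simpa using h2
    simp only [add_zero, zero_add] at h1
    refine h1.congr (fun n => ?_)
    rw [map_sub (φ n), hφ1]
    simp
  have hH2 : Tendsto (fun n => ((H₀ n (T (G n)))⁻¹ • H₀ n).comp T - φ n) atTop (𝓝 0) := by
    have hci : Tendsto (fun n => (H₀ n (T (G n)))⁻¹) atTop (𝓝 1) := by
      have := hc1.inv₀ one_ne_zero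
      rwa [inv_one] at this
    have h0 : Tendsto (fun n => ((H₀ n (T (G n)))⁻¹ - 1) • φ n) atTop (𝓝 0) := by
      apply squeeze_zero_norm (a := fun n => ‖(H₀ n (T (G n)))⁻¹ - 1‖ * C)
      · intro n
        rw [norm_smul]
        gcongr
        exact hC n
      · have h2 : Tendsto (fun n => (H₀ n (T (G n)))⁻¹ - 1) atTop (𝓝 0) := by
          have := hci.sub_const 1
          rwa [sub_self] at this
        have h3 := (tendsto_norm_zero.comp h2).mul_const C
        simpa using h3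
    have h00 : Tendsto (fun n => (H₀ n (T (G n)))⁻¹ • ((H₀ n).comp T - φ n)) atTop (𝓝 0) := by
      have h4 := hci.smul hH1
      have h5 : (1 : ℂ) • (0 : X →L[ℂ] ℂ) = 0 := by ext y; simp
      rwa [h5] at h4
    have h1 : Tendsto (fun n => (H₀ n (T (G n)))⁻¹ • ((H₀ n).comp T - φ n) +
        ((H₀ n (T (G n)))⁻¹ - 1) • φ n) atTop (𝓝 0) := by
      have h6 := h00.add h0
      rwa [add_zero] at h6
    refine h1.congr (fun n => ?_)
    ext y
    simp
    ring
  have hev : ∀ᶠ n in atTop, K < n ∧ ‖G n - x n‖ ≤ ε ∧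
      ‖((H₀ n (T (G n)))⁻¹ • H₀ n).comp T - φ n‖ ≤ ε ∧ ‖T (G n)‖ ≤ ε ∧ H₀ n (T (G n)) ≠ 0 := by
    have e1 : ∀ᶠ n in atTop, ‖G n - x n‖ < ε :=
      (tendsto_norm_zero.comp hG1).eventually (gt_mem_nhds hε)
    have e2 : ∀ᶠ n in atTop, ‖((H₀ n (T (G n)))⁻¹ • H₀ n).comp T - φ n‖ < ε :=
      (tendsto_norm_zero.comp hH2).eventually (gt_mem_nhds hε)
    have e3 : ∀ᶠ n in atTop, ‖T (G n)‖ < ε :=
      (tendsto_norm_zero.comp hTG).eventually (gt_mem_nhds hε)
    have e4 : ∀ᶠ n in atTop, H₀ n (T (G n)) ≠ 0 :=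
      hc1.eventually_ne one_ne_zero
    filter_upwards [e1, e2, e3, e4, eventually_gt_atTop K] with n f1 f2 f3 f4 f5
    exact ⟨f5, f1.le, f2.le, f3.le, f4⟩
  obtain ⟨n, hn1, hn2, hn3, hn4, hn5⟩ := hev.exists
  refine ⟨n, G n, (H₀ n (T (G n)))⁻¹ • H₀ n, hn1, hGz n, ?_, ?_, hn2, hn3, hn4⟩
  · intro i hi
    rw [smul_apply, hHz n i hi, smul_zero]
  · rw [smul_apply, smul_eq_mul, inv_mul_cancel₀ hn5]

theorem exists_perturbed (hX : Function.Surjective (NormedSpace.inclusionInDoubleDual ℂ X))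
    {T : X →L[ℂ] X} (hinj : Function.Injective T) {x : ℕ → X} (hx1 : ∀ n, ‖x n‖ = 1)
    (hTx : Tendsto (fun n => T (x n)) atTop (𝓝 0))
    {φ : ℕ → (X →L[ℂ] ℂ)}
    (hφ1 : ∀ n, φ n (x n) = 1) (hφ0 : ∀ y, Tendsto (fun n => φ n y) atTop (𝓝 0))
    {C : ℝ} (hC : ∀ n, ‖φ n‖ ≤ C) (ε : ℕ → ℝ) (hε : ∀ n, 0 < ε n) :
    ∃ (k : ℕ → ℕ) (g : ℕ → X) (h : ℕ → (X →L[ℂ] ℂ)), StrictMono k ∧
      (∀ m n, h m (T (g n)) = if m = n then 1 else 0) ∧
      (∀ n, ‖g n - x (k n)‖ ≤ ε n) ∧ (∀ n, ‖(h n).comp T - φ (k n)‖ ≤ ε n) ∧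
      (∀ n, ‖T (g n)‖ ≤ ε n) := by
  classical
  let Good : ℕ → (ℕ → ℕ × X × (X →L[ℂ] ℂ)) → Prop := fun n s =>
    (∀ i, i < n → ∀ j, j < n → (s i).2.2 (T (s j).2.1) = if i = j then 1 else 0) ∧
    (∀ i, i < n → ‖(s i).2.1 - x (s i).1‖ ≤ ε i ∧ ‖((s i).2.2).comp T - φ (s i).1‖ ≤ ε i ∧
      ‖T (s i).2.1‖ ≤ ε i) ∧
    (∀ i, i < n → ∀ j, j < i → (s j).1 < (s i).1)
  obtain ⟨s, hs⟩ := exists_seq_of_step ((0, 0, 0) : ℕ × X × (X →L[ℂ] ℂ)) Good
    (fun s => ⟨fun i hi => absurd hi (Nat.not_lt_zero i), fun i hi => absurd hi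
      (Nat.not_lt_zero i), fun i hi => absurd hi (Nat.not_lt_zero i)⟩)
    (by
      rintro n s t hst ⟨h1, h2, h3⟩
      refine ⟨fun i hi j hj => ?_, fun i hi => ?_, fun i hi j hj => ?_⟩
      · rw [← hst i hi, ← hst j hj]; exact h1 i hi j hj
      · rw [← hst i hi]; exact h2 i hi
      · rw [← hst i hi, ← hst j (hj.trans hi)]; exact h3 i hi j hj)
    (by
      rintro n s ⟨h1, h2, h3⟩
      obtain ⟨k, g', h', p1, p2, p3, p4, p5, p6, p7⟩ := perturb_step hX hinj hx1 hTx hφ1 hφ0 hC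
        (ε n) (hε n) n (fun i => (s i).2.1) (fun i => (s i).2.2) h1
        (∑ i ∈ Finset.range n, (s i).1)
      refine ⟨(k, g', h'), ?_, ?_, ?_⟩
      · intro i hi j hj
        rcases Nat.lt_succ_iff_lt_or_eq.1 hi with hi' | hi' <;>
          rcases Nat.lt_succ_iff_lt_or_eq.1 hj with hj' | hj'
        · rw [Function.update_of_ne hi'.ne, Function.update_of_ne hj'.ne]
          exact h1 i hi' j hj'
        · rw [Function.update_of_ne hi'.ne, hj', Function.update_self, if_neg hi'.ne]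
          exact p2 i hi'
        · rw [Function.update_of_ne hj'.ne, hi', Function.update_self,
            if_neg (Ne.symm hj'.ne)]
          exact p3 j hj'
        · rw [hi', hj', Function.update_self, if_pos rfl]
          exact p4
      · intro i hi
        rcases Nat.lt_succ_iff_lt_or_eq.1 hi with hi' | hi'
        · rw [Function.update_of_ne hi'.ne]
          exact h2 i hi'
        · rw [hi', Function.update_self]
          exact ⟨p5, p6, p7⟩
      · intro i hi j hj
        rcases Nat.lt_succ_iff_lt_or_eq.1 hi with hi' | hi'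
        · rw [Function.update_of_ne hi'.ne, Function.update_of_ne (hj.trans hi').ne]
          exact h3 i hi' j hj
        · subst hi'
          rw [Function.update_self, Function.update_of_ne hj.ne]
          refine lt_of_le_of_lt ?_ p1
          exact Finset.single_le_sum (f := fun i => (s i).1) (fun i _ => Nat.zero_le _)
            (Finset.mem_range.2 hj))
  refine ⟨fun n => (s n).1, fun n => (s n).2.1, fun n => (s n).2.2, ?_, ?_, ?_, ?_, ?_⟩
  · intro i j hij
    exact (hs (j + 1)).2.2 j (by omega) i hij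
  · intro m n
    exact (hs (max m n + 1)).1 m (by omega) n (by omega)
  · intro n
    exact ((hs (n + 1)).2.1 n (by omega)).1
  · intro n
    exact ((hs (n + 1)).2.1 n (by omega)).2.1
  · intro n
    exact ((hs (n + 1)).2.1 n (by omega)).2.2

end perturb

end Pool.Agent.H272.IS
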