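import Pool.Agent.H272.IS.Perturb

/-!
# Transfer of operators without invariant subspaces to a given larger space
-/

set_option autoImplicit false

namespace Pool.Agent.H272.IS

open Filter Topology

/-- every normalised weakly null sequence has a subsequence `x (k n)` with functionals `φ n`,
`φ n (x (k n)) = 1`, for which all the series `∑ φ n y • x (k n)` converge unconditionally -/
def CUS (X : Type*) [NormedAddCommGroup X] [NormedSpace ℂ X] : Prop :=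
  ∀ x : ℕ → X, (∀ n, ‖x n‖ = 1) → (∀ f : X →L[ℂ] ℂ, Tendsto (fun n => f (x n)) atTop (𝓝 0)) →
    ∃ (k : ℕ → ℕ) (φ : ℕ → (X →L[ℂ] ℂ)), StrictMono k ∧ (∀ n, φ n (x (k n)) = 1) ∧
      ∀ y, Summable fun n => φ n y • x (k n)

section transfer

variable {X : Type*} [NormedAddCommGroup X] [NormedSpace ℂ X] [CompleteSpace X]

/-- the finite partial sums of an unconditionally convergent series are bounded -/
theorem exists_bound_of_summable {f : ℕ → X} (hf : Summable f) :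
    ∃ C, ∀ s : Finset ℕ, ‖∑ n ∈ s, f n‖ ≤ C := by
  classical
  rw [summable_iff_vanishing_norm] at hf
  obtain ⟨s₀, hs₀⟩ := hf 1 one_pos
  refine ⟨∑ n ∈ s₀, ‖f n‖ + 1, fun s => ?_⟩
  have h1 : ∑ n ∈ s, f n = ∑ n ∈ s ∩ s₀, f n + ∑ n ∈ s \ s₀, f n := by
    rw [Finset.sum_inter_add_sum_sdiff]
  rw [h1]
  refine (norm_add_le _ _).trans (add_le_add ?_ (hs₀ _ Finset.sdiff_disjoint).le)
  exact (norm_sum_le _ _).trans (Finset.sum_le_sum_of_subset_of_nonneg Finset.inter_subset_right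
    (fun n _ _ => norm_nonneg _))

/-- the data extracted from an operator on a space with `CUS` -/
theorem exists_proj (hX : Function.Surjective (NormedSpace.inclusionInDoubleDual ℂ X))
    (hC : CUS X) {T : X →L[ℂ] X} (hinj : Function.Injective T) (hd : DenseRange T)
    (hu : ¬ IsUnit T) : ∃ CQ : ℝ, ∀ (δ : ℕ → ℝ), (∀ n, 0 < δ n) →
    ∃ (Q : X →L[ℂ] X) (g : ℕ → X) (h : ℕ → (X →L[ℂ] ℂ)),
      (∀ m n, h m (T (g n)) = if m = n then 1 else 0) ∧
      (∀ n, ‖T (g n)‖ ≤ δ n) ∧ (∀ n, ‖(h n).comp T‖ ≤ δ n) ∧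
      (∀ y, HasSum (fun n => h n (T y) • g n) (Q y)) ∧ ‖Q‖ ≤ CQ := by
  classical
  obtain ⟨x₀, hx₀1, hTx₀, hx₀w⟩ := exists_weaklyNull hX hinj hd hu
  obtain ⟨k, φ, hk, hφ1, hφs⟩ := hC x₀ hx₀1 hx₀w
  set x : ℕ → X := fun n => x₀ (k n) with hx
  have hx1 : ∀ n, ‖x n‖ = 1 := fun n => hx₀1 _
  have hTx : Tendsto (fun n => T (x n)) atTop (𝓝 0) := hTx₀.comp hk.tendsto_atTop
  have hφ0 : ∀ y, Tendsto (fun n => φ n y) atTop (𝓝 0) := by
    intro y
    have h1 := (hφs y).tendsto_atTop_zero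
    rw [tendsto_zero_iff_norm_tendsto_zero] at h1 ⊢
    refine h1.congr (fun n => ?_)
    rw [norm_smul, hx₀1, mul_one]
  obtain ⟨C, hCb⟩ : ∃ C, ∀ n, ‖φ n‖ ≤ C := by
    apply banach_steinhaus
    intro y
    obtain ⟨B, hB⟩ := (hφ0 y).norm.bddAbove_range
    exact ⟨B, fun n => hB ⟨n, rfl⟩⟩
  have hC0 : 0 ≤ C := le_trans (norm_nonneg _) (hCb 0)
  obtain ⟨C₂, hC₂⟩ : ∃ C₂, ∀ s : Finset ℕ, ‖∑ n ∈ s, (φ n).smulRight (x n)‖ ≤ C₂ := by
    apply banach_steinhaus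
    intro y
    obtain ⟨B, hB⟩ := exists_bound_of_summable (hφs y)
    refine ⟨B, fun s => ?_⟩
    have h1 : (∑ n ∈ s, (φ n).smulRight (x n)) y = ∑ n ∈ s, φ n y • x₀ (k n) := by
      simp [hx]
    rw [h1]
    exact hB s
  refine ⟨C₂ + (2 + C), fun δ hδ => ?_⟩
  set ε : ℕ → ℝ := fun n => min ((1 / 2) ^ (n + 1)) (δ n * δ n / (C + 1)) with hε
  have hε0 : ∀ n, 0 < ε n := fun n => lt_min (by positivity)
    (div_pos (mul_pos (hδ n) (hδ n)) (by positivity))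
  obtain ⟨k₂, g, h, hk₂, hgh, hg1, hh1, hTg⟩ := exists_perturbed hX hinj hx1 hTx hφ1 hφ0 hCb ε hε0
  have hpow : HasSum (fun n : ℕ => (1 / 2 : ℝ) ^ (n + 1)) 1 := by
    have h1 := hasSum_geometric_two.mul_left (1 / 2 : ℝ)
    have h2 : (1 / 2 : ℝ) * 2 = 1 := by norm_num
    rw [h2] at h1
    refine h1.congr_fun ?_ |> fun h => h
    intro n
    rw [pow_succ]; ring
  have hεs : Summable ε :=
    Summable.of_nonneg_of_le (fun n => (hε0 n).le) (fun n => min_le_left _ _) hpow.summable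
  have hεf : ∀ s : Finset ℕ, ∑ n ∈ s, ε n ≤ 1 := by
    intro s
    calc ∑ n ∈ s, ε n ≤ ∑ n ∈ s, (1 / 2 : ℝ) ^ (n + 1) :=
          Finset.sum_le_sum (fun n _ => min_le_left _ _)
      _ ≤ 1 := sum_le_hasSum s (fun n _ => by positivity) hpow
  have hε1 : ∀ n, ε n ≤ 1 := fun n => (min_le_left _ _).trans
    (pow_le_one₀ (by norm_num) (by norm_num))
  have hgn : ∀ n, ‖g n‖ ≤ 2 := by
    intro n
    calc ‖g n‖ = ‖(g n - x (k₂ n)) + x (k₂ n)‖ := by rw [sub_add_cancel]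
      _ ≤ ‖g n - x (k₂ n)‖ + ‖x (k₂ n)‖ := norm_add_le _ _
      _ ≤ 1 + 1 := add_le_add ((hg1 n).trans (hε1 n)) (hx1 _).le
      _ = 2 := by norm_num
  have hsum : ∀ y, Summable fun n => h n (T y) • g n := by
    intro y
    have h1 : Summable fun n => φ (k₂ n) y • x (k₂ n) :=
      (hφs y).comp_injective hk₂.injective
    have h2 : Summable fun n => ((h n).comp T - φ (k₂ n)) y • g n := by
      refine Summable.of_norm_bounded (g := fun n => ε n * (‖y‖ * 2)) (hεs.mul_right _)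
        (fun n => ?_)
      rw [norm_smul]
      have h4 : ‖((h n).comp T - φ (k₂ n)) y‖ ≤ ε n * ‖y‖ :=
        (ContinuousLinearMap.le_opNorm _ _).trans
          (mul_le_mul_of_nonneg_right (hh1 n) (norm_nonneg _))
      calc ‖((h n).comp T - φ (k₂ n)) y‖ * ‖g n‖ ≤ (ε n * ‖y‖) * 2 :=
            mul_le_mul h4 (hgn n) (norm_nonneg _) (mul_nonneg (hε0 n).le (norm_nonneg _))
        _ = ε n * (‖y‖ * 2) := by ring
    have h3 : Summable fun n => φ (k₂ n) y • (g n - x (k₂ n)) := by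
      refine Summable.of_norm_bounded (g := fun n => ε n * (C * ‖y‖)) (hεs.mul_right _)
        (fun n => ?_)
      rw [norm_smul]
      have h4 : ‖φ (k₂ n) y‖ ≤ C * ‖y‖ :=
        (ContinuousLinearMap.le_opNorm _ _).trans
          (mul_le_mul_of_nonneg_right (hCb _) (norm_nonneg _))
      calc ‖φ (k₂ n) y‖ * ‖g n - x (k₂ n)‖ ≤ (C * ‖y‖) * ε n :=
            mul_le_mul h4 (hg1 n) (norm_nonneg _) (mul_nonneg hC0 (norm_nonneg _))
        _ = ε n * (C * ‖y‖) := by ring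
    refine ((h1.add h2).add h3).congr (fun n => ?_)
    rw [smul_sub]
    have : h n (T y) = φ (k₂ n) y + ((h n).comp T - φ (k₂ n)) y := by simp
    rw [this, add_smul]
    abel
  -- the projection
  let S : ℕ → (X →L[ℂ] X) := fun n => ∑ j ∈ Finset.range n, ((h j).comp T).smulRight (g j)
  have hS : Tendsto (fun n y => S n y) atTop (𝓝 (fun y => ∑' n, h n (T y) • g n)) := by
    rw [tendsto_pi_nhds]
    intro y
    have h1 := (hsum y).hasSum.tendsto_sum_nat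
    refine h1.congr (fun n => ?_)
    simp [S]
  set Q₀ : X →L[ℂ] X := continuousLinearMapOfTendsto S hS with hQ₀
  have hQ₀s : ∀ y, HasSum (fun n => h n (T y) • g n) (Q₀ y) := fun y => (hsum y).hasSum
  have hψn : ∀ n, ‖(h n).comp T‖ ≤ C + 1 := by
    intro n
    calc ‖(h n).comp T‖ = ‖((h n).comp T - φ (k₂ n)) + φ (k₂ n)‖ := by rw [sub_add_cancel]
      _ ≤ ‖(h n).comp T - φ (k₂ n)‖ + ‖φ (k₂ n)‖ := norm_add_le _ _
      _ ≤ 1 + C := add_le_add ((hh1 n).trans (hε1 n)) (hCb _)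
      _ = C + 1 := by ring
  have hC1 : 0 < C + 1 := by linarith
  have hs : ∀ n, (((C + 1) / δ n : ℝ) : ℂ) * ((δ n / (C + 1) : ℝ) : ℂ) = 1 := by
    intro n
    have h1 := hδ n
    rw [← Complex.ofReal_mul, div_mul_div_comm, mul_comm (C + 1), div_self (by positivity)]
    simp
  have hQn : ‖Q₀‖ ≤ C₂ + (2 + C) := by
    have hC₂0 : 0 ≤ C₂ := le_trans (norm_nonneg _) (hC₂ ∅)
    refine ContinuousLinearMap.opNorm_le_bound _ (by positivity) (fun y => ?_)
    refine le_of_tendsto (hQ₀s y).norm (Eventually.of_forall (fun s => ?_))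
    have e1 : ∑ n ∈ s, h n (T y) • g n = ∑ n ∈ s, φ (k₂ n) y • x (k₂ n) +
        (∑ n ∈ s, ((h n).comp T - φ (k₂ n)) y • g n + ∑ n ∈ s, φ (k₂ n) y • (g n - x (k₂ n))) := by
      rw [← Finset.sum_add_distrib, ← Finset.sum_add_distrib]
      refine Finset.sum_congr rfl (fun n _ => ?_)
      rw [smul_sub]
      have : h n (T y) = φ (k₂ n) y + ((h n).comp T - φ (k₂ n)) y := by simp
      rw [this, add_smul]
      abel
    have e2 : ‖∑ n ∈ s, φ (k₂ n) y • x (k₂ n)‖ ≤ C₂ * ‖y‖ := by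
      have e3 : ∑ n ∈ s, φ (k₂ n) y • x (k₂ n) =
          (∑ n ∈ s.map ⟨k₂, hk₂.injective⟩, (φ n).smulRight (x n)) y := by
        rw [Finset.sum_map]
        simp
      rw [e3]
      exact (ContinuousLinearMap.le_opNorm _ _).trans
        (mul_le_mul_of_nonneg_right (hC₂ _) (norm_nonneg _))
    have e4 : ‖∑ n ∈ s, ((h n).comp T - φ (k₂ n)) y • g n‖ ≤ 2 * ‖y‖ := by
      calc ‖∑ n ∈ s, ((h n).comp T - φ (k₂ n)) y • g n‖
          ≤ ∑ n ∈ s, ‖((h n).comp T - φ (k₂ n)) y • g n‖ := norm_sum_le _ _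
        _ ≤ ∑ n ∈ s, ε n * (2 * ‖y‖) := by
            refine Finset.sum_le_sum (fun n _ => ?_)
            rw [norm_smul]
            have h4 : ‖((h n).comp T - φ (k₂ n)) y‖ ≤ ε n * ‖y‖ :=
              (ContinuousLinearMap.le_opNorm _ _).trans
                (mul_le_mul_of_nonneg_right (hh1 n) (norm_nonneg _))
            calc ‖((h n).comp T - φ (k₂ n)) y‖ * ‖g n‖ ≤ (ε n * ‖y‖) * 2 :=
                  mul_le_mul h4 (hgn n) (norm_nonneg _) (mul_nonneg (hε0 n).le (norm_nonneg _))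
              _ = ε n * (2 * ‖y‖) := by ring
        _ = (∑ n ∈ s, ε n) * (2 * ‖y‖) := by rw [Finset.sum_mul]
        _ ≤ 1 * (2 * ‖y‖) := mul_le_mul_of_nonneg_right (hεf s) (by positivity)
        _ = 2 * ‖y‖ := one_mul _
    have e5 : ‖∑ n ∈ s, φ (k₂ n) y • (g n - x (k₂ n))‖ ≤ C * ‖y‖ := by
      calc ‖∑ n ∈ s, φ (k₂ n) y • (g n - x (k₂ n))‖
          ≤ ∑ n ∈ s, ‖φ (k₂ n) y • (g n - x (k₂ n))‖ := norm_sum_le _ _
        _ ≤ ∑ n ∈ s, ε n * (C * ‖y‖) := by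
            refine Finset.sum_le_sum (fun n _ => ?_)
            rw [norm_smul]
            have h4 : ‖φ (k₂ n) y‖ ≤ C * ‖y‖ :=
              (ContinuousLinearMap.le_opNorm _ _).trans
                (mul_le_mul_of_nonneg_right (hCb _) (norm_nonneg _))
            calc ‖φ (k₂ n) y‖ * ‖g n - x (k₂ n)‖ ≤ (C * ‖y‖) * ε n :=
                  mul_le_mul h4 (hg1 n) (norm_nonneg _) (mul_nonneg hC0 (norm_nonneg _))
              _ = ε n * (C * ‖y‖) := by ring
        _ = (∑ n ∈ s, ε n) * (C * ‖y‖) := by rw [Finset.sum_mul]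
        _ ≤ 1 * (C * ‖y‖) := mul_le_mul_of_nonneg_right (hεf s) (by positivity)
        _ = C * ‖y‖ := one_mul _
    rw [e1]
    calc _ ≤ ‖∑ n ∈ s, φ (k₂ n) y • x (k₂ n)‖ +
          (‖∑ n ∈ s, ((h n).comp T - φ (k₂ n)) y • g n‖ +
            ‖∑ n ∈ s, φ (k₂ n) y • (g n - x (k₂ n))‖) :=
          (norm_add_le _ _).trans (by gcongr; exact norm_add_le _ _)
      _ ≤ C₂ * ‖y‖ + (2 * ‖y‖ + C * ‖y‖) := add_le_add e2 (add_le_add e4 e5)
      _ = (C₂ + (2 + C)) * ‖y‖ := by ring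
  refine ⟨Q₀, fun n => (((C + 1) / δ n : ℝ) : ℂ) • g n, fun n => ((δ n / (C + 1) : ℝ) : ℂ) • h n,
    ?_, ?_, ?_, ?_, hQn⟩
  · intro m n
    change (((δ m / (C + 1) : ℝ) : ℂ) • h m) (T ((((C + 1) / δ n : ℝ) : ℂ) • g n)) = _
    rw [map_smul, smul_apply, map_smul, smul_eq_mul, smul_eq_mul, hgh]
    by_cases hmn : m = n
    · rw [if_pos hmn, hmn, mul_one, mul_comm]
      exact hs n
    · rw [if_neg hmn]; simp
  · intro n
    change ‖T ((((C + 1) / δ n : ℝ) : ℂ) • g n)‖ ≤ δ n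
    have h1 := hδ n
    rw [map_smul, norm_smul, Complex.norm_real, Real.norm_of_nonneg (by positivity)]
    calc (C + 1) / δ n * ‖T (g n)‖ ≤ (C + 1) / δ n * (δ n * δ n / (C + 1)) := by
          gcongr
          exact (hTg n).trans (min_le_right _ _)
      _ = δ n := by field_simp
  · intro n
    have h1 := hδ n
    have h2 : (((δ n / (C + 1) : ℝ) : ℂ) • h n).comp T = ((δ n / (C + 1) : ℝ) : ℂ) •
        ((h n).comp T) := by ext y; simp
    change ‖(((δ n / (C + 1) : ℝ) : ℂ) • h n).comp T‖ ≤ δ n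
    rw [h2, norm_smul, Complex.norm_real, Real.norm_of_nonneg (by positivity)]
    calc δ n / (C + 1) * ‖(h n).comp T‖ ≤ δ n / (C + 1) * (C + 1) := by
          gcongr
          exact hψn n
      _ = δ n := by field_simp
  · intro y
    refine (hQ₀s y).congr_fun ?_ |> fun h => h
    intro n
    change (((δ n / (C + 1) : ℝ) : ℂ) • h n) (T y) • ((((C + 1) / δ n : ℝ) : ℂ) • g n) = _
    rw [smul_apply, smul_smul, smul_eq_mul]
    congr 1
    rw [mul_assoc, mul_comm (h n (T y)), ← mul_assoc, mul_comm ((δ n / (C + 1) : ℝ) : ℂ), hs,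
      one_mul]

/-- `abstract_factor` for a projection -/
theorem transfer_core {T : X →L[ℂ] X} (hinj : Function.Injective T)
    (Nm : ℝ) (a : ℕ → ℝ) (δ : ℕ → ℝ) (hδ0 : ∀ n, 0 < δ n)
    (hδ1 : ∀ n, 2 * 3 ^ n * δ n ≤ a (2 * n)) (hδ2 : ∀ n, δ n * Nm ≤ a (2 * n + 1))
    (hδ3 : ∀ n, 2 * 3 ^ n * δ n ≤ (1 / 2) ^ (n + 1))
    (Q : X →L[ℂ] X) (hNm : (‖Q‖ + 2) * ‖T‖ + 1 ≤ Nm) (g : ℕ → X) (h : ℕ → (X →L[ℂ] ℂ))
    (hgh : ∀ m n, h m (T (g n)) = if m = n then 1 else 0)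
    (hg : ∀ n, ‖T (g n)‖ ≤ δ n) (hh : ∀ n, ‖(h n).comp T‖ ≤ δ n)
    (hQ : ∀ y, HasSum (fun n => h n (T y) • g n) (Q y))
    (Z : Type*) [NormedAddCommGroup Z] [NormedSpace ℂ Z] [CompleteSpace Z]
    [TopologicalSpace.SeparableSpace Z] (hZ : ¬ FiniteDimensional ℂ Z) :
    ∃ (A : (LinearMap.ker (Q : X →ₗ[ℂ] X) × Z) →L[ℂ] X)
      (B : X →L[ℂ] (LinearMap.ker (Q : X →ₗ[ℂ] X) × Z))
      (R : LinearMap.ker (Q : X →ₗ[ℂ] X) →L[ℂ] LinearMap.ker (Q : X →ₗ[ℂ] X)),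
      A ∘L B = T ∧ Function.Injective A ∧
      DenseRange B ∧ Rapid a (B ∘L A - R.prodMap (0 : Z →L[ℂ] Z)) := by
  classical
  set W : Submodule ℂ X := LinearMap.ker (Q : X →ₗ[ℂ] X) with hW
  have hWc : IsClosed (W : Set X) := Q.isClosed_ker
  have hWm : ∀ x, x ∈ W ↔ Q x = 0 := fun x => Iff.rfl
  have hhQ : ∀ m y, h m (T (Q y)) = h m (T y) := by
    intro m y
    have h1 := (hQ y).mapL ((h m).comp T)
    have h2 : HasSum (fun n => (h m).comp T (h n (T y) • g n)) (h m (T y)) := by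
      have h3 := hasSum_ite_eq m (h m (T y))
      refine h3.congr_fun ?_ |> fun h => h
      intro n
      rw [map_smul, ContinuousLinearMap.comp_apply, hgh, smul_eq_mul]
      by_cases hmn : m = n
      · rw [if_pos hmn, if_pos hmn.symm, mul_one, hmn]
      · rw [if_neg hmn, if_neg (Ne.symm hmn), mul_zero]
    exact h1.unique h2
  have hQQ : ∀ y, Q (Q y) = Q y := by
    intro y
    have h1 := hQ (Q y)
    simp only [hhQ] at h1
    exact h1.unique (hQ y)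
  set c : ℝ := ‖(1 : X →L[ℂ] X) - Q‖ + 1 with hc
  have hc0 : 0 < c := by positivity
  have hc2 : c ≤ ‖Q‖ + 2 := by
    have h1 : ‖(1 : X →L[ℂ] X)‖ ≤ 1 := ContinuousLinearMap.norm_id_le
    have h2 : ‖(1 : X →L[ℂ] X) - Q‖ ≤ ‖(1 : X →L[ℂ] X)‖ + ‖Q‖ := norm_sub_le _ _
    rw [hc]; linarith
  have hcc : (c : ℂ) ≠ 0 := by exact_mod_cast hc0.ne'
  let π₀ : X →L[ℂ] W := ((1 : X →L[ℂ] X) - Q).codRestrict W (by
    intro x
    rw [hWm]
    simp [hQQ])
  have hπ₀ : ∀ x, ((π₀ x : W) : X) = x - Q x := fun x => rfl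
  let π : X →L[ℂ] W := ((c : ℂ)⁻¹) • π₀
  have hπ : ∀ x, ((π x : W) : X) = (c : ℂ)⁻¹ • (x - Q x) := fun x => rfl
  have hπs : Function.Surjective π := by
    intro w
    refine ⟨(c : ℂ) • (w : X), ?_⟩
    apply Subtype.ext
    rw [hπ, map_smul, (hWm _).1 w.2, smul_zero, sub_zero, smul_smul, inv_mul_cancel₀ hcc, one_smul]
  have hπn : ‖π‖ ≤ 1 := by
    refine ContinuousLinearMap.opNorm_le_bound _ zero_le_one (fun x => ?_)
    change ‖((π x : W) : X)‖ ≤ 1 * ‖x‖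
    rw [one_mul, hπ, norm_smul, norm_inv, Complex.norm_real,
      Real.norm_of_nonneg hc0.le, inv_mul_le_iff₀ hc0]
    calc ‖x - Q x‖ = ‖((1 : X →L[ℂ] X) - Q) x‖ := rfl
      _ ≤ ‖(1 : X →L[ℂ] X) - Q‖ * ‖x‖ := ContinuousLinearMap.le_opNorm _ _
      _ ≤ c * ‖x‖ := by
          gcongr
          rw [hc]; linarith
  let A₁ : W →L[ℂ] X := (c : ℂ) • (T ∘L W.subtypeL)
  have hA₁ : ∀ w : W, A₁ w = (c : ℂ) • T (w : X) := fun w => rfl
  have hA₁n : ‖A₁‖ ≤ (‖Q‖ + 2) * ‖T‖ := by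
    refine ContinuousLinearMap.opNorm_le_bound _ (by positivity) (fun w => ?_)
    rw [hA₁, norm_smul, Complex.norm_real, Real.norm_of_nonneg hc0.le]
    calc c * ‖T (w : X)‖ ≤ (‖Q‖ + 2) * (‖T‖ * ‖(w : X)‖) := by
          gcongr
          exact T.le_opNorm _
      _ = (‖Q‖ + 2) * ‖T‖ * ‖w‖ := by rw [mul_assoc]; rfl
  have hA₁inj : Function.Injective A₁ := by
    rw [injective_iff_map_eq_zero]
    intro w hw
    rw [hA₁] at hw
    rcases smul_eq_zero.1 hw with h1 | h1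
    · exact absurd h1 hcc
    · exact Subtype.ext (hinj (by rw [h1]; simp))
  have hA : ∀ x, HasSum (fun n => h n (T x) • T (g n)) (T x - A₁ (π x)) := by
    intro x
    have h1 : T x - A₁ (π x) = T (Q x) := by
      rw [hA₁, hπ, map_smul, smul_smul, mul_inv_cancel₀ hcc, one_smul, map_sub, sub_sub_cancel]
    rw [h1]
    have h2 := (hQ x).mapL T
    simpa only [map_smul] using h2
  obtain ⟨z, z', e1, e2, e3, e4, e5⟩ := exists_mbasis hZ
  obtain ⟨A, B, h1, h2, h3, h4⟩ := abstract_factor π hπs hπn A₁ hA₁inj Nm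
    (by linarith) a δ hδ1 hδ2 hδ3 hδ0 g h hgh hg hh hA z z' e1 e2 e3 e4 e5
  exact ⟨A, B, π ∘L A₁, h1, h2, h3, h4⟩

/-- conjugation of `Rapid` operators -/
theorem Rapid.conj' {X Y : Type*} [NormedAddCommGroup X] [NormedSpace ℂ X]
    [NormedAddCommGroup Y] [NormedSpace ℂ Y] {a b : ℕ → ℝ} {K : X →L[ℂ] X} (hK : Rapid a K)
    (A : Y →L[ℂ] X) (B : X →L[ℂ] Y) (hab : ∀ n, ‖A‖ * ‖B‖ * a n ≤ b n) :
    Rapid b (B ∘L (K ∘L A)) := by
  obtain ⟨f, y, h1, h2⟩ := hK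
  refine ⟨fun n => (f n).comp A, fun n => B (y n), fun n => ?_, fun x => ?_⟩
  · calc ‖(f n).comp A‖ * ‖B (y n)‖ ≤ (‖f n‖ * ‖A‖) * (‖B‖ * ‖y n‖) := by
          gcongr
          · exact (f n).opNorm_comp_le A
          · exact B.le_opNorm _
      _ = ‖A‖ * ‖B‖ * (‖f n‖ * ‖y n‖) := by ring
      _ ≤ ‖A‖ * ‖B‖ * a n := by
          gcongr
          exact h1 n
      _ ≤ b n := hab n
  · have h3 := (h2 (A x)).mapL B
    simp only [map_smul] at h3
    exact h3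

/-- **Factorisation through a larger space.** An injective operator with dense range which is not
invertible, on a reflexive space with the property `CUS`, factors as `A B` through each separable
Banach space with a complemented subspace isomorphic to `X`, with `A` injective and `B` with dense
range, and `B A` is of the form `(R ⊕ 0) + K` with `K` rapidly nuclear. -/
theorem transfer_factor
    (hXr : Function.Surjective (NormedSpace.inclusionInDoubleDual ℂ X)) (hC : CUS X)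
    {T₀ : X →L[ℂ] X} (hinj : Function.Injective T₀) (hd : DenseRange T₀) (hc : ¬ IsUnit T₀)
    (F : Type*) [NormedAddCommGroup F] [NormedSpace ℂ F] [CompleteSpace F]
    [TopologicalSpace.SeparableSpace F] (i : X →L[ℂ] F) (q : F →L[ℂ] X)
    (hqi : ∀ x, q (i x) = x) (a : ℕ → ℝ) (ha : ∀ n, 0 < a n) :
    ∃ (A : F →L[ℂ] X) (B : X →L[ℂ] F) (W : Submodule ℂ X) (_ : IsClosed (W : Set X))
      (i' : W →L[ℂ] F) (q' : F →L[ℂ] W) (R : W →L[ℂ] W), A ∘L B = T₀ ∧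
      Function.Injective A ∧ DenseRange B ∧ (∀ w, q' (i' w) = w) ∧
      ¬ FiniteDimensional ℂ (LinearMap.ker (q' : F →ₗ[ℂ] W)) ∧
      Rapid a (B ∘L A - i' ∘L (R ∘L q')) := by
  classical
  obtain ⟨CQ, hCQ⟩ := exists_proj hXr hC hinj hd hc
  have hCQ0 : 0 ≤ CQ := by
    obtain ⟨Q, g, h, -, -, -, -, hQn⟩ := hCQ (fun _ => 1) (fun _ => one_pos)
    exact (norm_nonneg _).trans hQn
  set Nm : ℝ := (CQ + 2) * ‖T₀‖ + 1 with hNm
  have hNm0 : 0 < Nm := by positivity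
  set κ : ℝ := ((CQ + 2) * ‖q‖ + (1 + ‖i‖ * ‖q‖)) * (2 * ‖i‖ + 1) + 1 with hκ
  have hκ0 : 0 < κ := by positivity
  set b : ℕ → ℝ := fun n => a n / κ with hb
  have hb0 : ∀ n, 0 < b n := fun n => div_pos (ha n) hκ0
  set δ : ℕ → ℝ := fun n => min (b (2 * n) / (2 * 3 ^ n))
    (min (b (2 * n + 1) / Nm) ((1 / 2) ^ (n + 1) / (2 * 3 ^ n))) with hδ
  have h3 : ∀ n : ℕ, (0 : ℝ) < 2 * 3 ^ n := fun n => by positivity
  have hδ0 : ∀ n, 0 < δ n := fun n =>
    lt_min (div_pos (hb0 _) (h3 n)) (lt_min (div_pos (hb0 _) hNm0)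
      (div_pos (by positivity) (h3 n)))
  have hδ1 : ∀ n, 2 * 3 ^ n * δ n ≤ b (2 * n) := by
    intro n
    have h4 : δ n ≤ b (2 * n) / (2 * 3 ^ n) := min_le_left _ _
    rw [le_div_iff₀ (h3 n)] at h4
    linarith
  have hδ2 : ∀ n, δ n * Nm ≤ b (2 * n + 1) := by
    intro n
    have h4 : δ n ≤ b (2 * n + 1) / Nm := (min_le_right _ _).trans (min_le_left _ _)
    rwa [le_div_iff₀ hNm0] at h4
  have hδ3 : ∀ n, 2 * 3 ^ n * δ n ≤ (1 / 2) ^ (n + 1) := by
    intro n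
    have h4 : δ n ≤ (1 / 2) ^ (n + 1) / (2 * 3 ^ n) := (min_le_right _ _).trans (min_le_right _ _)
    rw [le_div_iff₀ (h3 n)] at h4
    linarith
  obtain ⟨Q, g, h, hgh, hg, hh, hQ, hQn⟩ := hCQ δ hδ0
  have hhQ : ∀ m y, h m (T₀ (Q y)) = h m (T₀ y) := by
    intro m y
    have h1 := (hQ y).mapL ((h m).comp T₀)
    have h2 : HasSum (fun n => (h m).comp T₀ (h n (T₀ y) • g n)) (h m (T₀ y)) := by
      have h3 := hasSum_ite_eq m (h m (T₀ y))
      refine h3.congr_fun ?_ |> fun h => h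
      intro n
      rw [map_smul, ContinuousLinearMap.comp_apply, hgh, smul_eq_mul]
      by_cases hmn : m = n
      · rw [if_pos hmn, if_pos hmn.symm, mul_one, hmn]
      · rw [if_neg hmn, if_neg (Ne.symm hmn), mul_zero]
    exact h1.unique h2
  have hQQ : ∀ y, Q (Q y) = Q y := by
    intro y
    have h1 := hQ (Q y)
    simp only [hhQ] at h1
    exact h1.unique (hQ y)
  have hQg : ∀ n, Q (g n) = g n := by
    intro n
    have h1 := hQ (g n)
    have h2 : HasSum (fun m => h m (T₀ (g n)) • g m) (g n) := by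
      have h3 := hasSum_ite_eq n (g n)
      refine h3.congr_fun ?_ |> fun h => h
      intro m
      rw [hgh]
      by_cases hmn : m = n
      · rw [if_pos hmn, if_pos hmn, one_smul, hmn]
      · rw [if_neg hmn, if_neg hmn, zero_smul]
    exact h1.unique h2
  let M : Submodule ℂ X := LinearMap.ker (((1 : X →L[ℂ] X) - Q : X →L[ℂ] X) : X →ₗ[ℂ] X)
  have hMc : IsClosed (M : Set X) := ((1 : X →L[ℂ] X) - Q).isClosed_ker
  have hMm : ∀ x, x ∈ M ↔ x - Q x = 0 := fun x => Iff.rfl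
  let W : Submodule ℂ X := LinearMap.ker (Q : X →ₗ[ℂ] X)
  have hWc : IsClosed (W : Set X) := Q.isClosed_ker
  have hWm : ∀ x, x ∈ W ↔ Q x = 0 := fun x => Iff.rfl
  let L : Submodule ℂ F := LinearMap.ker (q : F →ₗ[ℂ] X)
  have hLc : IsClosed (L : Set F) := q.isClosed_ker
  have hLm : ∀ y, y ∈ L ↔ q y = 0 := fun y => Iff.rfl
  have hsepX : TopologicalSpace.SeparableSpace X := by
    have hqs : Function.Surjective q := fun x => ⟨i x, hqi x⟩
    exact hqs.denseRange.separableSpace q.continuous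
  have : SecondCountableTopology X := UniformSpace.secondCountable_of_separable X
  have : SecondCountableTopology F := UniformSpace.secondCountable_of_separable F
  have : CompleteSpace M := hMc.completeSpace_coe
  have : CompleteSpace L := hLc.completeSpace_coe
  have hMfd : ¬ FiniteDimensional ℂ M := by
    intro hfd
    let gM : ℕ → M := fun n => ⟨g n, by rw [hMm, hQg, sub_self]⟩
    have hli : LinearIndependent ℂ gM := by
      rw [linearIndependent_iff']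
      intro s b hb j hj
      have h5 := congrArg (fun m : M => h j (T₀ (m : X))) hb
      simp only [Submodule.coe_sum, Submodule.coe_smul, map_sum, map_smul, smul_eq_mul,
        ZeroMemClass.coe_zero, map_zero, gM, hgh] at h5
      rw [Finset.sum_eq_single j] at h5
      · simpa using h5
      · intro l _ hlj
        rw [if_neg (Ne.symm hlj), mul_zero]
      · intro hcon
        exact absurd hj hcon
    have := hli.finite_of_isNoetherian
    exact not_finite ℕ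
  have hZ : ¬ FiniteDimensional ℂ (M × L) := by
    intro hfd
    exact hMfd (FiniteDimensional.of_surjective (LinearMap.fst ℂ M L) LinearMap.fst_surjective)
  obtain ⟨A₀, B₀, R, hAB₀, hA₀, hB₀, hR⟩ := transfer_core hinj Nm b δ hδ0 hδ1 hδ2 hδ3 Q
    (by rw [hNm]; gcongr) g h hgh hg hh hQ (M × L) hZ
  -- the isomorphism
  let A : (W × (M × L)) →L[ℂ] F :=
    (i ∘L W.subtypeL ∘L ContinuousLinearMap.fst ℂ W (M × L)) +
    (i ∘L M.subtypeL ∘L ContinuousLinearMap.fst ℂ M L ∘L ContinuousLinearMap.snd ℂ W (M × L)) +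
    (L.subtypeL ∘L ContinuousLinearMap.snd ℂ M L ∘L ContinuousLinearMap.snd ℂ W (M × L))
  have hA : ∀ w m l, A (w, m, l) = i w + i m + l := fun w m l => rfl
  let B₁ : F →L[ℂ] W := (((1 : X →L[ℂ] X) - Q) ∘L q).codRestrict W (by
    intro y
    rw [hWm]
    simp [hQQ])
  let B₂ : F →L[ℂ] M := (Q ∘L q).codRestrict M (by
    intro y
    rw [hMm]
    simp [hQQ])
  let B₃ : F →L[ℂ] L := ((1 : F →L[ℂ] F) - i ∘L q).codRestrict L (by
    intro y
    rw [hLm]
    simp [hqi])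
  have hB₁ : ∀ y, ((B₁ y : W) : X) = q y - Q (q y) := fun y => rfl
  have hB₂ : ∀ y, ((B₂ y : M) : X) = Q (q y) := fun y => rfl
  have hB₃ : ∀ y, ((B₃ y : L) : F) = y - i (q y) := fun y => rfl
  let B : F →L[ℂ] (W × (M × L)) := B₁.prod (B₂.prod B₃)
  have hB : ∀ y, B y = (B₁ y, B₂ y, B₃ y) := fun y => rfl
  have hAB : ∀ y, A (B y) = y := by
    intro y
    rw [hB, hA, hB₁, hB₂, hB₃, map_sub]
    abel
  have hBA : ∀ p, B (A p) = p := by
    rintro ⟨w, m, l⟩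
    have hw : Q (w : X) = 0 := (hWm _).1 w.2
    have hm : Q (m : X) = (m : X) := (sub_eq_zero.1 ((hMm _).1 m.2)).symm
    have hl : q (l : F) = 0 := (hLm _).1 l.2
    rw [hB, hA]
    have hq : q (i w + i m + l) = (w : X) + (m : X) := by
      rw [map_add, map_add, hqi, hqi, hl, add_zero]
    refine Prod.ext (Subtype.ext ?_) (Prod.ext (Subtype.ext ?_) (Subtype.ext ?_))
    · change ((B₁ _ : W) : X) = w
      rw [hB₁, hq, map_add, hw, hm]
      abel
    · change ((B₂ _ : M) : X) = m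
      rw [hB₂, hq, map_add, hw, hm, zero_add]
    · change ((B₃ _ : L) : F) = l
      rw [hB₃, hq, map_add]
      abel
  have hBinj : Function.Injective B := fun y₁ y₂ h12 => by rw [← hAB y₁, h12, hAB]
  have hAs : Function.Surjective A := fun y => ⟨B y, hAB y⟩
  -- norms
  have hAn : ‖A‖ ≤ 2 * ‖i‖ + 1 := by
    refine ContinuousLinearMap.opNorm_le_bound _ (by positivity) ?_
    rintro ⟨w, m, l⟩
    rw [hA]
    have n1 : ‖(w : X)‖ ≤ ‖((w, m, l) : W × (M × L))‖ := le_max_left _ _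
    have n2 : ‖(m : X)‖ ≤ ‖((w, m, l) : W × (M × L))‖ :=
      (le_max_left ‖m‖ ‖l‖).trans (le_max_right _ _)
    have n3 : ‖(l : F)‖ ≤ ‖((w, m, l) : W × (M × L))‖ :=
      (le_max_right ‖m‖ ‖l‖).trans (le_max_right _ _)
    calc ‖i (w : X) + i (m : X) + (l : F)‖ ≤ ‖i (w : X)‖ + ‖i (m : X)‖ + ‖(l : F)‖ :=
          norm_add₃_le
      _ ≤ ‖i‖ * ‖(w : X)‖ + ‖i‖ * ‖(m : X)‖ + ‖(l : F)‖ := by
          gcongr
          · exact i.le_opNorm _
          · exact i.le_opNorm _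
      _ ≤ ‖i‖ * ‖((w, m, l) : W × (M × L))‖ + ‖i‖ * ‖((w, m, l) : W × (M × L))‖ +
          ‖((w, m, l) : W × (M × L))‖ := by gcongr
      _ = (2 * ‖i‖ + 1) * ‖((w, m, l) : W × (M × L))‖ := by ring
  have hBn : ‖B‖ ≤ (CQ + 2) * ‖q‖ + (1 + ‖i‖ * ‖q‖) := by
    refine ContinuousLinearMap.opNorm_le_bound _ (by positivity) (fun y => ?_)
    have n0 : ‖q y‖ ≤ ‖q‖ * ‖y‖ := q.le_opNorm y
    have n00 : ‖Q (q y)‖ ≤ CQ * (‖q‖ * ‖y‖) :=
      (Q.le_opNorm _).trans (mul_le_mul hQn n0 (norm_nonneg _) hCQ0)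
    have n1 : ‖B₁ y‖ ≤ ((CQ + 2) * ‖q‖ + (1 + ‖i‖ * ‖q‖)) * ‖y‖ := by
      change ‖((B₁ y : W) : X)‖ ≤ _
      rw [hB₁]
      have e1 : ‖q y - Q (q y)‖ ≤ ‖q y‖ + ‖Q (q y)‖ := norm_sub_le _ _
      have e2 : 0 ≤ ‖q‖ * ‖y‖ := by positivity
      have e3 : 0 ≤ ‖i‖ * ‖q‖ * ‖y‖ := by positivity
      have e4 : 0 ≤ ‖y‖ := norm_nonneg _
      nlinarith
    have n2 : ‖B₂ y‖ ≤ ((CQ + 2) * ‖q‖ + (1 + ‖i‖ * ‖q‖)) * ‖y‖ := by
      change ‖((B₂ y : M) : X)‖ ≤ _
      rw [hB₂]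
      have e2 : 0 ≤ ‖q‖ * ‖y‖ := by positivity
      have e3 : 0 ≤ ‖i‖ * ‖q‖ * ‖y‖ := by positivity
      have e4 : 0 ≤ ‖y‖ := norm_nonneg _
      nlinarith
    have n3 : ‖B₃ y‖ ≤ ((CQ + 2) * ‖q‖ + (1 + ‖i‖ * ‖q‖)) * ‖y‖ := by
      change ‖((B₃ y : L) : F)‖ ≤ _
      rw [hB₃]
      have e1 : ‖y - i (q y)‖ ≤ ‖y‖ + ‖i (q y)‖ := norm_sub_le _ _
      have e2 : ‖i (q y)‖ ≤ ‖i‖ * (‖q‖ * ‖y‖) :=
        (i.le_opNorm _).trans (mul_le_mul_of_nonneg_left n0 (norm_nonneg _))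
      have e3 : 0 ≤ ‖q‖ * ‖y‖ := by positivity
      have e4 : 0 ≤ CQ * (‖q‖ * ‖y‖) := by positivity
      nlinarith
    rw [hB]
    exact max_le n1 (max_le n2 n3)
  refine ⟨A₀ ∘L B, A ∘L B₀, W, hWc, A ∘L ContinuousLinearMap.inl ℂ W (M × L),
    ContinuousLinearMap.fst ℂ W (M × L) ∘L B, R, ?_, ?_, ?_, ?_, ?_, ?_⟩
  · refine ContinuousLinearMap.ext (fun x => ?_)
    change A₀ (B (A (B₀ x))) = T₀ x
    rw [hBA, ← hAB₀]
    rfl
  · exact hA₀.comp hBinj
  · exact (hAs.denseRange).comp hB₀ A.continuous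
  · intro w
    change (B (A (w, 0))).1 = w
    rw [hBA]
  · intro hfd
    apply hMfd
    let j : M →ₗ[ℂ] LinearMap.ker ((ContinuousLinearMap.fst ℂ W (M × L) ∘L B : F →L[ℂ] W) :
        F →ₗ[ℂ] W) :=
      { toFun := fun m => ⟨A (0, m, 0), by
          change (B (A (0, m, 0))).1 = 0
          rw [hBA]⟩
        map_add' := by
          intro m m'
          apply Subtype.ext
          change A (0, m + m', 0) = A (0, m, 0) + A (0, m', 0)
          rw [← map_add]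
          simp
        map_smul' := by
          intro c m
          apply Subtype.ext
          change A (0, c • m, 0) = c • A (0, m, 0)
          rw [← map_smul]
          simp }
    have hj : Function.Injective j := by
      rw [injective_iff_map_eq_zero]
      intro m hm
      have h5 : A (0, m, 0) = 0 := congrArg Subtype.val hm
      have h6 : B (A (0, m, 0)) = 0 := by rw [h5, map_zero]
      rw [hBA] at h6
      exact congrArg (fun p : W × (M × L) => p.2.1) h6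
    exact FiniteDimensional.of_injective j hj
  · have h5 := hR.conj' B A (b := a) (fun n => by
      have e1 : ‖B‖ * ‖A‖ ≤ κ := by
        calc ‖B‖ * ‖A‖ ≤ ((CQ + 2) * ‖q‖ + (1 + ‖i‖ * ‖q‖)) * (2 * ‖i‖ + 1) :=
              mul_le_mul hBn hAn A.opNorm_nonneg (by positivity)
          _ ≤ κ := by rw [hκ]; linarith
      calc ‖B‖ * ‖A‖ * b n ≤ κ * b n := mul_le_mul_of_nonneg_right e1 (hb0 n).le
        _ = a n := by rw [hb]; field_simp)
    have h6 : A ∘L ((B₀ ∘L A₀ - R.prodMap (0 : (M × L) →L[ℂ] (M × L))) ∘L B) =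
        (A ∘L B₀) ∘L (A₀ ∘L B) - (A ∘L ContinuousLinearMap.inl ℂ W (M × L)) ∘L
          (R ∘L (ContinuousLinearMap.fst ℂ W (M × L) ∘L B)) := by
      refine ContinuousLinearMap.ext (fun y => ?_)
      change A (B₀ (A₀ (B y)) - (R (B y).1, (0 : M × L))) = A (B₀ (A₀ (B y))) - A (R (B y).1, 0)
      rw [map_sub]
    rw [h6] at h5
    exact h5

/-- **Transfer to a larger space.** -/
theorem transfer (hX : ¬ FiniteDimensional ℂ X)
    (hXr : Function.Surjective (NormedSpace.inclusionInDoubleDual ℂ X)) (hC : CUS X)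
    {T : X →L[ℂ] X} (hT : NoInv T)
    (F : Type*) [NormedAddCommGroup F] [NormedSpace ℂ F] [CompleteSpace F]
    [TopologicalSpace.SeparableSpace F] (i : X →L[ℂ] F) (q : F →L[ℂ] X)
    (hqi : ∀ x, q (i x) = x) (a : ℕ → ℝ) (ha : ∀ n, 0 < a n) :
    ∃ (W : Submodule ℂ X) (_ : IsClosed (W : Set X))
      (i' : W →L[ℂ] F) (q' : F →L[ℂ] W) (R : W →L[ℂ] W) (K : F →L[ℂ] F),
      (∀ w, q' (i' w) = w) ∧ ¬ FiniteDimensional ℂ (LinearMap.ker (q' : F →ₗ[ℂ] W)) ∧
      Rapid a K ∧ NoInv (i' ∘L (R ∘L q') + K) := by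
  obtain ⟨c, hc⟩ := exists_sub_not_isUnit hX T
  have hN : NoInv (T - c • (1 : X →L[ℂ] X)) := hT.sub_smul_one c
  obtain ⟨A, B, W, hW, i', q', R, hAB, hA, hB, hqi', hfd, hK⟩ := transfer_factor hXr hC
    (hN.injective hX) (hN.denseRange hX) hc F i q hqi a ha
  refine ⟨W, hW, i', q', R, _, hqi', hfd, hK, ?_⟩
  rw [add_sub_cancel]
  exact NoInv.swap hA hB (by rw [hAB]; exact hN)

end transfer

end Pool.Agent.H272.IS
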