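import Pool.Agent.H272.IS.Final

/-!
# Weakly null sequences on which an operator is small

If `T` is injective with dense range and not invertible on a reflexive space, then the range of
the adjoint is norm dense and there is a normalised weakly null sequence `x n` with `T (x n) → 0`.
-/

set_option autoImplicit false

namespace Pool.Agent.H272.IS

open Filter Topology

section sep

/-- Hahn-Banach: a functional which vanishes on a closed subspace -/
theorem exists_vanishing {E : Type*} [NormedAddCommGroup E] [NormedSpace ℂ E]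
    (p : Submodule ℂ E) (hp : IsClosed (p : Set E)) {x : E} (hx : x ∉ p) :
    ∃ f : E →L[ℂ] ℂ, f x ≠ 0 ∧ ∀ y ∈ p, f y = 0 := by
  have _ : IsClosed (p : Set E) := hp
  have h1 : p.mkQL x ≠ 0 := by
    intro h
    exact hx ((Submodule.Quotient.mk_eq_zero p).1 h)
  obtain ⟨g, -, hg⟩ := exists_dual_vector ℂ (p.mkQL x) (norm_ne_zero_iff.2 h1)
  refine ⟨g.comp p.mkQL, ?_, ?_⟩
  · rw [ContinuousLinearMap.comp_apply, hg]
    simpa using h1
  · intro y hy
    have : p.mkQL y = 0 := (Submodule.Quotient.mk_eq_zero p).2 hy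
    rw [ContinuousLinearMap.comp_apply, this, map_zero]

end sep

section weaknull

variable {X : Type*} [NormedAddCommGroup X] [NormedSpace ℂ X] [CompleteSpace X]

/-- on a reflexive space the adjoint of an injective operator has dense range -/
theorem dense_adjoint (hX : Function.Surjective (NormedSpace.inclusionInDoubleDual ℂ X))
    {T : X →L[ℂ] X} (hT : Function.Injective T) (f : X →L[ℂ] ℂ) (ε : ℝ) (hε : 0 < ε) :
    ∃ h : X →L[ℂ] ℂ, ‖h.comp T - f‖ < ε := by
  let A : (X →L[ℂ] ℂ) →L[ℂ] (X →L[ℂ] ℂ) := ContinuousLinearMap.precomp ℂ T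
  let p : Submodule ℂ (X →L[ℂ] ℂ) := (LinearMap.range (A : (X →L[ℂ] ℂ) →ₗ[ℂ] (X →L[ℂ] ℂ)))
  have hcl : f ∈ p.topologicalClosure := by
    by_contra hcon
    obtain ⟨Φ, hΦ1, hΦ2⟩ := exists_vanishing p.topologicalClosure
      (Submodule.isClosed_topologicalClosure p) hcon
    obtain ⟨x, hx⟩ := hX Φ
    have h1 : ∀ h : X →L[ℂ] ℂ, h (T x) = 0 := by
      intro h
      have h2 : A h ∈ p.topologicalClosure := Submodule.le_topologicalClosure _ ⟨h, rfl⟩
      have h3 : Φ (A h) = 0 := hΦ2 _ h2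
      rw [← hx, NormedSpace.dual_def] at h3
      exact h3
    have h2 : T x = 0 := by
      by_contra hne
      obtain ⟨h, -, hh⟩ := exists_dual_vector ℂ (T x) (norm_ne_zero_iff.2 hne)
      rw [h1 h] at hh
      have : (‖T x‖ : ℂ) ≠ 0 := by exact_mod_cast norm_ne_zero_iff.2 hne
      exact this hh.symm
    have h3 : x = 0 := hT (by rw [h2, map_zero])
    apply hΦ1
    rw [← hx, h3]
    simp
  rw [← SetLike.mem_coe, Submodule.topologicalClosure_coe, Metric.mem_closure_iff] at hcl
  obtain ⟨_, ⟨h, rfl⟩, hh⟩ := hcl ε hε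
  refine ⟨h, ?_⟩
  rw [dist_comm, dist_eq_norm] at hh
  exact hh

/-- an injective operator with dense range which is not invertible is not bounded below -/
theorem exists_unit_small {T : X →L[ℂ] X} (hinj : Function.Injective T) (hd : DenseRange T)
    (hu : ¬ IsUnit T) (ε : ℝ) (hε : 0 < ε) : ∃ x : X, ‖x‖ = 1 ∧ ‖T x‖ ≤ ε := by
  by_contra hcon
  push Not at hcon
  apply hu
  refine ContinuousLinearMap.isUnit_iff_bijective.2 ⟨hinj, ?_⟩
  have hb : ∀ x, ε * ‖x‖ ≤ ‖T x‖ := by
    intro x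
    by_cases hx : x = 0
    · simp [hx]
    · have hx0 : 0 < ‖x‖ := norm_pos_iff.2 hx
      have h1 := hcon (((‖x‖⁻¹ : ℝ) : ℂ) • x) (by
        rw [norm_smul, Complex.norm_real, Real.norm_of_nonneg (inv_nonneg.2 hx0.le),
          inv_mul_cancel₀ hx0.ne'])
      rw [map_smul, norm_smul, Complex.norm_real, Real.norm_of_nonneg (inv_nonneg.2 hx0.le)] at h1
      have h2 := mul_lt_mul_of_pos_left h1 hx0
      rw [← mul_assoc, mul_inv_cancel₀ hx0.ne', one_mul] at h2
      linarith
  have hal : AntilipschitzWith ⟨ε⁻¹, by positivity⟩ T := by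
    refine AddMonoidHomClass.antilipschitz_of_bound T (fun x => ?_)
    change ‖x‖ ≤ ε⁻¹ * ‖T x‖
    rw [inv_mul_eq_div, le_div_iff₀ hε, mul_comm]
    exact hb x
  have hcr : IsClosed (Set.range T) := hal.isClosed_range T.uniformContinuous
  intro y
  have := hd y
  rw [hcr.closure_eq] at this
  exact this

theorem exists_weaklyNull (hX : Function.Surjective (NormedSpace.inclusionInDoubleDual ℂ X))
    {T : X →L[ℂ] X} (hinj : Function.Injective T) (hd : DenseRange T) (hu : ¬ IsUnit T) :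
    ∃ x : ℕ → X, (∀ n, ‖x n‖ = 1) ∧ Tendsto (fun n => T (x n)) atTop (𝓝 0) ∧
      ∀ f : X →L[ℂ] ℂ, Tendsto (fun n => f (x n)) atTop (𝓝 0) := by
  choose x hx1 hx2 using fun n : ℕ => exists_unit_small hinj hd hu (1 / ((n : ℝ) + 1))
    (by positivity)
  have hT : Tendsto (fun n => T (x n)) atTop (𝓝 0) :=
    squeeze_zero_norm hx2 tendsto_one_div_add_atTop_nhds_zero_nat
  refine ⟨x, hx1, hT, fun f => ?_⟩
  rw [Metric.tendsto_atTop]
  intro ε hε
  obtain ⟨h, hh⟩ := dense_adjoint hX hinj f (ε / 2) (by positivity)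
  have h1 : Tendsto (fun n => h (T (x n))) atTop (𝓝 0) := by
    have := (h.continuous.tendsto 0).comp hT
    rwa [map_zero] at this
  rw [Metric.tendsto_atTop] at h1
  obtain ⟨N, hN⟩ := h1 (ε / 2) (by positivity)
  refine ⟨N, fun n hn => ?_⟩
  have h2 := hN n hn
  rw [dist_zero_right] at h2 ⊢
  have h3 : f (x n) = h (T (x n)) - (h.comp T - f) (x n) := by
    simp
  calc ‖f (x n)‖ ≤ ‖h (T (x n))‖ + ‖(h.comp T - f) (x n)‖ := by
        rw [h3]; exact norm_sub_le _ _
    _ ≤ ‖h (T (x n))‖ + ‖h.comp T - f‖ * ‖x n‖ := by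
        gcongr; exact ContinuousLinearMap.le_opNorm _ _
    _ < ε / 2 + ε / 2 := by
        rw [hx1, mul_one]
        exact add_lt_add h2 hh
    _ = ε := by ring

end weaknull

end Pool.Agent.H272.IS
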